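import Mathlib

/-!
# MP_42cd19_co: f(n) = 3 n - 1 for all n.  Definitions for the existence part.

Chains are finitely supported functions on finite sets.  A cell is a finite set of points
`(slot, value)`, a value is `(lift k, label i)` ordered lexicographically.
The label `i` lives on the real numbers `θ_i + k` (`0 < θ_0 < θ_1 < ... < 1`).
-/

namespace Pool.Agent.Helper40.NF

open Finset

/-! ## General signed complexes -/

/-- chains on finite subsets of `α` -/
abbrev Ch (α : Type) : Type := Finset α →₀ ℚ

section Gen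
variable {α β : Type} [DecidableEq α] [LinearOrder β]

/-- sign of `x` in `F`: parity of the number of elements with smaller key -/
def sg (key : α → β) (F : Finset α) (x : α) : ℚ :=
  (-1) ^ (F.filter (fun y => key y < key x)).card

open Classical in
/-- boundary of a cell: all removals of one element which leave a `V`-valid cell -/
noncomputable def bdF (key : α → β) (V : Finset α → Prop) (F : Finset α) : Ch α :=
  ∑ x ∈ F, if V (F.erase x) then Finsupp.single (F.erase x) (sg key F x) else 0

/-- boundary operator -/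
noncomputable def bd (key : α → β) (V : Finset α → Prop) : Ch α →ₗ[ℚ] Ch α :=
  Finsupp.linearCombination ℚ (bdF key V)

/-- chains supported on cells with property `P` -/
def sup (P : Finset α → Prop) : Submodule ℚ (Ch α) := Finsupp.supported ℚ ℚ {F | P F}

/-- `V` is order convex -/
def Conv (V : Finset α → Prop) : Prop :=
  ∀ X Y Z : Finset α, Y ⊆ Z → Z ⊆ X → V Y → V X → V Z

end Gen

/-! ## Values, points, validity -/

/-- a value: (lift, label), lexicographic order -/
abbrev Val : Type := ℕ ×ₗ ℕ
/-- a point: (slot, value) -/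
abbrev Pt : Type := ℕ × Val

/-- the value with lift `k` and label `i` -/
def mk (k i : ℕ) : Val := toLex (k, i)
/-- lift of a value -/
def lift (v : Val) : ℕ := (ofLex v).1
/-- label of a value -/
def lab (v : Val) : ℕ := (ofLex v).2

/-- set of lifts of the label `i` in `X` -/
def lifts (X : Finset Val) (i : ℕ) : Finset ℕ := (X.filter (fun v => lab v = i)).image lift

/-- local condition: two or three consecutive lifts -/
def Ok (T : Finset ℕ) : Prop := ∃ m, T = {m, m + 1} ∨ T = {m, m + 1, m + 2}

/-- validity of a set of values for the label set `A` -/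
def LV (A : Finset ℕ) (X : Finset Val) : Prop := (∀ v ∈ X, lab v ∈ A) ∧ ∀ i ∈ A, Ok (lifts X i)

/-- validity with all lifts `< K` -/
def GV (A : Finset ℕ) (K : ℕ) (X : Finset Val) : Prop := LV A X ∧ ∀ v ∈ X, lift v < K

/-- image (set of values) of a cell -/
def im (F : Finset Pt) : Finset Val := F.image Prod.snd

/-- partial monotone maps from the slots `< N` with valid image -/
def MC (G : Finset Val → Prop) (N : ℕ) (F : Finset Pt) : Prop :=
  (∀ p ∈ F, p.1 < N) ∧ (∀ p ∈ F, ∀ q ∈ F, p.1 < q.1 → p.2 ≤ q.2) ∧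
    (∀ p ∈ F, ∀ q ∈ F, p.1 = q.1 → p = q) ∧ G (im F)

/-- boundary on chains of cells, label set `A` -/
noncomputable def bdA (A : Finset ℕ) : Ch Pt →ₗ[ℚ] Ch Pt :=
  bd (Prod.fst : Pt → ℕ) (fun F => LV A (im F))

/-- boundary on chains of value sets (grid complex), label set `A` -/
noncomputable def bdG (A : Finset ℕ) : Ch Val →ₗ[ℚ] Ch Val :=
  bd (id : Val → Val) (LV A)

/-- the cells used for the label set `A`: slots `< 3|A|-1`, lifts `< 2|A|` -/
def TV (A : Finset ℕ) (F : Finset Pt) : Prop := MC (GV A (2 * A.card)) (3 * A.card - 1) F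

/-! ## Product -/

/-- shift of a point: slot `+ a`, lift `+ b` -/
def shp (a b : ℕ) (p : Pt) : Pt := (p.1 + a, mk (lift p.2 + b) (lab p.2))
/-- shift of a cell -/
def shF (a b : ℕ) (F : Finset Pt) : Finset Pt := F.image (shp a b)

/-- product of chains (bilinear): the second factor is shifted by `3 p` slots and `2 p` lifts -/
noncomputable def star (p : ℕ) : Ch Pt →ₗ[ℚ] Ch Pt →ₗ[ℚ] Ch Pt :=
  Finsupp.linearCombination ℚ
    (fun F => (Finsupp.lmapDomain ℚ ℚ (fun G => F ∪ shF (3 * p) (2 * p) G) :
      Ch Pt →ₗ[ℚ] Ch Pt))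

/-- number of inversions between `I` and `J` -/
def inv (I J : Finset ℕ) : ℕ := ((I ×ˢ J).filter (fun p => p.2 < p.1)).card

/-- proper nonempty subsets -/
def spl (A : Finset ℕ) : Finset (Finset ℕ) := A.powerset.filter (fun I => I ≠ ∅ ∧ I ≠ A)

/-- the prescribed boundary -/
noncomputable def rhs (c : Finset ℕ → Ch Pt) (A : Finset ℕ) : Ch Pt :=
  ∑ I ∈ spl A, ((-1 : ℚ) ^ (I.card + inv I (A \ I))) • star I.card (c I) (c (A \ I))

/-! ## Relabelling -/

/-- relabelling of a point -/
def rlp (f : ℕ → ℕ) (p : Pt) : Pt := (p.1, mk (lift p.2) (f (lab p.2)))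
/-- relabelling of a cell -/
def rlF (f : ℕ → ℕ) (F : Finset Pt) : Finset Pt := F.image (rlp f)
/-- relabelling of a chain -/
noncomputable def rlC (f : ℕ → ℕ) : Ch Pt →ₗ[ℚ] Ch Pt := Finsupp.lmapDomain ℚ ℚ (rlF f)
/-- increasing enumeration of `A` -/
noncomputable def en (A : Finset ℕ) : ℕ → ℕ := Nat.nth (fun i => i ∈ A)
/-- the family indexed by finite sets obtained from a sequence of chains -/
noncomputable def fam (cc : ℕ → Ch Pt) (A : Finset ℕ) : Ch Pt := rlC (en A) (cc A.card)

/-- the base cell: label `0` on the slots `0, 1` -/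
def base : Finset Pt := {(0, mk 0 0), (1, mk 1 0)}

/-! ## Functionals -/

/-- points of label `i` -/
def loc (F : Finset Pt) (i : ℕ) : Finset Pt := F.filter (fun p => lab p.2 = i)

/-- signed value of the edges of consecutive lifts (used for local cells with two points) -/
def Xl (c : ℕ → ℕ → ℚ) (S : Finset Pt) : ℚ :=
  ∑ p ∈ S, ∑ q ∈ S, if lift q.2 = lift p.2 + 1 then (-1) ^ (lift p.2) * c p.1 q.1 else 0

/-- the constant weight 1 -/
def one2 : ℕ → ℕ → ℚ := fun _ _ => 1

/-- the same for the constant weight 1 -/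
def El (S : Finset Pt) : ℚ := Xl one2 S

open Classical in
/-- local boundary of a functional (one label) -/
noncomputable def dl (φ : Finset Pt → ℚ) (S : Finset Pt) : ℚ :=
  ∑ p ∈ S, if Ok ((im (S.erase p)).image lift) then
    sg (Prod.fst : Pt → ℕ) S p * φ (S.erase p) else 0

/-- difference of the values (used for local cells with three points) -/
noncomputable def lam (c : ℕ → ℕ → ℚ) : Finset Pt → ℚ := dl (Xl c)

/-- shuffle sign -/
def shs (F : Finset Pt) : ℚ :=
  (-1) ^ (((F ×ˢ F).filter (fun pq => pq.1.1 < pq.2.1 ∧ lab pq.2.2 < lab pq.1.2)).card)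

/-- sign of the label position -/
def ep (A : Finset ℕ) (F : Finset Pt) (i : ℕ) : ℚ :=
  (-1) ^ (∑ j ∈ A.filter (· < i), (loc F j).card)

/-- `k` is the only label with two points, all others have three -/
def Sing (A : Finset ℕ) (F : Finset Pt) (k : ℕ) : Prop :=
  (loc F k).card = 2 ∧ ∀ i ∈ A, i ≠ k → (loc F i).card = 3

/-- `k`, `l` are the only labels with two points, all others have three -/
def Doub (A : Finset ℕ) (F : Finset Pt) (k l : ℕ) : Prop :=
  (loc F k).card = 2 ∧ (loc F l).card = 2 ∧ ∀ i ∈ A, i ≠ k → i ≠ l → (loc F i).card = 3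

open Classical in
/-- the functional `h` on cells: the single label is weighted by `u`, all others by `lam c` -/
noncomputable def HF (u c : ℕ → ℕ → ℚ) (A : Finset ℕ) (F : Finset Pt) : ℚ :=
  ∑ k ∈ A, if Sing A F k then
    ep A F k * shs F * Xl u (loc F k) * ∏ i ∈ A.erase k, lam c (loc F i) else 0

open Classical in
/-- the functional `ξ` on cells -/
noncomputable def XiF (c : ℕ → ℕ → ℚ) (A : Finset ℕ) (F : Finset Pt) : ℚ :=
  ∑ k ∈ A, ∑ l ∈ A, if k < l ∧ Doub A F k l then
    -(ep A F k * ep A F l * shs F *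
      (Xl c (loc F k) * El (loc F l) - El (loc F k) * Xl c (loc F l)) *
      ∏ i ∈ (A.erase k).erase l, lam c (loc F i)) else 0

/-- linear extension of a function on cells -/
noncomputable def ev (φ : Finset Pt → ℚ) : Ch Pt →ₗ[ℚ] ℚ := Finsupp.linearCombination ℚ φ

/-- augmentation on cells without rolling labels -/
def augF (A : Finset ℕ) (F : Finset Pt) : ℚ := shs F * ∏ i ∈ A, El (loc F i)

/-- shifted colouring -/
def csh (c : ℕ → ℕ → ℚ) (a : ℕ) : ℕ → ℕ → ℚ := fun i j => c (i + a) (j + a)

/-! ## Further definitions -/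

/-- chains of `P`-cells with `a` elements -/
def supc {α : Type} (P : Finset α → Prop) (a : ℕ) : Submodule ℚ (Ch α) :=
  sup (fun F => P F ∧ F.card = a)

/-- the base set of values: lifts `0`, `1` of every label of `A` -/
def X0 (A : Finset ℕ) : Finset Val := A.image (mk 0) ∪ A.image (mk 1)

open Classical in
/-- push of the label `i` from the lifts `M, M+1` down: insert the lift `M-1` -/
noncomputable def etF (i M : ℕ) (X : Finset Val) : Ch Val :=
  if lifts X i = {M, M + 1} then
    Finsupp.single (insert (mk (M - 1) i) X)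
      (sg (id : Val → Val) (insert (mk (M - 1) i) X) (mk (M - 1) i)) else 0
/-- push operator -/
noncomputable def et (i M : ℕ) : Ch Val →ₗ[ℚ] Ch Val := Finsupp.linearCombination ℚ (etF i M)

/-- the packed cell of a set of values: the value number `t` sits on the slot `t` -/
def pkF (X : Finset Val) : Finset Pt := X.image (fun v => ((X.filter (· < v)).card, v))
/-- packing -/
noncomputable def pk : Ch Val →ₗ[ℚ] Ch Pt := Finsupp.lmapDomain ℚ ℚ pkF

open Classical in
/-- the projection on cells: injective cells go to their image, the others to `0` -/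
noncomputable def prjF (F : Finset Pt) : Ch Val :=
  if (im F).card = F.card then Finsupp.single (im F) 1 else 0
/-- the projection to the grid complex -/
noncomputable def prj : Ch Pt →ₗ[ℚ] Ch Val := Finsupp.linearCombination ℚ prjF

/-- monotone partial map -/
def Mono (F : Finset Pt) : Prop :=
  (∀ p ∈ F, ∀ q ∈ F, p.1 < q.1 → p.2 ≤ q.2) ∧ (∀ p ∈ F, ∀ q ∈ F, p.1 = q.1 → p = q)

open Classical in
/-- the image preserving part of the boundary of a cell -/
noncomputable def bd0F (F : Finset Pt) : Ch Pt :=
  ∑ p ∈ F, if im (F.erase p) = im F then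
    Finsupp.single (F.erase p) (sg (Prod.fst : Pt → ℕ) F p) else 0
/-- the image preserving part of the boundary -/
noncomputable def bd0 : Ch Pt →ₗ[ℚ] Ch Pt := Finsupp.linearCombination ℚ bd0F

/-- the values on the slots `≥ j` -/
def tl (j : ℕ) (F : Finset Pt) : Finset Val := im (F.filter (fun p => j ≤ p.1))

open Classical in
/-- the homotopy at the slot `j`: if the slot `j` is free and some later slot is used, insert the
next value at the slot `j` -/
noncomputable def HjF (j : ℕ) (F : Finset Pt) : Ch Pt :=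
  if h : (∀ p ∈ F, p.1 ≠ j) ∧ (tl j F).Nonempty then
    Finsupp.single (insert (j, (tl j F).min' h.2) F) ((-1) ^ j) else 0
/-- the homotopy at the slot `j` -/
noncomputable def Hj (j : ℕ) : Ch Pt →ₗ[ℚ] Ch Pt := Finsupp.linearCombination ℚ (HjF j)

/-- the slots `< j` are packed -/
def Qj (j : ℕ) (F : Finset Pt) : Prop :=
  ∀ t < j, (∃ p ∈ F, t ≤ p.1) → ∃ p ∈ F, p.1 = t ∧ ∀ q ∈ F, q.2 = p.2 → q = p

/-- a local cell: monotone, one label, valid lifts -/
def LC (S : Finset Pt) : Prop :=
  Mono S ∧ (∃ i, ∀ p ∈ S, lab p.2 = i) ∧ Ok ((im S).image lift)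

end Pool.Agent.Helper40.NF
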