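import Mathlib
import Pool.Agent.Helper40.NF.Defs
import Pool.Agent.Helper89.NM.Last

/-!
# Statements of the modules (existence of the chain numbers, MP_42cd19_co)
-/

namespace Pool.Agent.Helper40.NF

open Finset
open Pool.Agent.Helper89.NM (HasM)

/-! ## T: topology -/

/-- `d ∘ d = 0` -/
def StBB : Prop :=
  ∀ (α β : Type) [DecidableEq α] [LinearOrder β] (key : α → β) (V : Finset α → Prop), Conv V →
    ∀ z : Ch α, z ∈ sup (fun F => V F ∧ Set.InjOn key (F : Set α)) →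
      bd key V (bd key V z) = 0

/-- the boundary lowers the degree by one and preserves hereditary cell classes -/
def StSup : Prop :=
  ∀ (α β : Type) [DecidableEq α] [LinearOrder β] (key : α → β) (V P : Finset α → Prop),
    (∀ F, P F → ∀ p ∈ F, V (F.erase p) → P (F.erase p)) →
    (∀ (a : ℕ) (z : Ch α), z ∈ supc P (a + 1) → bd key V z ∈ supc P a) ∧
    (∀ z : Ch α, z ∈ supc P 0 → bd key V z = 0)

/-- validity is convex, hereditary, local; a valid set has at least `2 |A|` elements -/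
def StConv : Prop :=
  (∀ A : Finset ℕ, Conv (LV A)) ∧
  (∀ A : Finset ℕ, Conv (fun F : Finset Pt => LV A (im F))) ∧
  (∀ (A : Finset ℕ) (K N : ℕ) (F : Finset Pt), MC (GV A K) N F → ∀ p ∈ F,
    LV A (im (F.erase p)) → MC (GV A K) N (F.erase p)) ∧
  (∀ (A : Finset ℕ) (K : ℕ) (X : Finset Val), GV A K X → ∀ v ∈ X,
    LV A (X.erase v) → GV A K (X.erase v)) ∧
  (∀ (A : Finset ℕ) (X : Finset Val), LV A X → 2 * A.card ≤ X.card)

/-- validity of a face only depends on the label of the removed point -/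
def StLoc : Prop :=
  ∀ (A : Finset ℕ) (F : Finset Pt), LV A (im F) → ∀ p ∈ F,
    (LV A (im (F.erase p)) ↔ Ok ((im ((loc F (lab p.2)).erase p)).image lift))

/-- the push identity: `1 - bdG et - et bdG` pushes the label `i` down -/
def StEta : Prop :=
  ∀ (A : Finset ℕ) (K i M : ℕ) (X : Finset Val), i ∈ A → 1 ≤ M → GV A K X →
    (∀ v ∈ X, lab v = i → lift v ≤ M + 1) →
    etF i M X ∈ sup (fun Y => GV A K Y ∧ Y.card = X.card + 1) ∧
    Finsupp.single X 1 - bdG A (etF i M X) - et i M (bdG A (Finsupp.single X 1)) ∈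
      sup (fun Y => GV A K Y ∧ Y.card = X.card ∧ (∀ v ∈ Y, lab v = i → lift v ≤ M) ∧
        ∀ j, j ≠ i → lifts Y j = lifts X j)

/-- the grid complex has only the class of `X0` -/
def StGrid : Prop :=
  ∀ (A : Finset ℕ) (K a : ℕ) (z : Ch Val), z ∈ supc (GV A K) a → bdG A z = 0 →
    ∃ y ∈ supc (GV A K) (a + 1), ∃ c : ℚ,
      z = bdG A y + c • Finsupp.single (X0 A) 1 ∧ (a ≠ 2 * A.card → c = 0)

/-- `prj` is a chain map, `pk` is a section -/
def StPi : Prop :=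
  (∀ (A : Finset ℕ) (K N : ℕ) (z : Ch Pt), z ∈ sup (MC (GV A K) N) →
    prj (bdA A z) = bdG A (prj z)) ∧
  (∀ (A : Finset ℕ) (K N a : ℕ) (z : Ch Pt), z ∈ supc (MC (GV A K) N) a →
    prj z ∈ supc (GV A K) a) ∧
  (∀ y : Ch Val, prj (pk y) = y) ∧
  (∀ (A : Finset ℕ) (K N a : ℕ) (y : Ch Val), a ≤ N → y ∈ supc (GV A K) a →
    pk y ∈ supc (MC (GV A K) N) a)

/-- support of the homotopy at the slot `j` -/
def StHs : Prop :=
  ∀ (j : ℕ) (F : Finset Pt), Mono F →
    HjF j F ∈ sup (fun G => Mono G ∧ im G = im F ∧ G.card = F.card + 1 ∧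
      (∀ p ∈ G, ∃ q ∈ F, p.1 ≤ q.1))

/-- the homotopy identity at the slot `j`: `1 - bd0 Hj - Hj bd0` packs the slot `j` -/
def StHj : Prop :=
  ∀ (j : ℕ) (F : Finset Pt), Mono F → Qj j F →
    Finsupp.single F 1 - bd0 (HjF j F) - Hj j (bd0F F) ∈
      sup (fun G => Mono G ∧ im G = im F ∧ G.card = F.card ∧ (∀ p ∈ G, ∃ q ∈ F, p.1 ≤ q.1) ∧
        Qj (j + 1) G)

/-- kernel lemma: the kernel of `prj` is acyclic -/
def StK : Prop :=
  ∀ (A : Finset ℕ) (K N a : ℕ) (z : Ch Pt), z ∈ supc (MC (GV A K) N) a → bdA A z = 0 →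
    prj z = 0 → ∃ y ∈ supc (MC (GV A K) N) (a + 1), bdA A y = z

/-- acyclicity in degrees `< N`, up to the augmentation -/
def StAcy : Prop :=
  ∀ (A : Finset ℕ) (K N a : ℕ) (z : Ch Pt), a + 1 ≤ N → z ∈ supc (MC (GV A K) N) a →
    bdA A z = 0 → (a = 2 * A.card → ev (augF A) z = 0) →
    ∃ y ∈ supc (MC (GV A K) N) (a + 1), bdA A y = z

/-! ## F: functionals -/

/-- sign lemma -/
def StSign : Prop :=
  ∀ (A : Finset ℕ) (F : Finset Pt), (∀ p ∈ F, lab p.2 ∈ A) →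
    Set.InjOn Prod.fst (F : Set Pt) → ∀ p ∈ F,
    sg (Prod.fst : Pt → ℕ) F p * shs (F.erase p) =
      shs F * ep A F (lab p.2) * sg (Prod.fst : Pt → ℕ) (loc F (lab p.2)) p

/-- facts on local cells -/
def StLocal : Prop :=
  (∀ S : Finset Pt, LC S → S.card = 3 → dl El S = 0) ∧
  (∀ (c : ℕ → ℕ → ℚ) (S : Finset Pt), LC S → S.card = 4 → dl (lam c) S = 0) ∧
  (∀ S : Finset Pt, LC S → 2 ≤ S.card) ∧
  (∀ (A : Finset ℕ) (K N : ℕ) (F : Finset Pt), MC (GV A K) N F → ∀ i ∈ A, LC (loc F i)) ∧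
  (∀ (A : Finset ℕ) (K N : ℕ) (F : Finset Pt), MC (GV A K) N F →
    F.card = ∑ i ∈ A, (loc F i).card)

/-- the augmentation vanishes on boundaries -/
def StAug : Prop :=
  ∀ (A : Finset ℕ) (K N : ℕ) (z : Ch Pt), z ∈ supc (MC (GV A K) N) (2 * A.card + 1) →
    ev (augF A) (bdA A z) = 0

/-- the functional identity -/
def StFun : Prop :=
  ∀ (c : ℕ → ℕ → ℚ) (A : Finset ℕ) (K N : ℕ) (F : Finset Pt), MC (GV A K) N F →
    F.card + 1 = 3 * A.card →
    ev (XiF c A) (bdA A (Finsupp.single F 1)) = ((A.card : ℚ) - 1) * HF one2 c A F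

/-- value of `XiF` on a product -/
def StProdH : Prop :=
  ∀ (c : ℕ → ℕ → ℚ) (I J : Finset ℕ) (F G : Finset Pt), Disjoint I J → I.Nonempty → J.Nonempty →
    TV I F → F.card + 1 = 3 * I.card → TV J G → G.card + 1 = 3 * J.card →
    XiF c (I ∪ J) (F ∪ shF (3 * I.card) (2 * I.card) G) =
      (-1) ^ (I.card + inv I J) *
        (HF c c I F * HF one2 (csh c (3 * I.card)) J G -
         HF one2 c I F * HF (csh c (3 * I.card)) (csh c (3 * I.card)) J G)

/-- `HF` is invariant under increasing relabellings -/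
def StRelH : Prop :=
  ∀ (u c : ℕ → ℕ → ℚ) (f : ℕ → ℕ) (B : Finset ℕ) (F : Finset Pt),
    StrictMonoOn f (B : Set ℕ) → (∀ p ∈ F, lab p.2 ∈ B) →
    HF u c (B.image f) (rlF f F) = HF u c B F

/-- a nonzero value gives a monochromatic non-nested matching -/
def StSupp : Prop :=
  ∀ (c : ℕ → ℕ → ℚ), (∀ i j, c i j = 0 ∨ c i j = 1) → ∀ (m a : ℕ) (F : Finset Pt), 1 ≤ m →
    TV (range m) F →
    (HF (csh c a) (csh c a) (range m) F ≠ 0 → HasM c 1 a m) ∧
    (HF (fun i j => 1 - csh c a i j) (csh c a) (range m) F ≠ 0 → HasM c 0 a m)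

/-! ## P: products and relabelling -/

/-- products of cells are cells; associativity -/
def StStar : Prop :=
  (∀ (I J : Finset ℕ) (a b : ℕ) (z w : Ch Pt), Disjoint I J → I.Nonempty → J.Nonempty →
    z ∈ supc (TV I) a → w ∈ supc (TV J) b → star I.card z w ∈ supc (TV (I ∪ J)) (a + b)) ∧
  (∀ (p q : ℕ) (z w u : Ch Pt), star p z (star q w u) = star (p + q) (star p z w) u)

/-- Leibniz rule -/
def StLeib : Prop :=
  ∀ (I J : Finset ℕ) (a : ℕ) (z w : Ch Pt), Disjoint I J → I.Nonempty → J.Nonempty →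
    z ∈ supc (TV I) a → w ∈ sup (TV J) →
    bdA (I ∪ J) (star I.card z w) =
      star I.card (bdA I z) w + (-1 : ℚ) ^ a • star I.card z (bdA J w)

/-- the prescribed boundary is a cycle -/
def StCyc : Prop :=
  ∀ (c : Finset ℕ → Ch Pt) (A : Finset ℕ),
    (∀ I ∈ spl A, c I ∈ supc (TV I) (3 * I.card - 1) ∧ bdA I (c I) = rhs c I) →
    rhs c A ∈ supc (TV A) (3 * A.card - 2) ∧ bdA A (rhs c A) = 0

/-- relabelling -/
def StRel : Prop :=
  (∀ (f : ℕ → ℕ) (B : Finset ℕ), StrictMonoOn f (B : Set ℕ) →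
    (∀ z ∈ sup (TV B), rlC f (bdA B z) = bdA (B.image f) (rlC f z)) ∧
    (∀ (a : ℕ), ∀ z ∈ supc (TV B) a, rlC f z ∈ supc (TV (B.image f)) a)) ∧
  (∀ (f : ℕ → ℕ) (p : ℕ) (z w : Ch Pt), rlC f (star p z w) = star p (rlC f z) (rlC f w))

/-- enumerations -/
def StEn : Prop :=
  (∀ A : Finset ℕ, StrictMonoOn (en A) (range A.card : Set ℕ) ∧
    (range A.card).image (en A) = A) ∧
  (∀ A I : Finset ℕ, I ⊆ range A.card → ∀ k < I.card,
    en A (en I k) = en (I.image (en A)) k) ∧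
  (∀ m k : ℕ, k < m → en (range m) k = k) ∧
  (∀ (f : ℕ → ℕ) (I J : Finset ℕ), StrictMonoOn f ((I ∪ J : Finset ℕ) : Set ℕ) →
    inv (I.image f) (J.image f) = inv I J)

/-- the family generated by a sequence satisfies the boundary relation for all label sets -/
def StFamEq : Prop :=
  ∀ (cc : ℕ → Ch Pt) (m : ℕ), 1 ≤ m →
    (∀ k, 1 ≤ k → k ≤ m → cc k ∈ supc (TV (range k)) (3 * k - 1)) →
    bdA (range m) (cc m) = rhs (fam cc) (range m) →
    ∀ A : Finset ℕ, A.card = m →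
      fam cc A ∈ supc (TV A) (3 * m - 1) ∧ bdA A (fam cc A) = rhs (fam cc) A

/-- two labels: augmentation of the prescribed boundary -/
def StAug2 : Prop :=
  ∀ c : Finset ℕ → Ch Pt,
    (∀ k : ℕ, c {k} = Finsupp.single ({(0, mk 0 k), (1, mk 1 k)} : Finset Pt) 1) →
    ev (augF (range 2)) (rhs c (range 2)) = 0

/-- the chains exist -/
def StFam : Prop :=
  ∃ cc : ℕ → Ch Pt, cc 1 = Finsupp.single base 1 ∧
    ∀ m, 1 ≤ m → cc m ∈ supc (TV (range m)) (3 * m - 1) ∧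
      bdA (range m) (cc m) = rhs (fam cc) (range m)

end Pool.Agent.Helper40.NF
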