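import Mathlib
import Pool.Agent.Helper40.NF.St

/-! Module Acy: acyclicity in degrees `< N`, up to the augmentation. -/

namespace Pool.Agent.Helper40.NF

open Finset

theorem Acy_filter (A : Finset ℕ) {i : ℕ} (hi : i ∈ A) :
    (X0 A).filter (fun v => lab v = i) = {mk 0 i, mk 1 i} := by
  ext v
  simp only [X0, mem_filter, mem_union, mem_image, mem_insert, mem_singleton]
  constructor
  · rintro ⟨⟨j, hj, rfl⟩ | ⟨j, hj, rfl⟩, h⟩
    · left
      have : j = i := h
      rw [this]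
    · right
      have : j = i := h
      rw [this]
  · rintro (rfl | rfl)
    · exact ⟨Or.inl ⟨i, hi, rfl⟩, rfl⟩
    · exact ⟨Or.inr ⟨i, hi, rfl⟩, rfl⟩

theorem Acy_loc (A : Finset ℕ) {i : ℕ} (hi : i ∈ A) : ∃ r0 r1 : ℕ,
    loc (pkF (X0 A)) i = {(r0, mk 0 i), (r1, mk 1 i)} := by
  refine ⟨((X0 A).filter (· < mk 0 i)).card, ((X0 A).filter (· < mk 1 i)).card, ?_⟩
  unfold loc pkF
  rw [Finset.filter_image]
  have h := Acy_filter A hi
  rw [show (X0 A).filter (fun a => lab (((X0 A).filter (· < a)).card, a).2 = i) =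
    {mk 0 i, mk 1 i} from h, image_insert, image_singleton]

theorem Acy_El (A : Finset ℕ) {i : ℕ} (hi : i ∈ A) : El (loc (pkF (X0 A)) i) = 1 := by
  obtain ⟨r0, r1, h⟩ := Acy_loc A hi
  rw [h]
  have hne : ((r0, mk 0 i) : Pt) ≠ (r1, mk 1 i) := by
    intro h
    have h2 : lift ((r0, mk 0 i) : Pt).2 = lift ((r1, mk 1 i) : Pt).2 := by rw [h]
    have h3 : (0 : ℕ) = 1 := h2
    exact absurd h3 (by norm_num)
  unfold El Xl
  rw [sum_pair hne, sum_pair hne, sum_pair hne]
  simp [lift, mk, one2]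

theorem Acy_aug (A : Finset ℕ) : augF A (pkF (X0 A)) ≠ 0 := by
  unfold augF
  refine mul_ne_zero ?_ ?_
  · unfold shs
    exact pow_ne_zero _ (by norm_num)
  · rw [prod_congr rfl fun i hi => Acy_El A hi, prod_const_one]
    exact one_ne_zero

theorem mod_Acy (hG : StGrid) (hPi : StPi) (hK : StK) (hAug : StAug) (hBB : StBB) (hS : StSup)
    (hC : StConv) : StAcy := by
  intro A K N a z haN hz hcyc haug
  obtain ⟨hP1, hP2, hP3, hP4⟩ := hPi
  obtain ⟨hC1, hC2, hC3, hC4, hC5⟩ := hC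
  have hle : ∀ b, supc (MC (GV A K) N) b ≤ sup (MC (GV A K) N) := by
    intro b
    exact Finsupp.supported_mono fun F hF => hF.1
  have hBBc : ∀ b, ∀ y ∈ supc (MC (GV A K) N) b, bdA A (bdA A y) = 0 := by
    intro b y hy
    refine hBB Pt ℕ Prod.fst (fun F => LV A (im F)) (hC2 A) y ?_
    refine Finsupp.supported_mono (fun F hF => ?_) hy
    refine ⟨hF.1.2.2.2.1, ?_⟩
    intro p hp q hq hpq
    exact hF.1.2.2.1 p hp q hq hpq
  have hbd : ∀ b, ∀ y ∈ supc (MC (GV A K) N) (b + 1), bdA A y ∈ supc (MC (GV A K) N) b := by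
    intro b y hy
    exact (hS Pt ℕ Prod.fst (fun F => LV A (im F)) (MC (GV A K) N) (hC3 A K N)).1 b y hy
  have hbd0 : ∀ y ∈ supc (MC (GV A K) N) 0, bdA A y = 0 := by
    intro y hy
    exact (hS Pt ℕ Prod.fst (fun F => LV A (im F)) (MC (GV A K) N) (hC3 A K N)).2 y hy
  have hprj : bdG A (prj z) = 0 := by
    rw [← hP1 A K N z (hle a hz), hcyc, map_zero]
  obtain ⟨y0, hy0, c, hc, hca⟩ := hG A K a (prj z) (hP2 A K N a z hz) hprj
  have hy1 : pk y0 ∈ supc (MC (GV A K) N) (a + 1) := hP4 A K N (a + 1) y0 haN hy0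
  have hprj1 : prj (bdA A (pk y0)) = bdG A y0 := by
    rw [hP1 A K N _ (hle _ hy1), hP3]
  by_cases hc0 : c = 0
  · have h1 : prj (z - bdA A (pk y0)) = 0 := by
      rw [map_sub, hprj1, hc, hc0]
      simp
    obtain ⟨y2, hy2, h2⟩ := hK A K N a (z - bdA A (pk y0))
      (Submodule.sub_mem _ hz (hbd a _ hy1)) (by rw [map_sub, hcyc, hBBc _ _ hy1, sub_zero]) h1
    refine ⟨pk y0 + y2, Submodule.add_mem _ hy1 hy2, ?_⟩
    rw [map_add, h2]
    abel
  · exfalso
    have ha : a = 2 * A.card := by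
      by_contra h
      exact hc0 (hca h)
    have hbG : bdG A y0 ∈ supc (GV A K) a :=
      (hS Val Val id (LV A) (GV A K) (hC4 A K)).1 a y0 hy0
    have hX : c • Finsupp.single (X0 A) (1 : ℚ) ∈ supc (GV A K) a := by
      have h1 : c • Finsupp.single (X0 A) (1 : ℚ) = prj z - bdG A y0 := by
        rw [hc]
        abel
      rw [h1]
      exact Submodule.sub_mem _ (hP2 A K N a z hz) hbG
    have hw : pk (c • Finsupp.single (X0 A) (1 : ℚ)) ∈ supc (MC (GV A K) N) a :=
      hP4 A K N a _ (by omega) hX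
    have hwb : bdA A (pk (c • Finsupp.single (X0 A) (1 : ℚ))) = 0 := by
      rcases Nat.eq_zero_or_pos a with h0 | h0
      · rw [h0] at hw
        exact hbd0 _ hw
      · obtain ⟨b, rfl⟩ : ∃ b, a = b + 1 := ⟨a - 1, by omega⟩
        have h1 := hbd b _ hw
        by_contra h2
        obtain ⟨F, hF⟩ := Finsupp.support_nonempty_iff.2 h2
        have h3 := (Finsupp.mem_supported _ _).1 h1 hF
        have h4 : 2 * A.card ≤ (im F).card := hC5 A (im F) h3.1.2.2.2.1
        have h5 : (im F).card ≤ F.card := card_image_le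
        have h6 : F.card = b := h3.2
        omega
    have h1 : prj (z - bdA A (pk y0) - pk (c • Finsupp.single (X0 A) (1 : ℚ))) = 0 := by
      rw [map_sub, map_sub, hprj1, hP3, hc]
      abel
    obtain ⟨y2, hy2, h2⟩ := hK A K N a
      (z - bdA A (pk y0) - pk (c • Finsupp.single (X0 A) (1 : ℚ)))
      (Submodule.sub_mem _ (Submodule.sub_mem _ hz (hbd a _ hy1)) hw)
      (by rw [map_sub, map_sub, hcyc, hBBc _ _ hy1, hwb, sub_zero, sub_zero]) h1
    have h3 : z = bdA A (pk y0) + pk (c • Finsupp.single (X0 A) (1 : ℚ)) + bdA A y2 := by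
      rw [h2]
      abel
    have h4 : ev (augF A) z = 0 := haug ha
    rw [ha] at hy1 hy2
    rw [h3, map_add, map_add, hAug A K N _ hy1, hAug A K N _ hy2, zero_add, add_zero] at h4
    have h5 : pk (c • Finsupp.single (X0 A) (1 : ℚ)) = Finsupp.single (pkF (X0 A)) c := by
      rw [pk, Finsupp.smul_single, smul_eq_mul, mul_one, Finsupp.lmapDomain_apply,
        Finsupp.mapDomain_single]
    rw [h5, ev, Finsupp.linearCombination_single, smul_eq_mul] at h4
    rcases mul_eq_zero.1 h4 with h6 | h6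
    · exact hc0 h6
    · exact Acy_aug A h6

end Pool.Agent.Helper40.NF
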