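import Mathlib
import Pool.Agent.Helper40.NF.St

/-!
# Module Aug: the augmentation vanishes on boundaries
-/

namespace Pool.Agent.Helper40.NF

open Finset

theorem Aug_ok_card {T : Finset ℕ} (h : Ok T) : 2 ≤ T.card := by
  obtain ⟨m, rfl | rfl⟩ := h
  · rw [card_insert_of_notMem (by simp), card_singleton]
  · rw [card_insert_of_notMem (by simp), card_insert_of_notMem (by simp), card_singleton]
    norm_num

theorem Aug_loc_erase_ne (F : Finset Pt) (p : Pt) (j : ℕ) (h : j ≠ lab p.2) :
    loc (F.erase p) j = loc F j := by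
  unfold loc
  ext q
  simp only [mem_filter, mem_erase]
  constructor
  · rintro ⟨⟨_, h1⟩, h2⟩
    exact ⟨h1, h2⟩
  · rintro ⟨h1, h2⟩
    exact ⟨⟨fun e => by subst e; exact h h2.symm, h1⟩, h2⟩

theorem Aug_loc_erase_eq (F : Finset Pt) (p : Pt) :
    loc (F.erase p) (lab p.2) = (loc F (lab p.2)).erase p := by
  unfold loc
  ext q
  simp only [mem_filter, mem_erase]
  tauto

theorem Aug_exists {A : Finset ℕ} {f : ℕ → ℕ} (h2 : ∀ i ∈ A, 2 ≤ f i)
    (hs : ∑ i ∈ A, f i = 2 * A.card + 1) : ∃ i ∈ A, f i = 3 ∧ ∀ j ∈ A, j ≠ i → f j = 2 := by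
  have h3 : ∃ i ∈ A, 2 < f i := by
    by_contra hcon
    push Not at hcon
    have h4 : ∑ i ∈ A, f i = ∑ _i ∈ A, 2 := sum_congr rfl fun i hi =>
      le_antisymm (hcon i hi) (h2 i hi)
    rw [h4, sum_const, smul_eq_mul] at hs
    omega
  obtain ⟨i, hi, h4⟩ := h3
  have h5 : f i + ∑ j ∈ A.erase i, f j = 2 * A.card + 1 := by
    rw [add_sum_erase A f hi, hs]
  have h6 : ∑ _j ∈ A.erase i, 2 ≤ ∑ j ∈ A.erase i, f j :=
    sum_le_sum fun j hj => h2 j (mem_of_mem_erase hj)
  have h7 : (A.erase i).card + 1 = A.card := card_erase_add_one hi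
  rw [sum_const, smul_eq_mul] at h6
  refine ⟨i, hi, by omega, fun j hj hji => ?_⟩
  have h8 : j ∈ A.erase i := mem_erase.2 ⟨hji, hj⟩
  have h9 : f j + ∑ k ∈ (A.erase i).erase j, f k = ∑ j ∈ A.erase i, f j :=
    add_sum_erase _ f h8
  have h10 : ∑ _k ∈ (A.erase i).erase j, 2 ≤ ∑ k ∈ (A.erase i).erase j, f k :=
    sum_le_sum fun k hk => h2 k (mem_of_mem_erase (mem_of_mem_erase hk))
  have h11 : ((A.erase i).erase j).card + 1 = (A.erase i).card := card_erase_add_one h8
  rw [sum_const, smul_eq_mul] at h10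
  have h12 := h2 j hj
  omega

theorem Aug_ev_bdF (φ : Finset Pt → ℚ) (V : Finset Pt → Prop) (F : Finset Pt) :
    ev φ (bdF (Prod.fst : Pt → ℕ) V F) = open Classical in
      ∑ p ∈ F, if V (F.erase p) then sg (Prod.fst : Pt → ℕ) F p * φ (F.erase p) else 0 := by
  classical
  unfold bdF
  rw [map_sum]
  refine sum_congr rfl fun p _ => ?_
  split_ifs with h
  · rw [ev, Finsupp.linearCombination_single, smul_eq_mul]
  · rw [map_zero]

theorem Aug_lin (φ : Finset Pt → ℚ) (V P : Finset Pt → Prop)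
    (h : ∀ F, P F → ev φ (bdF (Prod.fst : Pt → ℕ) V F) = 0) {z : Ch Pt} (hz : z ∈ sup P) :
    ev φ (bd (Prod.fst : Pt → ℕ) V z) = 0 := by
  unfold bd
  rw [Finsupp.linearCombination_apply, Finsupp.sum, map_sum]
  refine sum_eq_zero fun F hF => ?_
  rw [map_smul, h F ((Finsupp.mem_supported ℚ z).1 hz hF), smul_zero]

theorem Aug_cell (hSign : StSign) (hLoc : StLoc) (hL : StLocal) (A : Finset ℕ) (K N : ℕ)
    (F : Finset Pt) (hF : MC (GV A K) N F) (hc : F.card = 2 * A.card + 1) :
    ev (augF A) (bdF (Prod.fst : Pt → ℕ) (fun F => LV A (im F)) F) = 0 := by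
  classical
  obtain ⟨h1, -, h3, h4, h5⟩ := hL
  have hLV : LV A (im F) := hF.2.2.2.1
  have hlab : ∀ p ∈ F, lab p.2 ∈ A := fun p hp => hLV.1 _ (mem_image_of_mem _ hp)
  have hinj : Set.InjOn Prod.fst (F : Set Pt) := fun p hp q hq h => hF.2.2.1 p hp q hq h
  obtain ⟨i, hi, hi3, hi2⟩ := Aug_exists (A := A) (f := fun i => (loc F i).card)
    (fun i hi => h3 _ (h4 A K N F hF i hi)) (by rw [← h5 A K N F hF, hc])
  rw [Aug_ev_bdF]
  have step : ∀ p ∈ F, (if LV A (im (F.erase p)) then
      sg (Prod.fst : Pt → ℕ) F p * augF A (F.erase p) else 0) =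
      if lab p.2 = i then (shs F * ep A F i * ∏ j ∈ A.erase i, El (loc F j)) *
        (if Ok ((im ((loc F i).erase p)).image lift) then
          sg (Prod.fst : Pt → ℕ) (loc F i) p * El ((loc F i).erase p) else 0) else 0 := by
    intro p hp
    have hV := hLoc A F hLV p hp
    by_cases hpi : lab p.2 = i
    · rw [if_pos hpi]
      rw [hpi] at hV
      by_cases hok : Ok ((im ((loc F i).erase p)).image lift)
      · rw [if_pos hok, if_pos (hV.2 hok), augF, ← mul_prod_erase A _ hi]
        have e1 : loc (F.erase p) i = (loc F i).erase p := by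
          rw [← hpi]
          exact Aug_loc_erase_eq F p
        have e2 : ∏ j ∈ A.erase i, El (loc (F.erase p) j) = ∏ j ∈ A.erase i, El (loc F j) := by
          refine prod_congr rfl fun j hj => ?_
          rw [Aug_loc_erase_ne F p j (by rw [hpi]; exact ne_of_mem_erase hj)]
        have e3 := hSign A F hlab hinj p hp
        rw [hpi] at e3
        rw [e1, e2]
        calc sg (Prod.fst : Pt → ℕ) F p * (shs (F.erase p) *
              (El ((loc F i).erase p) * ∏ j ∈ A.erase i, El (loc F j)))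
            = (sg (Prod.fst : Pt → ℕ) F p * shs (F.erase p)) *
              (El ((loc F i).erase p) * ∏ j ∈ A.erase i, El (loc F j)) := by ring
          _ = _ := by rw [e3]; ring
      · rw [if_neg hok, if_neg (fun h => hok (hV.1 h)), mul_zero]
    · rw [if_neg hpi, if_neg]
      intro h
      have h6 := Aug_ok_card (hV.1 h)
      have h7 := hi2 _ (hlab p hp) hpi
      have h8 : ((loc F (lab p.2)).erase p).card + 1 = (loc F (lab p.2)).card :=
        card_erase_add_one (mem_filter.2 ⟨hp, rfl⟩)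
      have h9 : ((im ((loc F (lab p.2)).erase p)).image lift).card ≤
          ((loc F (lab p.2)).erase p).card := card_image_le.trans card_image_le
      omega
  rw [sum_congr rfl step, ← sum_filter, ← mul_sum]
  have h6 := h1 (loc F i) (h4 A K N F hF i hi) hi3
  unfold dl at h6
  have h7 : F.filter (fun p => lab p.2 = i) = loc F i := rfl
  rw [h7, h6, mul_zero]

theorem mod_Aug (hSign : StSign) (hLoc : StLoc) (hL : StLocal) : StAug := by
  intro A K N z hz
  exact Aug_lin (augF A) (fun F => LV A (im F)) _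
    (fun F hF => Aug_cell hSign hLoc hL A K N F hF.1 hF.2) hz

end Pool.Agent.Helper40.NF
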