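import Mathlib
import Pool.Agent.Helper40.NF.St

/-!
# Module Aug2
-/

namespace Pool.Agent.Helper40.NF

open Finset

theorem Aug2_spl : spl (range 2) = {{0}, {1}} := by decide

theorem Aug2_inv0 : inv {0} (range 2 \ {0}) = 0 := by decide
theorem Aug2_inv1 : inv {1} (range 2 \ {1}) = 1 := by decide
theorem Aug2_c0 : range 2 \ ({0} : Finset ℕ) = {1} := by decide
theorem Aug2_c1 : range 2 \ ({1} : Finset ℕ) = {0} := by decide

/-- the two cells -/
def Aug2_H (i j : ℕ) : Finset Pt :=
  {(0, mk 0 i), (1, mk 1 i), (3, mk 2 j), (4, mk 3 j)}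

theorem Aug2_star (i j : ℕ) :
    star 1 (Finsupp.single ({(0, mk 0 i), (1, mk 1 i)} : Finset Pt) 1)
      (Finsupp.single ({(0, mk 0 j), (1, mk 1 j)} : Finset Pt) 1) =
      Finsupp.single (Aug2_H i j) 1 := by
  rw [star, Finsupp.linearCombination_single, one_smul, Finsupp.lmapDomain_apply,
    Finsupp.mapDomain_single]
  congr 1

set_option maxRecDepth 10000 in
theorem Aug2_a0 : augF (range 2) (Aug2_H 0 1) = 1 := by decide +kernel

set_option maxRecDepth 10000 in
theorem Aug2_a1 : augF (range 2) (Aug2_H 1 0) = 1 := by decide +kernel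

theorem mod_Aug2 : StAug2 := by
  intro c hc
  rw [rhs, Aug2_spl, sum_pair (by decide), Aug2_inv0, Aug2_inv1, Aug2_c0, Aug2_c1, hc 0, hc 1,
    card_singleton, card_singleton, Aug2_star, Aug2_star, map_add, map_smul, map_smul, ev,
    Finsupp.linearCombination_single, Finsupp.linearCombination_single, Aug2_a0, Aug2_a1]
  norm_num

end Pool.Agent.Helper40.NF
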