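import Mathlib
import Pool.Agent.Helper40.NF.St

/-!
# Module BB: `d ∘ d = 0`
-/

namespace Pool.Agent.Helper40.NF

open Finset

theorem BB_sg_eq {α β : Type} [DecidableEq α] [LinearOrder β] (key : α → β) (X : Finset α)
    (x y : α) (h : key x < key y) : sg key (X.erase y) x = sg key X x := by
  unfold sg
  congr 2
  ext z
  simp only [mem_filter, mem_erase]
  constructor
  · rintro ⟨⟨_, h2⟩, h3⟩
    exact ⟨h2, h3⟩
  · rintro ⟨h2, h3⟩
    exact ⟨⟨fun e => by subst e; exact absurd (h3.trans h) (lt_irrefl _), h2⟩, h3⟩

theorem BB_sg_neg {α β : Type} [DecidableEq α] [LinearOrder β] (key : α → β) (X : Finset α)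
    (x y : α) (hx : x ∈ X) (h : key x < key y) : sg key (X.erase x) y = -sg key X y := by
  unfold sg
  have e : (X.filter (fun z => key z < key y)).card =
      ((X.erase x).filter (fun z => key z < key y)).card + 1 := by
    have e1 : (X.erase x).filter (fun z => key z < key y) =
        (X.filter (fun z => key z < key y)).erase x := by
      ext z
      simp only [mem_filter, mem_erase]
      tauto
    rw [e1]
    exact (card_erase_add_one (mem_filter.2 ⟨hx, h⟩)).symm
  rw [e, pow_succ]
  ring

theorem BB_sign {α β : Type} [DecidableEq α] [LinearOrder β] (key : α → β) (X : Finset α)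
    (hk : Set.InjOn key (X : Set α)) (x y : α) (hx : x ∈ X) (hy : y ∈ X) (hxy : x ≠ y) :
    sg key X x * sg key (X.erase x) y = -(sg key X y * sg key (X.erase y) x) := by
  rcases lt_trichotomy (key x) (key y) with h | h | h
  · rw [BB_sg_neg key X x y hx h, BB_sg_eq key X x y h]
    ring
  · exact absurd (hk hx hy h) hxy
  · rw [BB_sg_eq key X y x h, BB_sg_neg key X y x hy h]
    ring

open Classical in
theorem BB_cell {α β : Type} [DecidableEq α] [LinearOrder β] (key : α → β) (V : Finset α → Prop)
    (hV : Conv V) (X : Finset α) (hX : V X) (hk : Set.InjOn key (X : Set α)) :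
    bd key V (bdF key V X) = 0 := by
  set f : α → α → Ch α := fun x y =>
    if y ≠ x ∧ V ((X.erase x).erase y) then
      Finsupp.single ((X.erase x).erase y) (sg key X x * sg key (X.erase x) y) else 0 with hf
  have h1 : bd key V (bdF key V X) = ∑ x ∈ X, ∑ y ∈ X, f x y := by
    rw [bdF, map_sum]
    refine sum_congr rfl fun x hx => ?_
    have h2 : ∑ y ∈ X, f x y = ∑ y ∈ X.erase x, f x y := by
      rw [← Finset.add_sum_erase X (f x) hx]
      have : f x x = 0 := by
        simp [hf]
      rw [this, zero_add]
    rw [h2]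
    by_cases hv : V (X.erase x)
    · rw [if_pos hv, bd, Finsupp.linearCombination_single, bdF, smul_sum]
      refine sum_congr rfl fun y hy => ?_
      have hyx : y ≠ x := ne_of_mem_erase hy
      simp only [hf]
      by_cases hw : V ((X.erase x).erase y)
      · rw [if_pos hw, if_pos ⟨hyx, hw⟩, Finsupp.smul_single, smul_eq_mul]
      · rw [if_neg hw, if_neg (fun h => hw h.2), smul_zero]
    · rw [if_neg hv, map_zero]
      symm
      refine sum_eq_zero fun y hy => ?_
      simp only [hf]
      rw [if_neg]
      rintro ⟨_, h3⟩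
      exact hv (hV X _ _ (erase_subset _ _) (erase_subset _ _) h3 hX)
  have h2 : ∀ x ∈ X, ∀ y ∈ X, f x y = -f y x := by
    intro x hx y hy
    simp only [hf]
    by_cases hxy : y = x
    · subst hxy
      simp
    · have e : (X.erase x).erase y = (X.erase y).erase x := erase_right_comm
      by_cases hw : V ((X.erase x).erase y)
      · rw [if_pos ⟨hxy, hw⟩, if_pos ⟨fun h => hxy h.symm, e ▸ hw⟩,
          BB_sign key X hk x y hx hy (fun h => hxy h.symm), e, Finsupp.single_neg]
      · rw [if_neg (fun h => hw h.2), if_neg (fun h => hw (e ▸ h.2)), neg_zero]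
  have h3 : ∑ x ∈ X, ∑ y ∈ X, f x y = -∑ x ∈ X, ∑ y ∈ X, f x y := by
    conv_lhs => rw [sum_comm]
    rw [← sum_neg_distrib]
    refine sum_congr rfl fun y hy => ?_
    rw [← sum_neg_distrib]
    exact sum_congr rfl fun x hx => h2 x hx y hy
  rw [h1]
  exact self_eq_neg.1 h3

theorem mod_BB : StBB := by
  intro α β _ _ key V hV z hz
  have hz' := (Finsupp.mem_supported ℚ z).1 hz
  conv_lhs => rw [bd]
  rw [Finsupp.linearCombination_apply, Finsupp.sum]
  have : (Finsupp.linearCombination ℚ (bdF key V)) (∑ X ∈ z.support, z X • bdF key V X) = 0 := by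
    rw [map_sum]
    refine sum_eq_zero fun X hX => ?_
    have h1 := hz' hX
    have h2 := BB_cell key V hV X h1.1 h1.2
    rw [bd] at h2
    rw [map_smul, h2, smul_zero]
  exact this

end Pool.Agent.Helper40.NF
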