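import Mathlib
import Pool.Agent.Helper40.NF.St

/-!
# Module Conv
-/

namespace Pool.Agent.Helper40.NF

open Finset

theorem Conv_ok_card {T : Finset ℕ} (h : Ok T) : 2 ≤ T.card ∧ T.card ≤ 3 := by
  obtain ⟨m, rfl | rfl⟩ := h
  · rw [card_pair (by omega)]
    omega
  · rw [card_insert_of_notMem (by simp), card_pair (by omega)]
    omega

theorem Conv_ok {S T U : Finset ℕ} (h1 : S ⊆ T) (h2 : T ⊆ U) (hS : Ok S) (hU : Ok U) : Ok T := by
  have h3 := Conv_ok_card hS
  have h4 := Conv_ok_card hU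
  have h5 := card_le_card h1
  have h6 := card_le_card h2
  by_cases h : T.card ≤ S.card
  · rw [← eq_of_subset_of_card_le h1 h]
    exact hS
  · rw [eq_of_subset_of_card_le h2 (by omega)]
    exact hU

theorem Conv_lifts_mono {X Y : Finset Val} (h : X ⊆ Y) (i : ℕ) : lifts X i ⊆ lifts Y i :=
  image_subset_image (filter_subset_filter _ h)

theorem Conv_im_mono {F G : Finset Pt} (h : F ⊆ G) : im F ⊆ im G := image_subset_image h

theorem Conv_LV {A : Finset ℕ} {X Y Z : Finset Val} (h1 : Y ⊆ Z) (h2 : Z ⊆ X) (hY : LV A Y)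
    (hX : LV A X) : LV A Z :=
  ⟨fun v hv => hX.1 v (h2 hv), fun i hi => Conv_ok (Conv_lifts_mono h1 i) (Conv_lifts_mono h2 i)
    (hY.2 i hi) (hX.2 i hi)⟩

theorem Conv_card {A : Finset ℕ} {X : Finset Val} (h : LV A X) : 2 * A.card ≤ X.card := by
  rw [card_eq_sum_card_fiberwise (f := lab) (t := A) h.1, mul_comm, ← smul_eq_mul, ← sum_const]
  refine sum_le_sum fun i hi => ?_
  exact (Conv_ok_card (h.2 i hi)).1.trans card_image_le

theorem mod_Conv : StConv := by
  refine ⟨fun A X Y Z h1 h2 hY hX => Conv_LV h1 h2 hY hX, fun A X Y Z h1 h2 hY hX =>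
    Conv_LV (Conv_im_mono h1) (Conv_im_mono h2) hY hX, ?_, ?_, fun A X h => Conv_card h⟩
  · intro A K N F h p hp hv
    have hs : F.erase p ⊆ F := erase_subset _ _
    exact ⟨fun q hq => h.1 q (hs hq), fun q hq r hr => h.2.1 q (hs hq) r (hs hr),
      fun q hq r hr => h.2.2.1 q (hs hq) r (hs hr), hv,
      fun v hv => h.2.2.2.2 v (Conv_im_mono hs hv)⟩
  · intro A K X h v hv hL
    exact ⟨hL, fun u hu => h.2 u (erase_subset _ _ hu)⟩

end Pool.Agent.Helper40.NF
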