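import Mathlib
import Pool.Agent.Helper40.NF.St

/-!
# FN MODULE Cyc (MP_42cd19_co): the prescribed boundary is a cycle
-/

namespace Pool.Agent.Helper40.NF

open Finset

/-- the sign `e(I,J)` -/
noncomputable def Cyc_e (I J : Finset ℕ) : ℚ := (-1 : ℚ) ^ (I.card + inv I J)

theorem Cyc_spl {A I : Finset ℕ} : I ∈ spl A ↔ I ⊆ A ∧ I ≠ ∅ ∧ I ≠ A := by
  simp [spl, Finset.mem_filter, Finset.mem_powerset]

theorem Cyc_compl {A I : Finset ℕ} (h : I ∈ spl A) : A \ I ∈ spl A := by
  rw [Cyc_spl] at h ⊢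
  obtain ⟨h1, h2, h3⟩ := h
  refine ⟨Finset.sdiff_subset, ?_, ?_⟩
  · intro h
    rw [Finset.sdiff_eq_empty_iff_subset] at h
    exact h3 (Finset.Subset.antisymm h1 h)
  · intro h
    obtain ⟨x, hx⟩ := Finset.nonempty_iff_ne_empty.mpr h2
    have : x ∈ A \ I := by rw [h]; exact h1 hx
    exact (Finset.mem_sdiff.mp this).2 hx

theorem Cyc_card {A I : Finset ℕ} (h : I ∈ spl A) : I.card + (A \ I).card = A.card := by
  rw [Cyc_spl] at h
  rw [Finset.card_sdiff_of_subset h.1]
  have := Finset.card_le_card h.1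
  omega

theorem Cyc_pos {A I : Finset ℕ} (h : I ∈ spl A) : 1 ≤ I.card := by
  rw [Cyc_spl] at h
  exact Finset.card_pos.mpr (Finset.nonempty_iff_ne_empty.mpr h.2.1)

theorem Cyc_union {A I : Finset ℕ} (h : I ∈ spl A) : I ∪ (A \ I) = A := by
  rw [Cyc_spl] at h
  exact Finset.union_sdiff_of_subset h.1

theorem Cyc_rhs (c : Finset ℕ → Ch Pt) (A : Finset ℕ) :
    rhs c A = ∑ I ∈ spl A, Cyc_e I (A \ I) • star I.card (c I) (c (A \ I)) := rfl

theorem Cyc_supc_sup {α : Type} (P : Finset α → Prop) (a : ℕ) {z : Ch α} (h : z ∈ supc P a) :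
    z ∈ sup P := by
  unfold supc sup at h
  unfold sup
  rw [Finsupp.mem_supported] at h ⊢
  intro F hF
  exact (h hF).1

theorem Cyc_inv_union_left {I1 I2 J : Finset ℕ} (h : Disjoint I1 I2) :
    inv (I1 ∪ I2) J = inv I1 J + inv I2 J := by
  unfold inv
  rw [Finset.union_product, Finset.filter_union, Finset.card_union_of_disjoint]
  rw [Finset.disjoint_left]
  intro p hp hq
  simp only [Finset.mem_filter, Finset.mem_product] at hp hq
  exact (Finset.disjoint_left.mp h) hp.1.1 hq.1.1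

theorem Cyc_inv_union_right {I J1 J2 : Finset ℕ} (h : Disjoint J1 J2) :
    inv I (J1 ∪ J2) = inv I J1 + inv I J2 := by
  unfold inv
  rw [Finset.product_union, Finset.filter_union, Finset.card_union_of_disjoint]
  rw [Finset.disjoint_left]
  intro p hp hq
  simp only [Finset.mem_filter, Finset.mem_product] at hp hq
  exact (Finset.disjoint_left.mp h) hp.1.2 hq.1.2

/-- the common summand -/
noncomputable def Cyc_G (c : Finset ℕ → Ch Pt) (A P Q : Finset ℕ) : Ch Pt :=
  ((-1 : ℚ) ^ (Q.card + inv P Q + inv P (A \ (P ∪ Q)) + inv Q (A \ (P ∪ Q)))) •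
    star (P.card + Q.card) (star P.card (c P) (c Q)) (c (A \ (P ∪ Q)))

theorem Cyc_term (c : Finset ℕ → Ch Pt) (A I : Finset ℕ) (hSt : StStar) (hL : StLeib)
    (hI : I ∈ spl A)
    (h : ∀ I ∈ spl A, c I ∈ supc (TV I) (3 * I.card - 1) ∧ bdA I (c I) = rhs c I) :
    Cyc_e I (A \ I) • bdA A (star I.card (c I) (c (A \ I))) =
      (∑ I1 ∈ spl I, Cyc_G c A I1 (I \ I1)) - ∑ J1 ∈ spl (A \ I), Cyc_G c A I J1 := by
  have hJ := Cyc_compl hI
  have hu := Cyc_union hI
  have hd : Disjoint I (A \ I) := Finset.disjoint_sdiff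
  have hIn : I.Nonempty := Finset.nonempty_iff_ne_empty.mpr (Cyc_spl.mp hI).2.1
  have hJn : (A \ I).Nonempty := Finset.nonempty_iff_ne_empty.mpr (Cyc_spl.mp hJ).2.1
  have hpI := Cyc_pos hI
  have hL' := hL I (A \ I) (3 * I.card - 1) (c I) (c (A \ I)) hd hIn hJn (h I hI).1
    (Cyc_supc_sup _ _ (h _ hJ).1)
  rw [hu] at hL'
  rw [hL', (h I hI).2, (h _ hJ).2, Cyc_rhs c I, Cyc_rhs c (A \ I)]
  rw [smul_add, sub_eq_add_neg]
  congr 1
  · -- first sum
    rw [map_sum, LinearMap.sum_apply, Finset.smul_sum]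
    refine Finset.sum_congr rfl ?_
    intro I1 hI1
    have hu1 := Cyc_union hI1
    have hc1 := Cyc_card hI1
    have hd1 : Disjoint I1 (I \ I1) := Finset.disjoint_sdiff
    unfold Cyc_G
    rw [hu1, hc1, map_smul, LinearMap.smul_apply, smul_smul]
    congr 1
    unfold Cyc_e
    rw [← pow_add]
    have e1 : inv I (A \ I) = inv I1 (A \ I) + inv (I \ I1) (A \ I) := by
      rw [← Cyc_inv_union_left hd1, hu1]
    rw [e1]
    have : I.card + (inv I1 (A \ I) + inv (I \ I1) (A \ I)) + (I1.card + inv I1 (I \ I1)) =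
        (I \ I1).card + inv I1 (I \ I1) + inv I1 (A \ I) + inv (I \ I1) (A \ I) +
          2 * I1.card := by omega
    rw [this, pow_add _ _ (2 * I1.card), pow_mul]
    norm_num
  · -- second sum
    rw [map_sum, Finset.smul_sum, Finset.smul_sum, ← Finset.sum_neg_distrib]
    refine Finset.sum_congr rfl ?_
    intro J1 hJ1
    have hu1 := Cyc_union hJ1
    have hd1 : Disjoint J1 ((A \ I) \ J1) := Finset.disjoint_sdiff
    have hs : (A \ I) \ J1 = A \ (I ∪ J1) := by
      ext x; simp only [Finset.mem_sdiff, Finset.mem_union]; tauto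
    unfold Cyc_G
    rw [map_smul, smul_smul, smul_smul, hSt.2, ← neg_smul, ← hs]
    congr 1
    unfold Cyc_e
    have e1 : inv I (A \ I) = inv I J1 + inv I ((A \ I) \ J1) := by
      rw [← Cyc_inv_union_right hd1, hu1]
    rw [e1, ← pow_add, ← pow_add]
    have e3 : (-1 : ℚ) ^ (3 * I.card - 1) = - (-1 : ℚ) ^ (3 * I.card) := by
      have : 3 * I.card = (3 * I.card - 1) + 1 := by omega
      rw [this, pow_succ]; simp
    have : I.card + (inv I J1 + inv I ((A \ I) \ J1)) +
        ((3 * I.card - 1) + (J1.card + inv J1 ((A \ I) \ J1))) + 1 =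
        (J1.card + inv I J1 + inv I ((A \ I) \ J1) + inv J1 ((A \ I) \ J1)) +
          2 * (2 * I.card) := by omega
    have h2 : (-1 : ℚ) ^ (I.card + (inv I J1 + inv I ((A \ I) \ J1)) +
        ((3 * I.card - 1) + (J1.card + inv J1 ((A \ I) \ J1))) + 1) =
        (-1 : ℚ) ^ (J1.card + inv I J1 + inv I ((A \ I) \ J1) + inv J1 ((A \ I) \ J1)) := by
      rw [this, pow_add _ _ (2 * (2 * I.card)), pow_mul]
      norm_num
    rw [pow_succ] at h2
    first
      | linarith
      | (rw [← h2]; ring)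

theorem mod_Cyc (hSt : StStar) (hL : StLeib) (_hS : StSup) (_hC : StConv) : StCyc := by
  intro c A h
  constructor
  · rw [Cyc_rhs]
    refine Submodule.sum_mem _ ?_
    intro I hI
    refine Submodule.smul_mem _ _ ?_
    have hJ := Cyc_compl hI
    have hu := Cyc_union hI
    have hd : Disjoint I (A \ I) := Finset.disjoint_sdiff
    have hIn : I.Nonempty := Finset.nonempty_iff_ne_empty.mpr (Cyc_spl.mp hI).2.1
    have hJn : (A \ I).Nonempty := Finset.nonempty_iff_ne_empty.mpr (Cyc_spl.mp hJ).2.1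
    have := hSt.1 I (A \ I) _ _ (c I) (c (A \ I)) hd hIn hJn (h I hI).1 (h _ hJ).1
    rw [hu] at this
    have e : 3 * I.card - 1 + (3 * (A \ I).card - 1) = 3 * A.card - 2 := by
      have := Cyc_card hI
      have h1 := Cyc_pos hI
      have h2 := Cyc_pos hJ
      omega
    rw [e] at this
    exact this
  · rw [Cyc_rhs, map_sum]
    have h1 : ∀ I ∈ spl A, bdA A (Cyc_e I (A \ I) • star I.card (c I) (c (A \ I))) =
        (∑ I1 ∈ spl I, Cyc_G c A I1 (I \ I1)) - ∑ J1 ∈ spl (A \ I), Cyc_G c A I J1 := by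
      intro I hI
      rw [map_smul]
      exact Cyc_term c A I hSt hL hI h
    rw [Finset.sum_congr rfl h1, Finset.sum_sub_distrib, sub_eq_zero]
    rw [Finset.sum_sigma', Finset.sum_sigma']
    refine Finset.sum_bij' (fun x _ => ⟨x.2, x.1 \ x.2⟩) (fun y _ => ⟨y.1 ∪ y.2, y.1⟩) ?_ ?_ ?_ ?_ ?_
    · rintro ⟨I, I1⟩ hx
      simp only [Finset.mem_sigma, Cyc_spl] at hx ⊢
      obtain ⟨⟨a1, a2, a3⟩, b1, b2, b3⟩ := hx
      refine ⟨⟨b1.trans a1, b2, ?_⟩, ?_, ?_, ?_⟩
      · intro he
        apply b3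
        exact Finset.Subset.antisymm b1 (he ▸ a1)
      · exact Finset.sdiff_subset_sdiff a1 (Finset.Subset.refl _)
      · intro he
        rw [Finset.sdiff_eq_empty_iff_subset] at he
        exact b3 (Finset.Subset.antisymm b1 he)
      · intro he
        apply a3
        refine Finset.Subset.antisymm a1 ?_
        intro x hx
        by_cases hx1 : x ∈ I1
        · exact b1 hx1
        · have : x ∈ I \ I1 := by rw [he]; exact Finset.mem_sdiff.mpr ⟨hx, hx1⟩
          exact (Finset.mem_sdiff.mp this).1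
    · rintro ⟨P, Q⟩ hx
      simp only [Finset.mem_sigma, Cyc_spl] at hx ⊢
      obtain ⟨⟨a1, a2, a3⟩, b1, b2, b3⟩ := hx
      obtain ⟨q, hq⟩ := Finset.nonempty_iff_ne_empty.mpr b2
      have hq' := Finset.mem_sdiff.mp (b1 hq)
      refine ⟨⟨?_, ?_, ?_⟩, Finset.subset_union_left, a2, ?_⟩
      · exact Finset.union_subset a1 (b1.trans Finset.sdiff_subset)
      · intro he
        have : q ∈ P ∪ Q := Finset.mem_union_right _ hq
        rw [he] at this
        simp at this
      · intro he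
        apply b3
        refine Finset.Subset.antisymm b1 ?_
        intro x hx
        have hx' := Finset.mem_sdiff.mp hx
        have : x ∈ P ∪ Q := by rw [he]; exact hx'.1
        rcases Finset.mem_union.mp this with h | h
        · exact absurd h hx'.2
        · exact h
      · intro he
        have : q ∈ P := by rw [he]; exact Finset.mem_union_right _ hq
        exact hq'.2 this
    · rintro ⟨I, I1⟩ hx
      simp only [Finset.mem_sigma, Cyc_spl] at hx
      simp only [Sigma.mk.injEq, heq_eq_eq, and_true]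
      exact Finset.union_sdiff_of_subset hx.2.1
    · rintro ⟨P, Q⟩ hx
      simp only [Finset.mem_sigma, Cyc_spl] at hx
      simp only [Sigma.mk.injEq, heq_eq_eq, true_and]
      ext x
      simp only [Finset.mem_sdiff, Finset.mem_union]
      constructor
      · rintro ⟨h1 | h1, h2⟩
        · exact absurd h1 h2
        · exact h1
      · intro h1
        exact ⟨Or.inr h1, (Finset.mem_sdiff.mp (hx.2.1 h1)).2⟩
    · rintro ⟨I, I1⟩ hx
      rfl

end Pool.Agent.Helper40.NF
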