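import Mathlib
import Pool.Agent.Helper40.NF.St

set_option autoImplicit false

namespace Pool.Agent.Helper40.NF

open Finset

theorem En_eq (A : Finset ℕ) (f : ℕ → ℕ) (n : ℕ) (hf : StrictMonoOn f (range n : Set ℕ))
    (hA : (range n).image f = A) (k : ℕ) (hk : k < n) : en A k = f k := by
  classical
  have hmem : f k ∈ A := by
    rw [← hA]; exact mem_image_of_mem f (mem_range.mpr hk)
  have hc : Nat.count (fun i => i ∈ A) (f k) = k := by
    rw [Nat.count_eq_card_filter_range]
    have : (range (f k)).filter (fun i => i ∈ A) = (range k).image f := by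
      ext x
      simp only [mem_filter, mem_range, mem_image]
      constructor
      · rintro ⟨hx, hxA⟩
        rw [← hA, mem_image] at hxA
        obtain ⟨j, hj, rfl⟩ := hxA
        refine ⟨j, ?_, rfl⟩
        by_contra hjk
        push Not at hjk
        have := hf.monotoneOn (by simpa using hk) (by simpa using mem_range.mp hj) hjk
        omega
      · rintro ⟨j, hj, rfl⟩
        refine ⟨hf (by simp; omega) (by simpa using hk) hj, ?_⟩
        rw [← hA]; exact mem_image_of_mem f (mem_range.mpr (by omega))
    rw [this, Finset.card_image_of_injOn, card_range]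
    intro a ha b hb hab
    have ha' : a < k := by simpa using ha
    have hb' : b < k := by simpa using hb
    exact hf.injOn (by simp; omega) (by simp; omega) hab
  have := Nat.nth_count (p := fun i => i ∈ A) hmem
  rw [hc] at this
  exact this

theorem En_one (A : Finset ℕ) : StrictMonoOn (en A) (range A.card : Set ℕ) ∧
    (range A.card).image (en A) = A := by
  have hf : {i | i ∈ A}.Finite := A.finite_toSet
  have h1 := Nat.nth_strictMonoOn hf
  have h2 := Nat.image_nth_Iio_card hf
  have hft : hf.toFinset = A := by
    ext x
    rw [Set.Finite.mem_toFinset]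
    exact Iff.rfl
  simp only [hft] at h1 h2
  constructor
  · rw [coe_range]; exact h1
  · apply Finset.coe_injective
    rw [coe_image, coe_range]
    exact h2

theorem mod_En : StEn := by
  refine ⟨En_one, ?_, ?_, ?_⟩
  · intro A I hI k hk
    obtain ⟨a1, a2⟩ := En_one A
    obtain ⟨b1, b2⟩ := En_one I
    symm
    apply En_eq (I.image (en A)) (fun k => en A (en I k)) I.card _ _ k hk
    · intro x hx y hy hxy
      have m : ∀ z, z ∈ (range I.card : Set ℕ) → en I z ∈ (range A.card : Set ℕ) := by
        intro z hz
        apply hI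
        have : en I z ∈ (range I.card).image (en I) := mem_image_of_mem _ hz
        rwa [b2] at this
      exact a1 (m x hx) (m y hy) (b1 hx hy hxy)
    · have : (range I.card).image (fun k => en A (en I k)) =
          ((range I.card).image (en I)).image (en A) := by
        rw [Finset.image_image]; rfl
      rw [this, b2]
  · intro m k hk
    exact En_eq (range m) (fun k => k) m (fun x _ y _ h => h) (by simp) k hk
  · intro f I J hf
    unfold inv
    have hinj := hf.injOn
    have : ((I.image f) ×ˢ (J.image f)).filter (fun p => p.2 < p.1) =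
        ((I ×ˢ J).filter (fun p => p.2 < p.1)).image (fun p => (f p.1, f p.2)) := by
      ext p
      simp only [mem_filter, mem_product, mem_image]
      constructor
      · rintro ⟨⟨⟨a, ha, h1⟩, ⟨b, hb, h2⟩⟩, h3⟩
        refine ⟨(a, b), ⟨⟨ha, hb⟩, ?_⟩, ?_⟩
        · rw [← h1, ← h2] at h3
          exact (hf.lt_iff_lt (by simp [hb]) (by simp [ha])).mp h3
        · exact Prod.ext h1 h2
      · rintro ⟨⟨a, b⟩, ⟨⟨ha, hb⟩, h3⟩, h4⟩
        rw [← h4]
        exact ⟨⟨⟨a, ha, rfl⟩, ⟨b, hb, rfl⟩⟩, hf (by simp [hb]) (by simp [ha]) h3⟩
    rw [this, Finset.card_image_of_injOn]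
    intro p hp q hq hpq
    have hp' := (mem_filter.mp hp).1
    have hq' := (mem_filter.mp hq).1
    rw [mem_product] at hp' hq'
    have e1 := congrArg Prod.fst hpq
    have e2 := congrArg Prod.snd hpq
    exact Prod.ext (hinj (by simp [hp'.1]) (by simp [hq'.1]) e1)
      (hinj (by simp [hp'.2]) (by simp [hq'.2]) e2)

end Pool.Agent.Helper40.NF
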