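import Mathlib
import Pool.Agent.Helper40.NF.St

/-!
# Module Eta (MP_42cd19_co): the push identity
-/

set_option autoImplicit false

namespace Pool.Agent.Helper40.NF

open Finset

theorem Eta_mk_eq (v : Val) : mk (lift v) (lab v) = v := rfl

theorem Eta_mem_lifts (X : Finset Val) (i k : ℕ) : k ∈ lifts X i ↔ mk k i ∈ X := by
  simp only [lifts, mem_image, mem_filter]
  constructor
  · rintro ⟨v, ⟨hv, rfl⟩, rfl⟩
    exact hv
  · intro h
    exact ⟨mk k i, ⟨h, rfl⟩, rfl⟩

theorem Eta_mk_inj {k k' i i' : ℕ} : mk k i = mk k' i' ↔ k = k' ∧ i = i' := by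
  simp [mk]

theorem Eta_lifts_erase_self (X : Finset Val) (x : Val) :
    lifts (X.erase x) (lab x) = (lifts X (lab x)).erase (lift x) := by
  ext k
  rw [Eta_mem_lifts, mem_erase, mem_erase, Eta_mem_lifts]
  refine and_congr_left fun _ => ?_
  rw [not_iff_not, ← Eta_mk_eq x, Eta_mk_inj]
  simp [lab, lift, mk]

theorem Eta_lifts_erase_ne (X : Finset Val) (x : Val) (j : ℕ) (hj : j ≠ lab x) :
    lifts (X.erase x) j = lifts X j := by
  ext k
  rw [Eta_mem_lifts, mem_erase, Eta_mem_lifts]
  refine and_iff_right_of_imp fun _ h => hj ?_
  rw [← h]
  rfl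

theorem Eta_lifts_insert_self (X : Finset Val) (x : Val) :
    lifts (insert x X) (lab x) = insert (lift x) (lifts X (lab x)) := by
  ext k
  rw [Eta_mem_lifts, mem_insert, mem_insert, Eta_mem_lifts]
  refine or_congr_left ?_
  rw [← Eta_mk_eq x, Eta_mk_inj]
  simp [lab, lift, mk]

theorem Eta_lifts_insert_ne (X : Finset Val) (x : Val) (j : ℕ) (hj : j ≠ lab x) :
    lifts (insert x X) j = lifts X j := by
  ext k
  rw [Eta_mem_lifts, mem_insert, Eta_mem_lifts]
  refine or_iff_right_of_imp fun h => absurd ?_ hj
  rw [← h]
  rfl

theorem Eta_LV_erase (A : Finset ℕ) (X : Finset Val) (h : LV A X) (x : Val) (hx : x ∈ X) :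
    LV A (X.erase x) ↔ Ok ((lifts X (lab x)).erase (lift x)) := by
  constructor
  · intro h1
    have h2 := h1.2 (lab x) (h.1 x hx)
    rwa [Eta_lifts_erase_self] at h2
  · intro h1
    refine ⟨fun v hv => h.1 v (mem_of_mem_erase hv), fun j hj => ?_⟩
    by_cases hjx : j = lab x
    · rw [hjx, Eta_lifts_erase_self]
      exact h1
    · rw [Eta_lifts_erase_ne X x j hjx]
      exact h.2 j hj

theorem Eta_LV_insert (A : Finset ℕ) (X : Finset Val) (h : LV A X) (x : Val) (hx : lab x ∈ A)
    (h1 : Ok (insert (lift x) (lifts X (lab x)))) : LV A (insert x X) := by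
  refine ⟨fun v hv => ?_, fun j hj => ?_⟩
  · rcases mem_insert.1 hv with rfl | hv
    · exact hx
    · exact h.1 v hv
  · by_cases hjx : j = lab x
    · rw [hjx, Eta_lifts_insert_self]
      exact h1
    · rw [Eta_lifts_insert_ne X x j hjx]
      exact h.2 j hj

theorem Eta_sg_sq (X : Finset Val) (x : Val) :
    sg (id : Val → Val) X x * sg (id : Val → Val) X x = 1 := by
  unfold sg
  rw [← mul_pow]
  norm_num

theorem Eta_sign (X : Finset Val) (v x : Val) (hv : v ∉ X) (hx : x ∈ X) :
    sg (id : Val → Val) X x * sg (id : Val → Val) ((insert v X).erase x) v =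
      -(sg (id : Val → Val) (insert v X) v * sg (id : Val → Val) (insert v X) x) := by
  have hne : x ≠ v := fun h => hv (h ▸ hx)
  unfold sg
  simp only [id]
  rw [filter_insert, if_neg (lt_irrefl v)]
  have e1 : ((insert v X).erase x).filter (fun y => y < v) = (X.filter (fun y => y < v)).erase x := by
    ext y
    simp only [mem_filter, mem_erase, mem_insert]
    constructor
    · rintro ⟨⟨h1, h2 | h2⟩, h3⟩
      · exact absurd h3 (h2 ▸ lt_irrefl _)
      · exact ⟨h1, h2, h3⟩
    · rintro ⟨h1, h2, h3⟩
      exact ⟨⟨h1, Or.inr h2⟩, h3⟩
  rw [e1, filter_insert]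
  rcases lt_or_gt_of_ne hne with h | h
  · -- x < v
    rw [if_neg h.asymm]
    have h1 : x ∈ X.filter (fun y => y < v) := mem_filter.2 ⟨hx, h⟩
    obtain ⟨b, hb⟩ : ∃ b, (X.filter (fun y => y < v)).card = b + 1 :=
      ⟨(X.filter (fun y => y < v)).card - 1, by
        have := card_pos.2 ⟨x, h1⟩
        omega⟩
    rw [card_erase_of_mem h1, hb, Nat.add_sub_cancel, pow_succ]
    ring
  · -- v < x
    have h1 : x ∉ X.filter (fun y => y < v) := fun h2 => (mem_filter.1 h2).2.asymm h
    have h2 : v ∉ X.filter (fun y => y < x) := fun h3 => hv (mem_filter.1 h3).1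
    rw [if_pos h, erase_eq_of_notMem h1, card_insert_of_notMem h2, pow_succ]
    ring

theorem Eta_single_mem (P : Finset Val → Prop) (X : Finset Val) (c : ℚ) (h : P X) :
    Finsupp.single X c ∈ sup P := by
  unfold sup
  exact Finsupp.single_mem_supported ℚ c h

open Classical in
theorem Eta_bdG_single (A : Finset ℕ) (X : Finset Val) (c : ℚ) :
    bdG A (Finsupp.single X c) = ∑ x ∈ X, if LV A (X.erase x) then
      Finsupp.single (X.erase x) (c * sg (id : Val → Val) X x) else 0 := by
  unfold bdG bd
  rw [Finsupp.linearCombination_single]
  unfold bdF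
  rw [smul_sum]
  refine sum_congr rfl fun x _ => ?_
  split_ifs
  · rw [Finsupp.smul_single, smul_eq_mul]
  · rw [smul_zero]

open Classical in
theorem Eta_et_bdG (A : Finset ℕ) (i M : ℕ) (X : Finset Val) :
    et i M (bdG A (Finsupp.single X 1)) = ∑ x ∈ X, if LV A (X.erase x) then
      sg (id : Val → Val) X x • etF i M (X.erase x) else 0 := by
  rw [Eta_bdG_single, map_sum]
  refine sum_congr rfl fun x _ => ?_
  split_ifs
  · unfold et
    rw [Finsupp.linearCombination_single, one_mul]
  · rw [map_zero]

theorem Eta_not_Ok_singleton (k : ℕ) : ¬ Ok {k} := by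
  rintro ⟨m, h | h⟩
  · have h1 : m ∈ ({k} : Finset ℕ) := by rw [h]; simp
    have h2 : m + 1 ∈ ({k} : Finset ℕ) := by rw [h]; simp
    rw [mem_singleton] at h1 h2
    omega
  · have h1 : m ∈ ({k} : Finset ℕ) := by rw [h]; simp
    have h2 : m + 1 ∈ ({k} : Finset ℕ) := by rw [h]; simp
    rw [mem_singleton] at h1 h2
    omega

theorem mod_Eta : StEta := by
  classical
  intro A K i M X hiA hM hX hb
  obtain ⟨hLV, hK⟩ := hX
  have hOk := hLV.2 i hiA
  have hbS : ∀ k ∈ lifts X i, k ≤ M + 1 := fun k hk => hb (mk k i) ((Eta_mem_lifts X i k).1 hk) rfl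
  have labv : ∀ k, lab (mk k i) = i := fun k => rfl
  have liftv : ∀ k, lift (mk k i) = k := fun k => rfl
  set v : Val := mk (M - 1) i with hv
  by_cases hS : lifts X i = {M, M + 1}
  · -- case A
    have hvX : v ∉ X := by
      intro h
      have h1 := (Eta_mem_lifts X i (M - 1)).2 h
      rw [hS, mem_insert, mem_singleton] at h1
      omega
    have hLY : lifts (insert v X) i = {M - 1, M, M + 1} := by
      have := Eta_lifts_insert_self X v
      rw [show lab v = i from rfl, show lift v = M - 1 from rfl, hS] at this
      exact this
    have hLYj : ∀ j, j ≠ i → lifts (insert v X) j = lifts X j := fun j hj =>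
      Eta_lifts_insert_ne X v j hj
    have hYLV : LV A (insert v X) := by
      refine Eta_LV_insert A X hLV v hiA ⟨M - 1, Or.inr ?_⟩
      rw [show lab v = i from rfl, show lift v = M - 1 from rfl, hS]
      rw [show M - 1 + 1 = M by omega, show M - 1 + 2 = M + 1 by omega]
    have hMX : mk M i ∈ X := (Eta_mem_lifts X i M).1 (by rw [hS]; simp)
    have hYK : ∀ y ∈ insert v X, lift y < K := by
      intro y hy
      rcases mem_insert.1 hy with rfl | hy
      · have := hK _ hMX
        rw [liftv] at this
        rw [hv, liftv]
        omega
      · exact hK y hy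
    have hcard : (insert v X).card = X.card + 1 := card_insert_of_notMem hvX
    have het : etF i M X = Finsupp.single (insert v X) (sg (id : Val → Val) (insert v X) v) := by
      unfold etF
      rw [if_pos hS]
    refine ⟨?_, ?_⟩
    · rw [het]
      exact Eta_single_mem _ _ _ ⟨⟨hYLV, hYK⟩, hcard⟩
    · rw [het, Eta_bdG_single, Eta_et_bdG, sum_insert hvX, erase_insert hvX, if_pos hLV,
        Eta_sg_sq]
      set s := sg (id : Val → Val) (insert v X) v with hs
      rw [sub_sub, add_assoc, sub_add_cancel_left, ← sum_add_distrib]
      refine Submodule.neg_mem _ (Submodule.sum_mem _ fun x hx => ?_)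
      have hxv : x ≠ v := fun h => hvX (h ▸ hx)
      by_cases hxi : lab x = i
      · have h1 : ¬ LV A (X.erase x) := by
          rw [Eta_LV_erase A X hLV x hx, hxi, hS]
          have h2 : lift x ∈ lifts X i := by
            rw [Eta_mem_lifts, ← hxi]
            exact hx
          rw [hS, mem_insert, mem_singleton] at h2
          rcases h2 with h2 | h2
          · rw [h2, show ({M, M + 1} : Finset ℕ).erase M = {M + 1} by
              ext k; simp only [mem_erase, mem_insert, mem_singleton]; omega]
            exact Eta_not_Ok_singleton _
          · rw [h2, show ({M, M + 1} : Finset ℕ).erase (M + 1) = {M} by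
              ext k; simp only [mem_erase, mem_insert, mem_singleton]; omega]
            exact Eta_not_Ok_singleton _
        rw [if_neg h1, add_zero]
        split_ifs with h2
        · refine Eta_single_mem _ _ _ ⟨⟨h2, fun y hy => hYK y (mem_of_mem_erase hy)⟩, ?_, ?_, ?_⟩
          · rw [card_erase_of_mem (mem_insert_of_mem hx), hcard, Nat.add_sub_cancel]
          · have h3 : Ok (lifts ((insert v X).erase x) i) := h2.2 i hiA
            have h4 : lifts ((insert v X).erase x) i = ({M - 1, M, M + 1} : Finset ℕ).erase (lift x) := by
              have := Eta_lifts_erase_self (insert v X) x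
              rw [hxi, hLY] at this
              exact this
            have h5 : lift x ∈ lifts X i := by
              rw [Eta_mem_lifts, ← hxi]
              exact hx
            rw [hS, mem_insert, mem_singleton] at h5
            have h6 : lift x = M + 1 := by
              rcases h5 with h5 | h5
              · exfalso
                rw [h4, h5] at h3
                have h7 : ({M - 1, M, M + 1} : Finset ℕ).erase M = {M - 1, M + 1} := by
                  ext k
                  simp only [mem_erase, mem_insert, mem_singleton]
                  omega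
                rw [h7] at h3
                obtain ⟨m, h8 | h8⟩ := h3
                · have a1 : m ∈ ({M - 1, M + 1} : Finset ℕ) := by rw [h8]; simp
                  have a2 : m + 1 ∈ ({M - 1, M + 1} : Finset ℕ) := by rw [h8]; simp
                  simp only [mem_insert, mem_singleton] at a1 a2
                  omega
                · have a1 : m ∈ ({M - 1, M + 1} : Finset ℕ) := by rw [h8]; simp
                  have a2 : m + 1 ∈ ({M - 1, M + 1} : Finset ℕ) := by rw [h8]; simp
                  simp only [mem_insert, mem_singleton] at a1 a2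
                  omega
              · exact h5
            intro y hy hyi
            have h7 : lift y ∈ lifts ((insert v X).erase x) i := by
              rw [Eta_mem_lifts, ← hyi]
              exact hy
            rw [h4, h6, mem_erase] at h7
            simp only [mem_insert, mem_singleton] at h7
            omega
          · intro j hj
            rw [Eta_lifts_erase_ne _ _ _ (by rw [hxi]; exact hj), hLYj j hj]
        · exact Submodule.zero_mem _
      · -- other labels
        have hiff : LV A ((insert v X).erase x) ↔ LV A (X.erase x) := by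
          rw [Eta_LV_erase A X hLV x hx, Eta_LV_erase A _ hYLV x (mem_insert_of_mem hx),
            hLYj _ hxi]
        by_cases h1 : LV A (X.erase x)
        · rw [if_pos h1, if_pos (hiff.2 h1)]
          have h2 : lifts (X.erase x) i = {M, M + 1} := by
            rw [Eta_lifts_erase_ne X x i (fun h => hxi h.symm), hS]
          have h3 : etF i M (X.erase x) = Finsupp.single ((insert v X).erase x)
              (sg (id : Val → Val) ((insert v X).erase x) v) := by
            unfold etF
            rw [if_pos h2, ← hv, ← erase_insert_of_ne hxv.symm]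
          rw [h3, Finsupp.smul_single, smul_eq_mul, ← Finsupp.single_add,
            Eta_sign X v x hvX hx, ← hs, add_neg_cancel, Finsupp.single_zero]
          exact Submodule.zero_mem _
        · rw [if_neg h1, if_neg (fun h => h1 (hiff.1 h)), add_zero]
          exact Submodule.zero_mem _
  · -- etF X = 0
    have het : etF i M X = 0 := by
      unfold etF
      rw [if_neg hS]
    refine ⟨by rw [het]; exact Submodule.zero_mem _, ?_⟩
    rw [het, map_zero, sub_zero, Eta_et_bdG]
    by_cases hM1 : M + 1 ∈ lifts X i
    · -- case B
      have hS3 : lifts X i = {M - 1, M, M + 1} := by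
        obtain ⟨m, h | h⟩ := hOk
        · have h1 : m + 1 ≤ M + 1 := hbS _ (by rw [h]; simp)
          have h2 := hM1
          rw [h, mem_insert, mem_singleton] at h2
          have h3 : m = M := by omega
          rw [h3] at h
          exact absurd h hS
        · have h1 : m + 2 ≤ M + 1 := hbS _ (by rw [h]; simp)
          have h2 := hM1
          rw [h, mem_insert, mem_insert, mem_singleton] at h2
          have h3 : m = M - 1 := by omega
          rw [h, h3, show M - 1 + 1 = M by omega, show M - 1 + 2 = M + 1 by omega]
      have hvX : v ∈ X := (Eta_mem_lifts X i (M - 1)).1 (by rw [hS3]; simp)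
      have hLv : lifts (X.erase v) i = {M, M + 1} := by
        have := Eta_lifts_erase_self X v
        rw [show lab v = i from rfl, show lift v = M - 1 from rfl, hS3] at this
        rw [this]
        ext k
        simp only [mem_erase, mem_insert, mem_singleton]
        omega
      rw [sum_eq_single v]
      · have h1 : LV A (X.erase v) := by
          rw [Eta_LV_erase A X hLV v hvX]
          have := Eta_lifts_erase_self X v
          rw [← this]
          exact ⟨M, Or.inl hLv⟩
        rw [if_pos h1]
        unfold etF
        rw [if_pos hLv, ← hv, insert_erase hvX, Finsupp.smul_single, smul_eq_mul, Eta_sg_sq,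
          sub_self]
        exact Submodule.zero_mem _
      · intro x hx hxv
        split_ifs with h1
        · have h2 : lifts (X.erase x) i ≠ {M, M + 1} := by
            intro h2
            have h3 : M - 1 ∈ lifts (X.erase x) i := by
              rw [Eta_mem_lifts]
              exact mem_erase.2 ⟨hxv.symm, hvX⟩
            rw [h2, mem_insert, mem_singleton] at h3
            omega
          unfold etF
          rw [if_neg h2, smul_zero]
        · rfl
      · intro h
        exact absurd hvX h
    · -- case C
      rw [sum_eq_zero, sub_zero]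
      · refine Eta_single_mem _ _ _ ⟨⟨hLV, hK⟩, rfl, fun y hy hyi => ?_, fun j _ => rfl⟩
        have h1 := hb y hy hyi
        rcases Nat.lt_or_ge M (lift y) with h2 | h2
        · exfalso
          apply hM1
          rw [Eta_mem_lifts, ← hyi, show M + 1 = lift y by omega]
          exact hy
        · exact h2
      · intro x hx
        split_ifs with h1
        · have h2 : lifts (X.erase x) i ≠ {M, M + 1} := by
            intro h2
            apply hM1
            have h3 : M + 1 ∈ lifts (X.erase x) i := by rw [h2]; simp
            rw [Eta_mem_lifts] at h3 ⊢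
            exact mem_of_mem_erase h3
          unfold etF
          rw [if_neg h2, smul_zero]
        · rfl

end Pool.Agent.Helper40.NF
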