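import Mathlib
import Pool.Agent.Helper40.NF.St

/-!
# Existence of the multiplicative family of chains
-/

namespace Pool.Agent.Helper40.NF

open Finset

/-- `cc m` solves the boundary equation -/
def Fam_Good (cc : ℕ → Ch Pt) (m : ℕ) : Prop :=
  cc m ∈ supc (TV (range m)) (3 * m - 1) ∧ bdA (range m) (cc m) = rhs (fam cc) (range m)

lemma Fam_rhs_congr (cc cc' : ℕ → Ch Pt) (m : ℕ) (h : ∀ k < m, cc k = cc' k) :
    rhs (fam cc) (range m) = rhs (fam cc') (range m) := by
  unfold rhs
  refine Finset.sum_congr rfl (fun I hI => ?_)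
  rw [spl, Finset.mem_filter, Finset.mem_powerset] at hI
  obtain ⟨hsub, hne, hne2⟩ := hI
  have h1 : I.card < m := by
    have := Finset.card_lt_card (lt_of_le_of_ne hsub hne2)
    simpa using this
  have h2 : (range m \ I).card < m := by
    have h3 : 0 < I.card := Finset.card_pos.2 (Finset.nonempty_iff_ne_empty.2 hne)
    rw [Finset.card_sdiff_of_subset hsub, Finset.card_range]
    omega
  simp only [fam]
  rw [h _ h1, h _ h2]

lemma Fam_base_TV : TV (range 1) base := by
  have hne : ((0, mk 0 0) : Pt) ≠ (1, mk 1 0) := by
    intro h; have := congrArg Prod.fst h; simp at this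
  have him : im base = {mk 0 0, mk 1 0} := by
    simp [im, base, Finset.image_insert]
  refine ⟨?_, ?_, ?_, ?_, ?_⟩
  · intro p hp
    simp only [base, Finset.mem_insert, Finset.mem_singleton] at hp
    rcases hp with rfl | rfl <;> simp
  · intro p hp q hq hpq
    simp only [base, Finset.mem_insert, Finset.mem_singleton] at hp hq
    rcases hp with rfl | rfl <;> rcases hq with rfl | rfl
    · exact le_refl _
    · show toLex (0, 0) ≤ toLex (1, 0)
      rw [Prod.Lex.toLex_le_toLex]
      simp
    · simp at hpq
    · exact le_refl _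
  · intro p hp q hq hpq
    simp only [base, Finset.mem_insert, Finset.mem_singleton] at hp hq
    rcases hp with rfl | rfl <;> rcases hq with rfl | rfl <;> simp_all
  · rw [him]
    constructor
    · intro v hv
      simp only [Finset.mem_insert, Finset.mem_singleton] at hv
      rcases hv with rfl | rfl <;> simp [lab, mk]
    · intro i hi
      simp only [Finset.range_one, Finset.mem_singleton] at hi
      subst hi
      refine ⟨0, Or.inl ?_⟩
      unfold lifts
      rw [Finset.filter_true_of_mem]
      · simp [Finset.image_insert, lift, mk]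
      · intro v hv
        simp only [Finset.mem_insert, Finset.mem_singleton] at hv
        rcases hv with rfl | rfl <;> simp [lab, mk]
  · rw [him]
    intro v hv
    simp only [Finset.mem_insert, Finset.mem_singleton] at hv
    rcases hv with rfl | rfl <;> simp [lift, mk]

lemma Fam_single_mem {P : Finset Pt → Prop} {a : ℕ} {F : Finset Pt} (h : P F) (hc : F.card = a)
    (b : ℚ) : (Finsupp.single F b : Ch Pt) ∈ supc P a := by
  refine (Finsupp.mem_supported ℚ _).2 ?_
  intro G hG
  have := Finsupp.support_single_subset hG
  rw [Finset.mem_singleton] at this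
  subst this
  exact ⟨h, hc⟩

lemma Fam_base_card : base.card = 2 := by
  apply Finset.card_pair
  intro h; have := congrArg Prod.fst h; simp at this

lemma Fam_good_one (hC : StConv) (cc : ℕ → Ch Pt) (h : cc 1 = Finsupp.single base 1) :
    Fam_Good cc 1 := by
  constructor
  · rw [h]
    exact Fam_single_mem Fam_base_TV Fam_base_card 1
  · have h1 : rhs (fam cc) (range 1) = 0 := by
      unfold rhs
      apply Finset.sum_eq_zero
      intro I hI
      rw [spl, Finset.mem_filter, Finset.mem_powerset] at hI
      obtain ⟨hsub, hne, hne2⟩ := hI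
      have h1 : I.card < 1 := by
        have := Finset.card_lt_card (lt_of_le_of_ne hsub hne2)
        simpa using this
      have h3 : 0 < I.card := Finset.card_pos.2 (Finset.nonempty_iff_ne_empty.2 hne)
      omega
    rw [h1, h]
    unfold bdA bd
    rw [Finsupp.linearCombination_single, one_smul]
    unfold bdF
    apply Finset.sum_eq_zero
    intro p hp
    rw [if_neg]
    intro hv
    have h2 := hC.2.2.2.2 _ _ hv
    have h3 : (im (base.erase p)).card ≤ (base.erase p).card := Finset.card_image_le
    rw [Finset.card_erase_of_mem hp, Fam_base_card] at h3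
    simp at h2
    omega

lemma Fam_fam_single (hE : StEn) (cc : ℕ → Ch Pt) (h : cc 1 = Finsupp.single base 1) (k : ℕ) :
    fam cc {k} = Finsupp.single ({(0, mk 0 k), (1, mk 1 k)} : Finset Pt) 1 := by
  have hk : en {k} 0 = k := by
    have := (hE.1 {k}).2
    have h2 : en {k} 0 ∈ (range ({k} : Finset ℕ).card).image (en {k}) := by
      apply Finset.mem_image_of_mem
      simp
    rw [this] at h2
    simpa using h2
  unfold fam rlC
  rw [Finset.card_singleton, h, Finsupp.lmapDomain_apply, Finsupp.mapDomain_single]
  congr 1
  unfold rlF base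
  rw [Finset.image_insert, Finset.image_singleton]
  simp [rlp, mk, lift, lab] at hk ⊢
  rw [hk]

lemma Fam_step (hA : StAcy) (hCy : StCyc) (hFE : StFamEq) (hA2 : StAug2) (hE : StEn)
    (cc : ℕ → Ch Pt) (h1 : cc 1 = Finsupp.single base 1) (m : ℕ) (hm : 2 ≤ m)
    (hg : ∀ k, 1 ≤ k → k < m → Fam_Good cc k) :
    ∃ y ∈ supc (TV (range m)) (3 * m - 1), bdA (range m) y = rhs (fam cc) (range m) := by
  have hcyc := hCy (fam cc) (range m) (by
    intro I hI
    rw [spl, Finset.mem_filter, Finset.mem_powerset] at hI
    obtain ⟨hsub, hne, hne2⟩ := hI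
    have h2 : I.card < m := by
      have := Finset.card_lt_card (lt_of_le_of_ne hsub hne2)
      simpa using this
    have h3 : 0 < I.card := Finset.card_pos.2 (Finset.nonempty_iff_ne_empty.2 hne)
    exact hFE cc I.card h3 (fun k hk hk2 => (hg k hk (lt_of_le_of_lt hk2 h2)).1)
      (hg _ h3 h2).2 I rfl)
  obtain ⟨hs, hb⟩ := hcyc
  rw [Finset.card_range] at hs
  have hTV : TV (range m) = MC (GV (range m) (2 * m)) (3 * m - 1) := by
    funext F
    simp [TV]
  rw [hTV] at hs ⊢
  obtain ⟨y, hy, hy2⟩ := hA (range m) (2 * m) (3 * m - 1) (3 * m - 2) _ (by omega) hs hb (by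
    intro h
    rw [Finset.card_range] at h
    have : m = 2 := by omega
    subst this
    exact hA2 (fam cc) (Fam_fam_single hE cc h1))
  refine ⟨y, ?_, hy2⟩
  have : 3 * m - 2 + 1 = 3 * m - 1 := by omega
  rw [this] at hy
  exact hy

open Classical in
/-- one step of the recursion -/
noncomputable def Fam_rec (m : ℕ) (r : ∀ k, k < m → Ch Pt) : Ch Pt :=
  if m = 1 then Finsupp.single base 1 else
    if h : ∃ y ∈ supc (TV (range m)) (3 * m - 1),
        bdA (range m) y = rhs (fam (fun k => if hk : k < m then r k hk else 0)) (range m)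
    then h.choose else 0

/-- the sequence of chains -/
noncomputable def Fam_cc : ℕ → Ch Pt := WellFounded.fix Nat.lt_wfRel.wf Fam_rec

lemma Fam_cc_eq (m : ℕ) : Fam_cc m = Fam_rec m (fun k _ => Fam_cc k) :=
  WellFounded.fix_eq Nat.lt_wfRel.wf Fam_rec m

theorem mod_Fam (hA : StAcy) (hCy : StCyc) (hFE : StFamEq) (hA2 : StAug2) (hE : StEn)
    (hC : StConv) : StFam := by
  have h1 : Fam_cc 1 = Finsupp.single base 1 := by
    rw [Fam_cc_eq]; simp [Fam_rec]
  refine ⟨Fam_cc, h1, ?_⟩
  intro m
  induction m using Nat.strong_induction_on with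
  | _ m ih =>
    intro hm
    rcases Nat.lt_or_ge m 2 with h | h
    · have : m = 1 := by omega
      subst this
      exact Fam_good_one hC Fam_cc h1
    · have hcongr : rhs (fam (fun k => if hk : k < m then Fam_cc k else 0)) (range m) =
          rhs (fam Fam_cc) (range m) := by
        apply Fam_rhs_congr
        intro k hk
        simp [hk]
      have hex := Fam_step hA hCy hFE hA2 hE Fam_cc h1 m h (fun k hk hkm => ih k hkm hk)
      rw [← hcongr] at hex
      have heq : Fam_cc m = hex.choose := by
        rw [Fam_cc_eq]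
        unfold Fam_rec
        rw [if_neg (by omega), dif_pos hex]
      have hsp := hex.choose_spec
      rw [← heq, hcongr] at hsp
      exact hsp

end Pool.Agent.Helper40.NF
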