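import Mathlib
import Pool.Agent.Helper40.NF.St

set_option autoImplicit false

namespace Pool.Agent.Helper40.NF

open Finset

theorem FamEq_rlp (f g : ℕ → ℕ) (p : Pt) : rlp f (rlp g p) = rlp (f ∘ g) p := rfl

theorem FamEq_rlF (f g : ℕ → ℕ) (F : Finset Pt) : rlF f (rlF g F) = rlF (f ∘ g) F := by
  unfold rlF
  rw [Finset.image_image]
  rfl

theorem FamEq_rlC (f g : ℕ → ℕ) (z : Ch Pt) : rlC f (rlC g z) = rlC (f ∘ g) z := by
  unfold rlC
  rw [Finsupp.lmapDomain_apply, Finsupp.lmapDomain_apply, Finsupp.lmapDomain_apply,
    ← Finsupp.mapDomain_comp]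
  congr 1
  funext F
  exact FamEq_rlF f g F

theorem FamEq_congr (f g : ℕ → ℕ) (B : Finset ℕ) (h : ∀ i ∈ B, f i = g i) (a : ℕ) (z : Ch Pt)
    (hz : z ∈ supc (TV B) a) : rlC f z = rlC g z := by
  unfold rlC
  rw [Finsupp.lmapDomain_apply, Finsupp.lmapDomain_apply]
  apply Finsupp.mapDomain_congr
  intro F hF
  have hF' : TV B F := by
    unfold supc sup at hz
    rw [Finsupp.mem_supported] at hz
    exact (hz hF).1
  unfold rlF
  apply Finset.image_congr
  intro p hp
  have hlab : lab p.2 ∈ B := by
    have h1 := hF'.2.2.2
    unfold GV LV at h1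
    exact h1.1.1 p.2 (by
      unfold im
      exact mem_image_of_mem _ hp)
  unfold rlp
  rw [h _ hlab]

theorem mod_FamEq (hR : StRel) (hE : StEn) (_hS : StSup) (_hC : StConv) : StFamEq := by
  intro cc m hm hsupp hbd A hA
  obtain ⟨hE1, hE2, hE3, hE4⟩ := hE
  obtain ⟨hmono, himg⟩ := hE1 A
  rw [hA] at hmono himg
  set g := en A with hg
  have hinj := hmono.injOn
  obtain ⟨hR1, hR2⟩ := hR
  obtain ⟨r1, r2⟩ := hR1 g (range m) hmono
  have hcm := hsupp m hm le_rfl
  have hsup : cc m ∈ sup (TV (range m)) := by
    unfold supc sup at hcm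
    unfold sup
    rw [Finsupp.mem_supported] at hcm ⊢
    intro F hF
    exact (hcm hF).1
  have hfA : fam cc A = rlC g (cc m) := by
    unfold fam
    rw [hA]
  refine ⟨?_, ?_⟩
  · have := r2 _ _ hcm
    rw [himg] at this
    rw [hfA]; exact this
  · have h1 := r1 _ hsup
    rw [himg] at h1
    rw [hfA, ← h1, hbd]
    unfold rhs
    rw [map_sum]
    have hkey : ∀ I : Finset ℕ, I ⊆ range m → I ≠ ∅ → rlC g (fam cc I) = fam cc (I.image g) := by
      intro I hI hne
      have hIc : 1 ≤ I.card := by
        rw [Nat.one_le_iff_ne_zero, Ne, Finset.card_eq_zero]; exact hne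
      have hIm : I.card ≤ m := by
        have := Finset.card_le_card hI
        rwa [card_range] at this
      have hcard : (I.image g).card = I.card :=
        Finset.card_image_of_injOn (hinj.mono (by exact_mod_cast hI))
      unfold fam
      rw [hcard, FamEq_rlC]
      apply FamEq_congr (g ∘ en I) (en (I.image g)) (range I.card) _ _ _ (hsupp I.card hIc hIm)
      intro i hi
      rw [mem_range] at hi
      have := hE2 A I (by rw [hA]; exact hI) i hi
      exact this
    refine Finset.sum_bij' (fun I _ => I.image g)
      (fun I' _ => (range m).filter (fun i => g i ∈ I')) ?_ ?_ ?_ ?_ ?_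
    · intro I hI
      unfold spl at hI ⊢
      rw [mem_filter, mem_powerset] at hI ⊢
      obtain ⟨hI1, hI2, hI3⟩ := hI
      refine ⟨?_, ?_, ?_⟩
      · rw [← himg]; exact Finset.image_subset_image hI1
      · intro h; exact hI2 (Finset.image_eq_empty.mp h)
      · intro h
        apply hI3
        have hc : (I.image g).card = I.card :=
          Finset.card_image_of_injOn (hinj.mono (by exact_mod_cast hI1))
        apply Finset.eq_of_subset_of_card_le hI1
        rw [card_range, ← hc, h, hA]
    · intro I' hI'
      unfold spl at hI' ⊢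
      rw [mem_filter, mem_powerset] at hI' ⊢
      obtain ⟨hI1, hI2, hI3⟩ := hI'
      refine ⟨Finset.filter_subset _ _, ?_, ?_⟩
      · intro h
        obtain ⟨x, hx⟩ := Finset.nonempty_iff_ne_empty.mpr hI2
        have hxA := hI1 hx
        rw [← himg, mem_image] at hxA
        obtain ⟨i, hi, rfl⟩ := hxA
        have : i ∈ (range m).filter (fun i => g i ∈ I') := mem_filter.mpr ⟨hi, hx⟩
        rw [h] at this
        exact absurd this (Finset.notMem_empty i)
      · intro h
        apply hI3
        apply Finset.Subset.antisymm hI1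
        intro x hx
        rw [← himg, mem_image] at hx
        obtain ⟨i, hi, rfl⟩ := hx
        rw [← h] at hi
        exact (mem_filter.mp hi).2
    · intro I hI
      unfold spl at hI
      rw [mem_filter, mem_powerset] at hI
      ext i
      rw [mem_filter, mem_image]
      constructor
      · rintro ⟨hi, j, hj, hij⟩
        have := hinj (by simpa using hI.1 hj) (by simpa using hi) hij
        rw [← this]; exact hj
      · intro hi
        exact ⟨hI.1 hi, i, hi, rfl⟩
    · intro I' hI'
      unfold spl at hI'
      rw [mem_filter, mem_powerset] at hI'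
      ext x
      rw [mem_image]
      constructor
      · rintro ⟨i, hi, rfl⟩
        exact (mem_filter.mp hi).2
      · intro hx
        have hxA := hI'.1 hx
        rw [← himg, mem_image] at hxA
        obtain ⟨i, hi, rfl⟩ := hxA
        exact ⟨i, mem_filter.mpr ⟨hi, hx⟩, rfl⟩
    · intro I hI
      unfold spl at hI
      rw [mem_filter, mem_powerset] at hI
      obtain ⟨hI1, hI2, hI3⟩ := hI
      have hcompl : A \ I.image g = (range m \ I).image g := by
        rw [← himg]
        ext x
        simp only [mem_sdiff, mem_image, mem_range]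
        constructor
        · rintro ⟨⟨i, hi, rfl⟩, h⟩
          exact ⟨i, ⟨hi, fun hh => h ⟨i, hh, rfl⟩⟩, rfl⟩
        · rintro ⟨i, ⟨hi, hi'⟩, rfl⟩
          refine ⟨⟨i, hi, rfl⟩, ?_⟩
          rintro ⟨j, hj, hjj⟩
          have := hinj (by simpa using hI1 hj) (by simpa using hi) hjj
          rw [this] at hj
          exact hi' hj
      have hcard : (I.image g).card = I.card :=
        Finset.card_image_of_injOn (hinj.mono (by exact_mod_cast hI1))
      have hinv : inv (I.image g) ((range m \ I).image g) = inv I (range m \ I) := by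
        apply hE4
        rw [Finset.union_sdiff_of_subset hI1]
        exact hmono
      have hne2 : range m \ I ≠ ∅ := by
        intro h
        rw [Finset.sdiff_eq_empty_iff_subset] at h
        exact hI3 (Finset.Subset.antisymm hI1 h)
      rw [map_smul, hR2, hkey I hI1 hI2, hkey _ Finset.sdiff_subset hne2, hcompl, hcard, hinv]

end Pool.Agent.Helper40.NF
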