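import Mathlib
import Pool.Agent.Helper40.NF.St

/-!
# Module Grid: the grid complex has only the class of `X0`
-/

namespace Pool.Agent.Helper40.NF

open Finset

theorem Grid_mem_sup {α : Type} {P : Finset α → Prop} {z : Ch α} :
    z ∈ sup P ↔ ∀ X ∈ z.support, P X := by
  unfold sup
  rw [Finsupp.mem_supported]
  exact Iff.rfl

theorem Grid_lin {α : Type} {P : Finset α → Prop} {S : Submodule ℚ (Ch α)}
    (T : Ch α →ₗ[ℚ] Ch α) (h : ∀ X, P X → T (Finsupp.single X 1) ∈ S) {z : Ch α}
    (hz : z ∈ sup P) : T z ∈ S := by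
  have h1 : z = z.sum Finsupp.single := (Finsupp.sum_single z).symm
  rw [h1, Finsupp.sum, map_sum]
  refine Submodule.sum_mem _ fun X hX => ?_
  have h2 : (Finsupp.single X (z X) : Ch α) = z X • Finsupp.single X 1 := by
    rw [Finsupp.smul_single, smul_eq_mul, mul_one]
  rw [h2, map_smul]
  exact S.smul_mem _ (h X (Grid_mem_sup.1 hz X hX))

/-- cells with `a` elements and lifts of the label `i` at most `b i` -/
def Grid_P (A : Finset ℕ) (K a : ℕ) (b : ℕ → ℕ) (X : Finset Val) : Prop :=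
  GV A K X ∧ X.card = a ∧ ∀ v ∈ X, lift v ≤ b (lab v)

theorem Grid_lifts {X Y : Finset Val} {j m : ℕ} (h : lifts Y j = lifts X j)
    (hX : ∀ v ∈ X, lab v = j → lift v ≤ m) : ∀ v ∈ Y, lab v = j → lift v ≤ m := by
  intro v hv hj
  have h1 : lift v ∈ lifts Y j := mem_image_of_mem _ (mem_filter.2 ⟨hv, hj⟩)
  rw [h] at h1
  obtain ⟨w, hw, h2⟩ := mem_image.1 h1
  rw [← h2]
  exact hX w (mem_filter.1 hw).1 (mem_filter.1 hw).2

theorem Grid_step (hBB : StBB) (hC : StConv) (hE : StEta) (A : Finset ℕ) (K a : ℕ)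
    (b : ℕ → ℕ) (i M : ℕ) (hi : i ∈ A) (hM : 1 ≤ M) (hb : b i = M + 1) (g : Ch Val)
    (hg : g ∈ sup (Grid_P A K a b)) (hg0 : bdG A g = 0) :
    ∃ y ∈ supc (GV A K) (a + 1), g - bdG A y ∈ sup (Grid_P A K a (Function.update b i M)) ∧
      bdG A (g - bdG A y) = 0 := by
  have hy : et i M g ∈ supc (GV A K) (a + 1) := by
    refine Grid_lin (et i M) (fun X hX => ?_) hg
    have h1 := (hE A K i M X hi hM hX.1 (fun v hv hl => by
      rw [← hb, ← hl]; exact hX.2.2 v hv)).1
    rw [hX.2.1] at h1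
    have h2 : et i M (Finsupp.single X 1) = etF i M X := by
      rw [et, Finsupp.linearCombination_single, one_smul]
    rw [h2]
    exact h1
  refine ⟨et i M g, hy, ?_, ?_⟩
  · obtain ⟨T, hT⟩ : ∃ T : Ch Val →ₗ[ℚ] Ch Val, ∀ g,
        T g = g - bdG A (et i M g) - et i M (bdG A g) :=
      ⟨(LinearMap.id : Ch Val →ₗ[ℚ] Ch Val) - bdG A ∘ₗ et i M - et i M ∘ₗ bdG A,
        fun g => rfl⟩
    have h1 : T g ∈ sup (Grid_P A K a (Function.update b i M)) := by
      refine Grid_lin _ (fun X hX => ?_) hg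
      have h2 := (hE A K i M X hi hM hX.1 (fun v hv hl => by
        rw [← hb, ← hl]; exact hX.2.2 v hv)).2
      have h3 : et i M (Finsupp.single X 1) = etF i M X := by
        rw [et, Finsupp.linearCombination_single, one_smul]
      rw [hT, h3]
      rw [Grid_mem_sup] at h2 ⊢
      intro Y hY
      obtain ⟨h5, h6, h7, h8⟩ := h2 Y hY
      refine ⟨h5, h6.trans hX.2.1, fun v hv => ?_⟩
      by_cases hv' : lab v = i
      · rw [hv', Function.update_self]
        exact h7 v hv hv'
      · rw [Function.update_of_ne hv']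
        exact Grid_lifts (h8 _ hv') (fun w hw hl => by rw [← hl]; exact hX.2.2 w hw) v hv rfl
    have h2 : T g = g - bdG A (et i M g) := by
      rw [hT, hg0, map_zero, sub_zero]
    rw [← h2]
    exact h1
  · rw [map_sub, hg0, zero_sub, neg_eq_zero]
    refine hBB Val Val id (LV A) (hC.1 A) _ ?_
    rw [Grid_mem_sup]
    intro Y hY
    exact ⟨(Grid_mem_sup.1 hy Y hY).1.1, Set.injOn_id _⟩

theorem Grid_X0_card (A : Finset ℕ) : (X0 A).card = 2 * A.card := by
  unfold X0
  rw [card_union_of_disjoint, card_image_of_injective, card_image_of_injective]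
  · ring
  · intro i j h
    have := congrArg lab h
    exact this
  · intro i j h
    have := congrArg lab h
    exact this
  · rw [disjoint_left]
    intro v hv hw
    obtain ⟨i, _, rfl⟩ := mem_image.1 hv
    obtain ⟨j, _, h⟩ := mem_image.1 hw
    have h1 := congrArg lift h
    change (1 : ℕ) = 0 at h1
    omega

theorem Grid_eq_X0 {A : Finset ℕ} {K a : ℕ} {b : ℕ → ℕ} (hb : ∀ i ∈ A, b i ≤ 1)
    {X : Finset Val} (hX : Grid_P A K a b X) : X = X0 A := by
  obtain ⟨⟨⟨h1, h2⟩, _⟩, _, h4⟩ := hX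
  have h5 : ∀ v ∈ X, lift v ≤ 1 := fun v hv => (h4 v hv).trans (hb _ (h1 v hv))
  have h6 : ∀ i ∈ A, lifts X i = {0, 1} := by
    intro i hi
    have hle : ∀ k ∈ lifts X i, k ≤ 1 := by
      intro k hk
      obtain ⟨v, hv, rfl⟩ := mem_image.1 hk
      exact h5 v (mem_filter.1 hv).1
    obtain ⟨m, h | h⟩ := h2 i hi
    · have := hle (m + 1) (by rw [h]; simp)
      have hm : m = 0 := by omega
      rw [h, hm]
    · have := hle (m + 2) (by rw [h]; simp)
      omega
  have h7 : ∀ i ∈ A, ∀ k, k ∈ lifts X i → mk k i ∈ X := by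
    intro i _ k hk
    obtain ⟨v, hv, rfl⟩ := mem_image.1 hk
    obtain ⟨hv1, hv2⟩ := mem_filter.1 hv
    have : mk (lift v) i = v := by
      rw [← hv2]
      rfl
    rw [this]
    exact hv1
  ext v
  unfold X0
  rw [mem_union, mem_image, mem_image]
  constructor
  · intro hv
    have h8 := h5 v hv
    rcases Nat.le_one_iff_eq_zero_or_eq_one.1 h8 with h9 | h9
    · exact Or.inl ⟨lab v, h1 v hv, by rw [← h9]; rfl⟩
    · exact Or.inr ⟨lab v, h1 v hv, by rw [← h9]; rfl⟩
  · rintro (⟨i, hi, rfl⟩ | ⟨i, hi, rfl⟩)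
    · exact h7 i hi 0 (by rw [h6 i hi]; simp)
    · exact h7 i hi 1 (by rw [h6 i hi]; simp)

theorem Grid_main (hBB : StBB) (hC : StConv) (hE : StEta) (A : Finset ℕ) (K a : ℕ) :
    ∀ (n : ℕ) (b : ℕ → ℕ), (∀ i ∈ A, 1 ≤ b i) → ∑ i ∈ A, (b i - 1) = n → ∀ g : Ch Val,
    g ∈ sup (Grid_P A K a b) → bdG A g = 0 →
    ∃ y ∈ supc (GV A K) (a + 1), ∃ c : ℚ,
      g = bdG A y + c • Finsupp.single (X0 A) 1 ∧ (a ≠ 2 * A.card → c = 0) := by
  intro n
  induction n using Nat.strong_induction_on with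
  | _ n ih =>
    intro b hb hn g hg hg0
    by_cases hall : ∀ i ∈ A, b i ≤ 1
    · have h1 : ∀ X ∈ g.support, X = X0 A := fun X hX =>
        Grid_eq_X0 hall (Grid_mem_sup.1 hg X hX)
      refine ⟨0, Submodule.zero_mem _, g (X0 A), ?_, fun ha => ?_⟩
      · rw [map_zero, zero_add, Finsupp.smul_single, smul_eq_mul, mul_one]
        ext X
        by_cases hX : X = X0 A
        · rw [hX, Finsupp.single_eq_same]
        · rw [Finsupp.single_eq_of_ne hX]
          by_contra hcon
          exact hX (h1 X (Finsupp.mem_support_iff.2 hcon))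
      · by_contra hcon
        have h2 := Grid_mem_sup.1 hg _ (Finsupp.mem_support_iff.2 hcon)
        exact ha (h2.2.1.symm.trans (Grid_X0_card A))
    · push Not at hall
      obtain ⟨i, hi, h1⟩ := hall
      obtain ⟨M, hM⟩ : ∃ M, b i = M + 1 := ⟨b i - 1, by omega⟩
      have hM1 : 1 ≤ M := by omega
      obtain ⟨y, hy, hy1, hy2⟩ := Grid_step hBB hC hE A K a b i M hi hM1 hM g hg hg0
      have hsum : ∑ j ∈ A, (Function.update b i M j - 1) < n := by
        rw [← hn]
        refine sum_lt_sum (fun j _ => ?_) ⟨i, hi, ?_⟩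
        · by_cases hj : j = i
          · rw [hj, Function.update_self]
            omega
          · rw [Function.update_of_ne hj]
        · rw [Function.update_self]
          omega
      obtain ⟨y', hy', c, h2, h3⟩ := ih _ hsum (Function.update b i M) (fun j hj => by
        by_cases hj' : j = i
        · rw [hj', Function.update_self]
          exact hM1
        · rw [Function.update_of_ne hj']
          exact hb j hj) rfl _ hy1 hy2
      refine ⟨y + y', Submodule.add_mem _ hy hy', c, ?_, h3⟩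
      rw [map_add, add_assoc, ← h2]
      abel

theorem mod_Grid (hBB : StBB) (_hS : StSup) (hC : StConv) (hE : StEta) : StGrid := by
  intro A K a z hz hz0
  refine Grid_main hBB hC hE A K a _ (fun _ => K + 1) (fun _ _ => by omega) rfl z ?_ hz0
  rw [Grid_mem_sup]
  intro X hX
  have h1 := Grid_mem_sup.1 hz X hX
  exact ⟨h1.1, h1.2, fun v hv => (h1.1.2 v hv).le.trans (Nat.le_succ _)⟩

end Pool.Agent.Helper40.NF
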