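import Mathlib
import Pool.Agent.Helper40.NF.St

namespace Pool.Agent.Helper40.NF

open Finset

theorem Hs_mem_tl (j : ℕ) (F : Finset Pt) (v : Val) :
    v ∈ tl j F ↔ ∃ p ∈ F, j ≤ p.1 ∧ p.2 = v := by
  unfold tl im
  simp only [mem_image, mem_filter]
  constructor
  · rintro ⟨p, ⟨h1, h2⟩, h3⟩; exact ⟨p, h1, h2, h3⟩
  · rintro ⟨p, h1, h2, h3⟩; exact ⟨p, ⟨h1, h2⟩, h3⟩

theorem Hs_core (j : ℕ) (F : Finset Pt) (hM : Mono F) (h1 : ∀ p ∈ F, p.1 ≠ j)
    (h2 : (tl j F).Nonempty) :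
    Mono (insert (j, (tl j F).min' h2) F) ∧ im (insert (j, (tl j F).min' h2) F) = im F ∧
      (insert (j, (tl j F).min' h2) F).card = F.card + 1 ∧
      (∀ p ∈ insert (j, (tl j F).min' h2) F, ∃ q ∈ F, p.1 ≤ q.1) := by
  set v := (tl j F).min' h2 with hv
  have hvm : v ∈ tl j F := min'_mem _ _
  obtain ⟨r, hrF, hrj, hrv⟩ := (Hs_mem_tl j F v).1 hvm
  have hmin : ∀ p ∈ F, j ≤ p.1 → v ≤ p.2 := fun p hp hj =>
    min'_le _ _ ((Hs_mem_tl j F p.2).2 ⟨p, hp, hj, rfl⟩)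
  have hnot : (j, v) ∉ F := fun h => h1 _ h rfl
  refine ⟨⟨?_, ?_⟩, ?_, ?_, ?_⟩
  · intro p hp q hq hpq
    rcases mem_insert.1 hp with rfl | hp <;> rcases mem_insert.1 hq with rfl | hq
    · exact absurd hpq (lt_irrefl _)
    · exact hmin q hq (le_of_lt hpq)
    · have : p.1 < r.1 := lt_of_lt_of_le hpq hrj
      have := hM.1 p hp r hrF this
      rw [hrv] at this
      exact this
    · exact hM.1 p hp q hq hpq
  · intro p hp q hq hpq
    rcases mem_insert.1 hp with rfl | hp <;> rcases mem_insert.1 hq with rfl | hq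
    · rfl
    · exact absurd hpq.symm (h1 q hq)
    · exact absurd hpq (h1 p hp)
    · exact hM.2 p hp q hq hpq
  · unfold im
    rw [image_insert]
    apply insert_eq_of_mem
    rw [mem_image]
    exact ⟨r, hrF, hrv⟩
  · exact card_insert_of_notMem hnot
  · intro p hp
    rcases mem_insert.1 hp with rfl | hp
    · exact ⟨r, hrF, hrj⟩
    · exact ⟨p, hp, le_refl _⟩

theorem mod_Hs : StHs := by
  intro j F hM
  unfold HjF
  split_ifs with h
  · refine Finsupp.single_mem_supported ℚ _ ?_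
    exact Hs_core j F hM h.1 h.2
  · exact Submodule.zero_mem _

end Pool.Agent.Helper40.NF
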