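import Mathlib
import Pool.Agent.Helper40.NF.St
import Pool.Agent.Helper40.NF.M_Hs

namespace Pool.Agent.Helper40.NF

open Finset

theorem Hj_im_erase (F : Finset Pt) (p : Pt) (hp : p ∈ F) :
    im (F.erase p) = im F ↔ ∃ q ∈ F, q ≠ p ∧ q.2 = p.2 := by
  constructor
  · intro h
    have : p.2 ∈ im (F.erase p) := by
      rw [h]; unfold im; exact mem_image_of_mem _ hp
    unfold im at this
    obtain ⟨q, hq, h2⟩ := mem_image.1 this
    rw [mem_erase] at hq
    exact ⟨q, hq.2, hq.1, h2⟩
  · rintro ⟨q, hq, hne, h2⟩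
    unfold im
    ext w
    simp only [mem_image, mem_erase]
    constructor
    · rintro ⟨x, ⟨_, hx⟩, hw⟩; exact ⟨x, hx, hw⟩
    · rintro ⟨x, hx, hw⟩
      by_cases hxp : x = p
      · exact ⟨q, ⟨hne, hq⟩, by rw [h2, ← hxp]; exact hw⟩
      · exact ⟨x, ⟨hxp, hx⟩, hw⟩

theorem Hj_uniq (j : ℕ) (F : Finset Pt) (hM : Mono F) (hQ : Qj j F) (p : Pt) (hp : p ∈ F)
    (hj : p.1 < j) : ∀ q ∈ F, q.2 = p.2 → q = p := by
  obtain ⟨p', hp', h1, h2⟩ := hQ p.1 hj ⟨p, hp, le_refl _⟩
  have : p' = p := hM.2 p' hp' p hp h1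
  rw [this] at h2
  exact h2

theorem Hj_card (j : ℕ) (F : Finset Pt) (hM : Mono F) (hQ : Qj j F) (hex : ∃ p ∈ F, j ≤ p.1) :
    (F.filter (fun y => y.1 < j)).card = j := by
  have h1 : (F.filter (fun y => y.1 < j)).image Prod.fst = range j := by
    ext t
    simp only [mem_image, mem_filter, mem_range]
    constructor
    · rintro ⟨x, ⟨_, h⟩, rfl⟩; exact h
    · intro ht
      obtain ⟨q, hq, hqj⟩ := hex
      obtain ⟨p, hp, h1, _⟩ := hQ t ht ⟨q, hq, by omega⟩
      exact ⟨p, ⟨hp, by omega⟩, h1⟩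
  have h2 : ((F.filter (fun y => y.1 < j)).image Prod.fst).card =
      (F.filter (fun y => y.1 < j)).card := by
    apply card_image_of_injOn
    intro x hx y hy hxy
    have hx' := (mem_filter.1 (mem_coe.1 hx)).1
    have hy' := (mem_filter.1 (mem_coe.1 hy)).1
    exact hM.2 x hx' y hy' hxy
  rw [← h2, h1, card_range]

theorem Hj_HjF_zero (j : ℕ) (F : Finset Pt)
    (h : ¬ ((∀ p ∈ F, p.1 ≠ j) ∧ (tl j F).Nonempty)) : HjF j F = 0 := by
  unfold HjF; rw [dif_neg h]

theorem Hj_HjF_eq (j : ℕ) (F : Finset Pt) (v : Val) (h1 : ∀ p ∈ F, p.1 ≠ j)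
    (h2 : ∃ p ∈ F, j ≤ p.1 ∧ p.2 = v) (h3 : ∀ p ∈ F, j ≤ p.1 → v ≤ p.2) :
    HjF j F = Finsupp.single (insert (j, v) F) ((-1) ^ j) := by
  have hv : v ∈ tl j F := (Hs_mem_tl j F v).2 h2
  have hne : (tl j F).Nonempty := ⟨v, hv⟩
  have hmin : (tl j F).min' hne = v := by
    apply le_antisymm
    · exact min'_le _ _ hv
    · apply le_min'
      intro w hw
      obtain ⟨p, hp, hpj, hpw⟩ := (Hs_mem_tl j F w).1 hw
      rw [← hpw]; exact h3 p hp hpj
  unfold HjF
  rw [dif_pos ⟨h1, hne⟩]
  rw [hmin]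

theorem Hj_apply (j : ℕ) (G : Finset Pt) (c : ℚ) :
    Hj j (Finsupp.single G c) = c • HjF j G := by
  unfold Hj
  rw [Finsupp.linearCombination_single]

theorem Hj_bd0_apply (G : Finset Pt) (c : ℚ) :
    bd0 (Finsupp.single G c) = c • bd0F G := by
  unfold bd0
  rw [Finsupp.linearCombination_single]

open Classical in
theorem Hj_bd0F (j : ℕ) (F : Finset Pt) :
    Hj j (bd0F F) = ∑ p ∈ F, if im (F.erase p) = im F then
      (sg (Prod.fst : Pt → ℕ) F p) • HjF j (F.erase p) else 0 := by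
  unfold bd0F
  rw [map_sum]
  apply sum_congr rfl
  intro p _
  split_ifs
  · rw [Hj_apply]
  · exact map_zero _

/-- the target -/
abbrev HjT (j : ℕ) (F G : Finset Pt) : Prop :=
  Mono G ∧ im G = im F ∧ G.card = F.card ∧ (∀ p ∈ G, ∃ q ∈ F, p.1 ≤ q.1) ∧ Qj (j + 1) G

theorem Hj_self (j : ℕ) (F : Finset Pt) (hM : Mono F) (hQ : Qj (j + 1) F) :
    Finsupp.single F (1 : ℚ) ∈ sup (HjT j F) :=
  Finsupp.single_mem_supported ℚ _ ⟨hM, rfl, rfl, fun p hp => ⟨p, hp, le_refl _⟩, hQ⟩

/-- no slot from `j` on is used -/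
theorem Hj_caseA (j : ℕ) (F : Finset Pt) (hM : Mono F) (hQ : Qj j F) (hA : ∀ p ∈ F, p.1 < j) :
    Finsupp.single F 1 - bd0 (HjF j F) - Hj j (bd0F F) ∈ sup (HjT j F) := by
  have h1 : HjF j F = 0 := by
    apply Hj_HjF_zero
    rintro ⟨_, h⟩
    obtain ⟨v, hv⟩ := h
    obtain ⟨p, hp, hpj, _⟩ := (Hs_mem_tl j F v).1 hv
    have := hA p hp
    omega
  have h2 : Hj j (bd0F F) = 0 := by
    rw [Hj_bd0F]
    apply sum_eq_zero
    intro p hp
    rw [if_neg]
    rw [Hj_im_erase F p hp]
    rintro ⟨q, hq, hne, h⟩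
    exact hne (Hj_uniq j F hM hQ p hp (hA p hp) q hq h)
  rw [h1, h2, map_zero, sub_zero, sub_zero]
  apply Hj_self j F hM
  intro t _ ⟨p, hp, htp⟩
  have := hA p hp
  exact hQ t (by omega) ⟨p, hp, htp⟩

/-- the slot `j` is used -/
theorem Hj_caseC (j : ℕ) (F : Finset Pt) (hM : Mono F) (hQ : Qj j F) (r : Pt) (hr : r ∈ F)
    (hrj : r.1 = j) :
    Finsupp.single F 1 - bd0 (HjF j F) - Hj j (bd0F F) ∈ sup (HjT j F) := by
  classical
  have h1 : HjF j F = 0 := by
    apply Hj_HjF_zero
    rintro ⟨h, _⟩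
    exact h r hr hrj
  have hz : ∀ p ∈ F, p ≠ r → HjF j (F.erase p) = 0 := by
    intro p hp hpr
    apply Hj_HjF_zero
    rintro ⟨h, _⟩
    exact h r (mem_erase.2 ⟨fun h => hpr h.symm, hr⟩) hrj
  rw [h1, map_zero, sub_zero]
  by_cases hu : ∃ q ∈ F, q ≠ r ∧ q.2 = r.2
  · have h2 : Hj j (bd0F F) = Finsupp.single F 1 := by
      rw [Hj_bd0F, sum_eq_single r]
      · rw [if_pos ((Hj_im_erase F r hr).2 hu)]
        obtain ⟨q, hq, hqr, hqv⟩ := hu
        have hqj : j ≤ q.1 := by
          by_contra hlt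
          exact hqr (Hj_uniq j F hM hQ q hq (by omega) r hr hqv.symm).symm
        rw [Hj_HjF_eq j (F.erase r) r.2]
        · have hins : insert (j, r.2) (F.erase r) = F := by
            have : (j, r.2) = r := by rw [← hrj]
            rw [this, insert_erase hr]
          rw [hins]
          unfold sg
          have hc : (F.filter (fun y => (Prod.fst : Pt → ℕ) y < (Prod.fst : Pt → ℕ) r)).card = j := by
            have := Hj_card j F hM hQ ⟨r, hr, by omega⟩
            rw [← hrj] at this ⊢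
            exact this
          rw [hc, Finsupp.smul_single, smul_eq_mul, ← mul_pow]
          norm_num
        · intro p hp hpj
          rw [mem_erase] at hp
          exact hp.1 (hM.2 p hp.2 r hr (by omega))
        · exact ⟨q, mem_erase.2 ⟨hqr, hq⟩, hqj, hqv⟩
        · intro p hp hpj
          rw [mem_erase] at hp
          rcases lt_or_eq_of_le hpj with h | h
          · exact hM.1 r hr p hp.2 (by omega)
          · exact absurd (hM.2 p hp.2 r hr (by omega)) hp.1
      · intro p hp hpr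
        rw [hz p hp hpr, smul_zero, ite_self]
      · intro h; exact absurd hr h
    rw [h2, sub_self]
    exact Submodule.zero_mem _
  · have h2 : Hj j (bd0F F) = 0 := by
      rw [Hj_bd0F]
      apply sum_eq_zero
      intro p hp
      by_cases hpr : p = r
      · rw [if_neg]
        rw [hpr, Hj_im_erase F r hr]
        exact hu
      · rw [hz p hp hpr, smul_zero, ite_self]
    rw [h2, sub_zero]
    apply Hj_self j F hM
    intro t ht hex
    rcases Nat.lt_succ_iff_lt_or_eq.1 ht with h | h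
    · exact hQ t h hex
    · refine ⟨r, hr, by omega, ?_⟩
      intro q hq hqv
      by_contra hne
      exact hu ⟨q, hq, hne, hqv⟩

/-- the slot `j` is free, a later slot is used -/
theorem Hj_caseB (j : ℕ) (F : Finset Pt) (hM : Mono F) (hQ : Qj j F) (hfree : ∀ p ∈ F, p.1 ≠ j)
    (hne : (tl j F).Nonempty) :
    Finsupp.single F 1 - bd0 (HjF j F) - Hj j (bd0F F) ∈ sup (HjT j F) := by
  classical
  set v := (tl j F).min' hne with hv
  obtain ⟨cM, cI, cC, cS⟩ := Hs_core j F hM hfree hne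
  rw [← hv] at cM cI cC cS
  have hvm : v ∈ tl j F := min'_mem _ _
  obtain ⟨r, hrF, hrj, hrv⟩ := (Hs_mem_tl j F v).1 hvm
  have hmin : ∀ p ∈ F, j ≤ p.1 → v ≤ p.2 := fun p hp hj =>
    min'_le _ _ ((Hs_mem_tl j F p.2).2 ⟨p, hp, hj, rfl⟩)
  have hnot : (j, v) ∉ F := fun h => hfree _ h rfl
  set G := insert (j, v) F with hG
  have hH : HjF j F = Finsupp.single G ((-1) ^ j) :=
    Hj_HjF_eq j F v hfree ⟨r, hrF, hrj, hrv⟩ hmin
  -- the face (j, v)
  have hsg : sg (Prod.fst : Pt → ℕ) G (j, v) = (-1) ^ j := by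
    unfold sg
    have h1 : G.filter (fun y => (Prod.fst : Pt → ℕ) y < (Prod.fst : Pt → ℕ) (j, v)) =
        F.filter (fun y => y.1 < j) := by
      rw [hG, filter_insert, if_neg (lt_irrefl _)]
    rw [h1, Hj_card j F hM hQ ⟨r, hrF, hrj⟩]
  have hGe : G.erase (j, v) = F := by rw [hG, erase_insert hnot]
  have hbd : bd0 (HjF j F) = Finsupp.single F 1 + ∑ p ∈ F, ((-1 : ℚ) ^ j) •
      (if im (G.erase p) = im G then
        Finsupp.single (G.erase p) (sg (Prod.fst : Pt → ℕ) G p) else 0) := by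
    rw [hH, Hj_bd0_apply, bd0F, hG, sum_insert hnot, ← hG, hGe, if_pos cI.symm, hsg, smul_add,
      smul_sum, Finsupp.smul_single, smul_eq_mul, ← mul_pow]
    norm_num
  rw [hbd, Hj_bd0F, sub_add_cancel_left, sub_eq_add_neg, ← neg_add, ← sum_add_distrib]
  apply Submodule.neg_mem
  apply Submodule.sum_mem
  intro p hp
  have hpne : p ≠ (j, v) := fun h => hnot (h ▸ hp)
  have hpG : p ∈ G := mem_insert_of_mem hp
  rcases lt_or_gt_of_ne (hfree p hp) with hlt | hgt
  · -- slots before `j`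
    have huq := Hj_uniq j F hM hQ p hp hlt
    have hpv : p.2 ≠ v := by
      intro h
      have : r = p := huq r hrF (by rw [hrv, h])
      rw [this] at hrj
      omega
    rw [if_neg, if_neg, smul_zero, add_zero]
    · exact Submodule.zero_mem _
    · rw [Hj_im_erase F p hp]
      rintro ⟨q, hq, hqne, h⟩
      exact hqne (huq q hq h)
    · rw [Hj_im_erase G p hpG]
      rintro ⟨q, hq, hqne, h⟩
      rcases mem_insert.1 hq with rfl | hq
      · exact hpv h.symm
      · exact hqne (huq q hq h)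
  · by_cases hu : ∃ q ∈ F, q ≠ p ∧ q.2 = p.2
    · -- non unique value: cancellation
      have huG : ∃ q ∈ G, q ≠ p ∧ q.2 = p.2 := by
        obtain ⟨q, hq, h⟩ := hu; exact ⟨q, mem_insert_of_mem hq, h⟩
      rw [if_pos ((Hj_im_erase F p hp).2 hu), if_pos ((Hj_im_erase G p hpG).2 huG)]
      obtain ⟨q, hq, hqp, hqv⟩ := hu
      have hqj : j ≤ q.1 := by
        by_contra hlt
        exact hqp (Hj_uniq j F hM hQ q hq (by omega) p hp hqv.symm).symm
      have hins : insert (j, v) (F.erase p) = G.erase p := by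
        rw [hG, erase_insert_of_ne (fun h => hpne h.symm)]
      rw [Hj_HjF_eq j (F.erase p) v, hins]
      · have hs : sg (Prod.fst : Pt → ℕ) G p = - sg (Prod.fst : Pt → ℕ) F p := by
          unfold sg
          have h1 : G.filter (fun y => (Prod.fst : Pt → ℕ) y < (Prod.fst : Pt → ℕ) p) =
              insert (j, v) (F.filter (fun y => (Prod.fst : Pt → ℕ) y < (Prod.fst : Pt → ℕ) p)) := by
            rw [hG, filter_insert, if_pos hgt]
          rw [h1, card_insert_of_notMem, pow_succ]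
          · ring
          · intro h; exact hnot (mem_filter.1 h).1
        rw [hs, Finsupp.smul_single, Finsupp.smul_single, smul_eq_mul, smul_eq_mul,
          ← Finsupp.single_add]
        have : (-1 : ℚ) ^ j * -sg (Prod.fst : Pt → ℕ) F p + sg (Prod.fst : Pt → ℕ) F p * (-1) ^ j
            = 0 := by ring
        rw [this, Finsupp.single_zero]
        exact Submodule.zero_mem _
      · intro x hx
        exact hfree x (mem_erase.1 hx).2
      · by_cases hrp : r = p
        · exact ⟨q, mem_erase.2 ⟨hqp, hq⟩, hqj, by rw [hqv, ← hrp, hrv]⟩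
        · exact ⟨r, mem_erase.2 ⟨hrp, hrF⟩, hrj, hrv⟩
      · intro x hx
        exact hmin x (mem_erase.1 hx).2
    · -- unique value
      rw [if_neg (fun h => hu ((Hj_im_erase F p hp).1 h)), add_zero]
      split_ifs with him
      · apply Submodule.smul_mem
        have hpv : p.2 = v := by
          obtain ⟨q, hq, hqp, hqv⟩ := (Hj_im_erase G p hpG).1 him
          rcases mem_insert.1 hq with rfl | hq
          · exact hqv.symm
          · exact absurd ⟨q, hq, hqp, hqv⟩ hu
        refine Finsupp.single_mem_supported ℚ _ ⟨⟨?_, ?_⟩, ?_, ?_, ?_, ?_⟩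
        · intro x hx y hy
          exact cM.1 x (mem_erase.1 hx).2 y (mem_erase.1 hy).2
        · intro x hx y hy
          exact cM.2 x (mem_erase.1 hx).2 y (mem_erase.1 hy).2
        · rw [him, cI]
        · rw [card_erase_of_mem hpG, cC]; omega
        · intro x hx
          exact cS x (mem_erase.1 hx).2
        · intro t ht hex
          rcases Nat.lt_succ_iff_lt_or_eq.1 ht with h | h
          · obtain ⟨x, hx, hxt, hxu⟩ := hQ t h ⟨r, hrF, by omega⟩
            have hxp : x ≠ p := by rintro rfl; omega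
            refine ⟨x, mem_erase.2 ⟨hxp, mem_insert_of_mem hx⟩, hxt, ?_⟩
            intro y hy hyv
            rw [mem_erase] at hy
            rcases mem_insert.1 hy.2 with rfl | hyF
            · exfalso
              have : r = x := hxu r hrF (by rw [hrv]; exact hyv)
              rw [this] at hrj
              omega
            · exact hxu y hyF hyv
          · refine ⟨(j, v), mem_erase.2 ⟨fun h => hpne h.symm, mem_insert_self _ _⟩, by simp [h], ?_⟩
            intro y hy hyv
            rw [mem_erase] at hy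
            rcases mem_insert.1 hy.2 with rfl | hyF
            · rfl
            · exfalso
              exact hu ⟨y, hyF, hy.1, by rw [hyv, hpv]⟩
      · rw [smul_zero]; exact Submodule.zero_mem _

theorem mod_Hj : StHj := by
  intro j F hM hQ
  by_cases hA : ∀ p ∈ F, p.1 < j
  · exact Hj_caseA j F hM hQ hA
  · push Not at hA
    obtain ⟨r, hr, hrj⟩ := hA
    by_cases hC : ∃ r ∈ F, r.1 = j
    · obtain ⟨r, hr, hrj⟩ := hC
      exact Hj_caseC j F hM hQ r hr hrj
    · push Not at hC
      exact Hj_caseB j F hM hQ hC ⟨r.2, (Hs_mem_tl j F r.2).2 ⟨r, hr, hrj, rfl⟩⟩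

end Pool.Agent.Helper40.NF
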