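import Mathlib
import Pool.Agent.Helper40.NF.St

/-! Module K: the kernel of the projection to the grid complex is acyclic. -/

namespace Pool.Agent.Helper40.NF

open Finset

/-! ### Linear tools -/

theorem K_ind {α M : Type} [AddCommGroup M] [Module ℚ M] {P : Finset α → Prop}
    (f : Ch α →ₗ[ℚ] M) (S : Submodule ℚ M) (h : ∀ F, P F → f (Finsupp.single F 1) ∈ S)
    {z : Ch α} (hz : z ∈ sup P) : f z ∈ S := by
  have h1 : sup P ≤ S.comap f := by
    rw [sup, Finsupp.supported_eq_span_single, Submodule.span_le]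
    rintro _ ⟨F, hF, rfl⟩
    exact h F hF
  exact h1 hz

theorem K_eq {α M : Type} [AddCommGroup M] [Module ℚ M] {P : Finset α → Prop}
    (f g : Ch α →ₗ[ℚ] M) (h : ∀ F, P F → f (Finsupp.single F 1) = g (Finsupp.single F 1))
    {z : Ch α} (hz : z ∈ sup P) : f z = g z := by
  have h1 := K_ind (f - g) ⊥ (fun F hF => by
    rw [Submodule.mem_bot, LinearMap.sub_apply, h F hF, sub_self]) hz
  rw [Submodule.mem_bot, LinearMap.sub_apply] at h1
  exact sub_eq_zero.1 h1

theorem K_single {α : Type} {P : Finset α → Prop} {F : Finset α} (c : ℚ) (h : P F) :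
    (Finsupp.single F c : Ch α) ∈ sup P := Finsupp.single_mem_supported ℚ c h

theorem K_mono {α : Type} {P Q : Finset α → Prop} (h : ∀ F, P F → Q F) {z : Ch α}
    (hz : z ∈ sup P) : z ∈ sup Q :=
  Finsupp.supported_mono (fun F hF => h F hF) hz

theorem K_mem {α : Type} {P : Finset α → Prop} {z : Ch α} :
    z ∈ sup P ↔ ∀ F, z F ≠ 0 → P F := by
  rw [sup, Finsupp.mem_supported]
  constructor
  · intro h F hF
    exact h (Finset.mem_coe.2 (Finsupp.mem_support_iff.2 hF))
  · intro h F hF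
    exact h F (Finsupp.mem_support_iff.1 (Finset.mem_coe.1 hF))

/-! ### Values on cells -/

open Classical in
theorem K_bdA_single (A : Finset ℕ) (F : Finset Pt) : bdA A (Finsupp.single F 1) =
    ∑ p ∈ F, if LV A (im (F.erase p)) then
      Finsupp.single (F.erase p) (sg (Prod.fst : Pt → ℕ) F p) else 0 := by
  rw [bdA, bd, Finsupp.linearCombination_single, one_smul]
  rfl

theorem K_bd0_single (F : Finset Pt) : bd0 (Finsupp.single F 1) = bd0F F := by
  rw [bd0, Finsupp.linearCombination_single, one_smul]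

theorem K_Hj_single (j : ℕ) (F : Finset Pt) : Hj j (Finsupp.single F 1) = HjF j F := by
  rw [Hj, Finsupp.linearCombination_single, one_smul]

theorem K_prj_single (F : Finset Pt) : prj (Finsupp.single F 1) = prjF F := by
  rw [prj, Finsupp.linearCombination_single, one_smul]

/-- the part of a chain with images of cardinality `q` -/
noncomputable def K_flt (q : ℕ) : Ch Pt →ₗ[ℚ] Ch Pt where
  toFun z := z.filter (fun F => (im F).card = q)
  map_add' _ _ := Finsupp.filter_add
  map_smul' _ _ := Finsupp.filter_smul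

theorem K_flt_apply (q : ℕ) (z : Ch Pt) (F : Finset Pt) :
    K_flt q z F = if (im F).card = q then z F else 0 := by
  show (z.filter (fun F => (im F).card = q)) F = _
  rw [Finsupp.filter_apply]

theorem K_flt_pos {q : ℕ} {F : Finset Pt} (c : ℚ) (h : (im F).card = q) :
    K_flt q (Finsupp.single F c) = Finsupp.single F c := by
  show (Finsupp.single F c).filter (fun F => (im F).card = q) = _
  exact Finsupp.filter_single_of_pos _ h

theorem K_flt_neg {q : ℕ} {F : Finset Pt} (c : ℚ) (h : (im F).card ≠ q) :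
    K_flt q (Finsupp.single F c) = 0 := by
  show (Finsupp.single F c).filter (fun F => (im F).card = q) = _
  exact Finsupp.filter_single_of_neg _ h

theorem K_im_sub (F : Finset Pt) (p : Pt) : im (F.erase p) ⊆ im F :=
  image_subset_image (erase_subset _ _)

theorem K_im_card_lt {F : Finset Pt} {p : Pt} (h : im (F.erase p) ≠ im F) :
    (im (F.erase p)).card < (im F).card :=
  card_lt_card ((K_im_sub F p).ssubset_of_ne h)

section

variable {A : Finset ℕ} {K N : ℕ}

/-- the top part of the boundary -/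
theorem K_top {q : ℕ} {z : Ch Pt}
    (hz : z ∈ sup (fun F => MC (GV A K) N F ∧ (im F).card ≤ q)) :
    K_flt q (bdA A z) = bd0 (K_flt q z) := by
  classical
  refine K_eq (K_flt q ∘ₗ bdA A) (bd0 ∘ₗ K_flt q) (fun F hF => ?_) hz
  rw [LinearMap.comp_apply, LinearMap.comp_apply, K_bdA_single, map_sum]
  by_cases hq : (im F).card = q
  · rw [K_flt_pos _ hq, K_bd0_single, bd0F]
    refine Finset.sum_congr rfl fun p hp => ?_
    by_cases he : im (F.erase p) = im F
    · have hLV : LV A (im (F.erase p)) := by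
        rw [he]
        exact hF.1.2.2.2.1
      rw [if_pos hLV, if_pos he, K_flt_pos _ (by rw [he, hq])]
    · rw [if_neg he]
      split_ifs
      · exact K_flt_neg _ (by have := K_im_card_lt he; omega)
      · exact map_zero _
  · rw [K_flt_neg _ hq, map_zero]
    refine Finset.sum_eq_zero fun p hp => ?_
    split_ifs
    · have h1 := card_le_card (K_im_sub F p)
      have h2 := hF.2
      exact K_flt_neg _ (by omega)
    · exact map_zero _

/-- the boundary preserves the class of cells -/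
theorem K_bd (hC : StConv) {a q : ℕ} {z : Ch Pt}
    (hz : z ∈ sup (fun F => MC (GV A K) N F ∧ F.card = a + 1 ∧ (im F).card ≤ q)) :
    bdA A z ∈ sup (fun F => MC (GV A K) N F ∧ F.card = a ∧ (im F).card ≤ q) := by
  classical
  refine K_ind (bdA A) _ (fun F hF => ?_) hz
  rw [K_bdA_single]
  refine Submodule.sum_mem _ fun p hp => ?_
  split_ifs with hLV
  · refine K_single _ ⟨hC.2.2.1 A K N F hF.1 p hp hLV, ?_, ?_⟩
    · rw [card_erase_of_mem hp, hF.2.1]
      rfl
    · exact (card_le_card (K_im_sub F p)).trans hF.2.2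
  · exact Submodule.zero_mem _

theorem K_BB (hBB : StBB) (hC : StConv) {z : Ch Pt} (hz : z ∈ sup (MC (GV A K) N)) :
    bdA A (bdA A z) = 0 := by
  refine hBB Pt ℕ Prod.fst (fun F => LV A (im F)) (hC.2.1 A) z (K_mono (fun F hF => ?_) hz)
  exact ⟨hF.2.2.2.1, fun p hp q hq h => hF.2.2.1 p hp q hq h⟩

theorem K_flt_self {q : ℕ} {z : Ch Pt} (hz : z ∈ sup (fun F => (im F).card = q)) :
    K_flt q z = z :=
  K_eq (K_flt q) LinearMap.id (fun _ hF => K_flt_pos _ hF) hz

theorem K_flt_mem {q : ℕ} {P : Finset Pt → Prop} {z : Ch Pt} (hz : z ∈ sup P) :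
    K_flt q z ∈ sup (fun F => P F ∧ (im F).card = q) := by
  refine K_ind (K_flt q) _ (fun F hF => ?_) hz
  by_cases hq : (im F).card = q
  · rw [K_flt_pos _ hq]
    exact K_single _ ⟨hF, hq⟩
  · rw [K_flt_neg _ hq]
    exact Submodule.zero_mem _

/-- the top part of the boundary of a homogeneous chain -/
theorem K_bd0_eq {q : ℕ} {y : Ch Pt}
    (hy : y ∈ sup (fun F => MC (GV A K) N F ∧ (im F).card = q)) :
    bd0 y = K_flt q (bdA A y) := by
  rw [K_top (K_mono (fun F hF => ⟨hF.1, hF.2.le⟩) hy), K_flt_self (K_mono (fun F hF => hF.2) hy)]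

theorem K_bd0_bd0 (hBB : StBB) (hC : StConv) {a q : ℕ} {y : Ch Pt}
    (hy : y ∈ sup (fun F => MC (GV A K) N F ∧ F.card = a + 1 ∧ (im F).card = q)) :
    bd0 (bd0 y) = 0 := by
  have h1 : bdA A y ∈ sup (fun F => MC (GV A K) N F ∧ F.card = a ∧ (im F).card ≤ q) :=
    K_bd hC (K_mono (fun F hF => ⟨hF.1, hF.2.1, hF.2.2.le⟩) hy)
  rw [K_bd0_eq (K_mono (fun F hF => ⟨hF.1, hF.2.2⟩) hy),
    ← K_top (K_mono (fun F hF => ⟨hF.1, hF.2.2⟩) h1),
    K_BB hBB hC (K_mono (fun F hF => hF.1) hy), map_zero]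

theorem K_prj_zero {z : Ch Pt} (hz : z ∈ sup (fun F => (im F).card ≠ F.card)) : prj z = 0 :=
  K_eq prj 0 (fun F hF => by
    rw [K_prj_single, prjF, if_neg hF]
    rfl) hz

theorem K_prj_flt {a q : ℕ} {z : Ch Pt} (hz : z ∈ sup (fun F => F.card = a)) (h : prj z = 0) :
    prj (K_flt q z) = 0 := by
  by_cases hq : q = a
  · subst hq
    have h1 : prj (K_flt q z) = prj z :=
      K_eq (prj ∘ₗ K_flt q) prj (fun F hF => by
        rw [LinearMap.comp_apply]
        by_cases hc : (im F).card = q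
        · rw [K_flt_pos _ hc]
        · rw [K_flt_neg _ hc, map_zero, K_prj_single, prjF, if_neg]
          rw [hF]
          exact hc) hz
    rw [h1, h]
  · refine K_prj_zero (K_mono (fun F hF => ?_) (K_flt_mem (q := q) hz))
    rw [hF.1, hF.2]
    exact hq

/-! ### Packed cells -/

theorem K_packed {F : Finset Pt} (hF : MC (GV A K) N F) (hQ : Qj N F) :
    (im F).card = F.card ∧ pkF (im F) = F := by
  obtain ⟨h1, h2, h3, -⟩ := hF
  -- values are unique
  have hu : ∀ p ∈ F, ∀ q ∈ F, q.2 = p.2 → q = p := by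
    intro p hp q hq hqp
    obtain ⟨p', hp', hp1, hp2⟩ := hQ p.1 (h1 p hp) ⟨p, hp, le_rfl⟩
    have hpp : p' = p := h3 p' hp' p hp hp1
    subst hpp
    exact hp2 q hq hqp
  have hcard : (im F).card = F.card := by
    rw [im, card_image_iff]
    intro p hp q hq h
    exact (hu q hq p hp h)
  -- the rank of a value is the slot
  have hr : ∀ p ∈ F, ((im F).filter (· < p.2)).card = p.1 := by
    intro p hp
    have e1 : (im F).filter (· < p.2) = (F.filter (fun q => q.1 < p.1)).image Prod.snd := by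
      ext v
      simp only [im, mem_filter, mem_image]
      constructor
      · rintro ⟨⟨q, hq, rfl⟩, hv⟩
        refine ⟨q, ⟨hq, ?_⟩, rfl⟩
        by_contra hno
        rcases eq_or_lt_of_le (not_lt.1 hno) with h | h
        · have := h3 p hp q hq h
          subst this
          exact lt_irrefl _ hv
        · exact absurd hv (not_lt.2 (h2 p hp q hq h))
      · rintro ⟨q, ⟨hq, hlt⟩, rfl⟩
        refine ⟨⟨q, hq, rfl⟩, lt_of_le_of_ne (h2 q hq p hp hlt) fun h => ?_⟩
        have := hu p hp q hq h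
        subst this
        exact lt_irrefl _ hlt
    have e2 : (F.filter (fun q => q.1 < p.1)).image Prod.fst = range p.1 := by
      ext t
      simp only [mem_filter, mem_image, mem_range]
      constructor
      · rintro ⟨q, ⟨_, hlt⟩, rfl⟩
        exact hlt
      · intro ht
        obtain ⟨q, hq, hq1, -⟩ := hQ t (ht.trans (h1 p hp)) ⟨p, hp, ht.le⟩
        exact ⟨q, ⟨hq, by rw [hq1]; exact ht⟩, hq1⟩
    have e3 := congrArg card e2
    rw [card_image_of_injOn (fun q hq q' hq' h => by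
      rw [mem_coe, mem_filter] at hq hq'
      exact h3 q hq.1 q' hq'.1 h), card_range] at e3
    rw [e1, card_image_of_injOn (fun q hq q' hq' h => by
      rw [mem_coe, mem_filter] at hq hq'
      exact hu q' hq'.1 q hq.1 h)]
    exact e3
  refine ⟨hcard, ?_⟩
  ext p
  rw [pkF, mem_image]
  constructor
  · rintro ⟨v, hv, rfl⟩
    rw [im, mem_image] at hv
    obtain ⟨q, hq, rfl⟩ := hv
    rw [hr q hq]
    exact hq
  · intro hp
    refine ⟨p.2, mem_image_of_mem _ hp, ?_⟩
    rw [hr p hp]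

theorem K_base {w : Ch Pt} (hw : w ∈ sup (fun F => MC (GV A K) N F ∧ Qj N F))
    (h : prj w = 0) : w = 0 := by
  have h1 : pk (prj w) = w := K_eq (pk ∘ₗ prj) LinearMap.id (fun F hF => by
    obtain ⟨h2, h3⟩ := K_packed hF.1 hF.2
    rw [LinearMap.comp_apply, K_prj_single, prjF, if_pos h2, pk, Finsupp.lmapDomain_apply,
      Finsupp.mapDomain_single, h3]
    rfl) hw
  rw [← h1, h, map_zero]

/-- the image preserving part is acyclic on the kernel of `prj` -/
theorem K_sub (hPi : StPi) (hHs : StHs) (hHj : StHj) (hBB : StBB) (hC : StConv) (a q : ℕ) :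
    ∀ i ≤ N, ∀ w : Ch Pt,
      w ∈ sup (fun F => (MC (GV A K) N F ∧ F.card = a ∧ (im F).card = q) ∧ Qj (N - i) F) →
      bd0 w = 0 → prj w = 0 →
      ∃ y ∈ sup (fun F => MC (GV A K) N F ∧ F.card = a + 1 ∧ (im F).card = q), bd0 y = w := by
  intro i
  induction i with
  | zero =>
    intro _ w hw _ hp
    have h0 : w = 0 := K_base (K_mono (fun F hF => ⟨hF.1.1, hF.2⟩) hw) hp
    exact ⟨0, Submodule.zero_mem _, by rw [map_zero, h0]⟩
  | succ i ih =>
    intro hi w hw hb hp
    set j := N - (i + 1) with hj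
    have hj1 : N - i = j + 1 := by omega
    -- the homotopy
    have hy0 : Hj j w ∈
        sup (fun F => MC (GV A K) N F ∧ F.card = a + 1 ∧ (im F).card = q) := by
      refine K_ind (Hj j) _ (fun F hF => ?_) hw
      rw [K_Hj_single]
      refine K_mono (fun G hG => ?_) (hHs j F ⟨hF.1.1.2.1, hF.1.1.2.2.1⟩)
      obtain ⟨g1, g2, g3, g4⟩ := hG
      refine ⟨⟨fun p hp => ?_, g1.1, g1.2, by rw [g2]; exact hF.1.1.2.2.2⟩,
        by rw [g3, hF.1.2.1], by rw [g2, hF.1.2.2]⟩
      obtain ⟨r, hr, hr1⟩ := g4 p hp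
      exact hr1.trans_lt (hF.1.1.1 r hr)
    have hw1 : w - bd0 (Hj j w) - Hj j (bd0 w) ∈
        sup (fun F => (MC (GV A K) N F ∧ F.card = a ∧ (im F).card = q) ∧ Qj (j + 1) F) := by
      refine K_ind (LinearMap.id - bd0 ∘ₗ Hj j - Hj j ∘ₗ bd0) _ (fun F hF => ?_) hw
      rw [LinearMap.sub_apply, LinearMap.sub_apply, LinearMap.id_apply, LinearMap.comp_apply,
        LinearMap.comp_apply, K_Hj_single, K_bd0_single]
      refine K_mono (fun G hG => ?_) (hHj j F ⟨hF.1.1.2.1, hF.1.1.2.2.1⟩ hF.2)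
      obtain ⟨g1, g2, g3, g4, g5⟩ := hG
      refine ⟨⟨⟨fun p hp => ?_, g1.1, g1.2, by rw [g2]; exact hF.1.1.2.2.2⟩,
        by rw [g3, hF.1.2.1], by rw [g2, hF.1.2.2]⟩, g5⟩
      obtain ⟨r, hr, hr1⟩ := g4 p hp
      exact hr1.trans_lt (hF.1.1.1 r hr)
    rw [hb, map_zero, sub_zero] at hw1
    have hbb : bd0 (bd0 (Hj j w)) = 0 := K_bd0_bd0 hBB hC hy0
    have hpb : prj (bd0 (Hj j w)) = 0 := by
      rw [K_bd0_eq (K_mono (fun F hF => ⟨hF.1, hF.2.2⟩) hy0)]
      by_cases hq : q = a
      · subst hq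
        have h1 : bdA A (Hj j w) ∈
            sup (fun F => MC (GV A K) N F ∧ F.card = q ∧ (im F).card ≤ q) :=
          K_bd hC (K_mono (fun F hF => ⟨hF.1, hF.2.1, hF.2.2.le⟩) hy0)
        refine K_prj_flt (K_mono (fun F hF => hF.2.1) h1) ?_
        rw [hPi.1 A K N _ (K_mono (fun F hF => hF.1) hy0),
          K_prj_zero (K_mono (fun F hF => ?_) hy0), map_zero]
        rw [hF.2.1, hF.2.2]
        omega
      · have h1 : bdA A (Hj j w) ∈
            sup (fun F => MC (GV A K) N F ∧ F.card = a ∧ (im F).card ≤ q) :=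
          K_bd hC (K_mono (fun F hF => ⟨hF.1, hF.2.1, hF.2.2.le⟩) hy0)
        refine K_prj_zero (K_mono (fun F hF => ?_) (K_flt_mem (q := q) h1))
        rw [hF.1.2.1, hF.2]
        exact hq
    obtain ⟨y1, hy1, hy1w⟩ := ih (by omega) (w - bd0 (Hj j w)) (by rw [hj1]; exact hw1)
      (by rw [map_sub, hb, hbb, sub_zero]) (by rw [map_sub, hp, hpb, sub_zero])
    exact ⟨Hj j w + y1, Submodule.add_mem _ hy0 hy1, by rw [map_add, hy1w]; abel⟩

theorem K_main (hPi : StPi) (hHs : StHs) (hHj : StHj) (hBB : StBB) (hC : StConv) (a : ℕ) :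
    ∀ q ≤ a + 1, ∀ z : Ch Pt,
      z ∈ sup (fun F => MC (GV A K) N F ∧ F.card = a ∧ (im F).card < q) →
      bdA A z = 0 → prj z = 0 →
      ∃ y ∈ sup (fun F => MC (GV A K) N F ∧ F.card = a + 1), bdA A y = z := by
  intro q
  induction q with
  | zero =>
    intro _ z hz _ _
    have h0 : z = 0 := by
      ext F
      by_contra hF
      exact absurd (K_mem.1 hz F hF).2.2 (Nat.not_lt_zero _)
    exact ⟨0, Submodule.zero_mem _, by rw [map_zero, h0]⟩
  | succ q ih =>
    intro hq z hz hb hp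
    have hz' : z ∈ sup (fun F => MC (GV A K) N F ∧ (im F).card ≤ q) :=
      K_mono (fun F hF => ⟨hF.1, Nat.lt_succ_iff.1 hF.2.2⟩) hz
    have hw : K_flt q z ∈
        sup (fun F => (MC (GV A K) N F ∧ F.card = a ∧ (im F).card = q) ∧ Qj (N - N) F) := by
      refine K_mono (fun F hF => ⟨⟨hF.1.1, hF.1.2, hF.2⟩, fun t ht => ?_⟩)
        (K_flt_mem (q := q) (K_mono (fun F hF => ⟨hF.1, hF.2.1⟩) hz :
          z ∈ sup (fun F => MC (GV A K) N F ∧ F.card = a)))
      omega
    obtain ⟨y, hy, hyw⟩ := K_sub hPi hHs hHj hBB hC a q N le_rfl (K_flt q z) hw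
      (by rw [← K_top hz', hb, map_zero])
      (K_prj_flt (K_mono (fun F hF => hF.2.1) hz) hp)
    have hby : bdA A y ∈ sup (fun F => MC (GV A K) N F ∧ F.card = a ∧ (im F).card ≤ q) :=
      K_bd hC (K_mono (fun F hF => ⟨hF.1, hF.2.1, hF.2.2.le⟩) hy)
    have hfy : K_flt q (bdA A y) = K_flt q z := by
      rw [← K_bd0_eq (K_mono (fun F hF => ⟨hF.1, hF.2.2⟩) hy), hyw]
    have hd : z - bdA A y ∈ sup (fun F => MC (GV A K) N F ∧ F.card = a ∧ (im F).card < q) := by
      have h1 : z - bdA A y ∈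
          sup (fun F => MC (GV A K) N F ∧ F.card = a ∧ (im F).card ≤ q) :=
        Submodule.sub_mem _ (K_mono (fun F hF => ⟨hF.1, hF.2.1, Nat.lt_succ_iff.1 hF.2.2⟩) hz)
          hby
      rw [K_mem]
      intro F hF
      obtain ⟨h2, h3, h4⟩ := K_mem.1 h1 F hF
      refine ⟨h2, h3, lt_of_le_of_ne h4 fun h5 => hF ?_⟩
      have h6 : K_flt q (z - bdA A y) F = 0 := by
        rw [map_sub, hfy, sub_self]
        rfl
      rw [K_flt_apply, if_pos h5] at h6
      exact h6
    obtain ⟨y', hy', hyz⟩ := ih (by omega) (z - bdA A y) hd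
      (by rw [map_sub, hb, K_BB hBB hC (K_mono (fun F hF => hF.1) hy), sub_zero])
      (by
        rw [map_sub, hp, hPi.1 A K N _ (K_mono (fun F hF => hF.1) hy),
          K_prj_zero (K_mono (fun F hF => ?_) hy), map_zero, sub_zero]
        rw [hF.2.1, hF.2.2]
        omega)
    exact ⟨y + y', Submodule.add_mem _ (K_mono (fun F hF => ⟨hF.1, hF.2.1⟩) hy) hy',
      by rw [map_add, hyz]; abel⟩

end

theorem mod_K (hPi : StPi) (hHs : StHs) (hHj : StHj) (hBB : StBB) (_hS : StSup)
    (hC : StConv) : StK := by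
  intro A K N a z hz hb hp
  refine K_main hPi hHs hHj hBB hC a (a + 1) le_rfl z (K_mono (fun F hF => ?_) hz) hb hp
  refine ⟨hF.1, hF.2, Nat.lt_succ_iff.2 ?_⟩
  have h1 : (im F).card ≤ F.card := card_image_le
  rw [hF.2] at h1
  exact h1

end Pool.Agent.Helper40.NF
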