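import Mathlib
import Pool.Agent.Helper40.NF.St

/-!
# Leibniz rule for the product of chains (module Leib)
-/

namespace Pool.Agent.Helper40.NF

open Finset

theorem Leib_lab_mk (k i : ℕ) : lab (mk k i) = i := rfl
theorem Leib_lift_mk (k i : ℕ) : lift (mk k i) = k := rfl
theorem Leib_mk_lift_lab (v : Val) : mk (lift v) (lab v) = v := rfl

theorem Leib_shp_inj (a b : ℕ) : Function.Injective (shp a b) := by
  intro p q h
  unfold shp at h
  have h1 := (Prod.mk.inj h).1
  have h2 := (Prod.mk.inj h).2
  have h3 : lift p.2 + b = lift q.2 + b := by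
    have := congrArg lift h2
    rwa [Leib_lift_mk, Leib_lift_mk] at this
  have h4 : lab p.2 = lab q.2 := by
    have := congrArg lab h2
    rwa [Leib_lab_mk, Leib_lab_mk] at this
  have h5 : lift p.2 = lift q.2 := by omega
  have h6 : p.2 = q.2 := by
    rw [← Leib_mk_lift_lab p.2, ← Leib_mk_lift_lab q.2, h5, h4]
  exact Prod.ext (by omega) h6

theorem Leib_Ok_shift (T : Finset ℕ) (b : ℕ) : Ok (T.image (fun t => t + b)) ↔ Ok T := by
  have hinj : Function.Injective (fun t : ℕ => t + b) := fun x y h => by
    simpa using h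
  constructor
  · rintro ⟨m, hm⟩
    have hmem : m ∈ T.image (fun t => t + b) := by
      rcases hm with hm | hm <;> rw [hm] <;> simp
    obtain ⟨t, -, ht⟩ := Finset.mem_image.mp hmem
    refine ⟨t, ?_⟩
    rcases hm with hm | hm
    · left
      apply Finset.image_injective hinj
      rw [hm]
      simp only [Finset.image_insert, Finset.image_singleton]
      rw [← ht]
      rw [show t + 1 + b = t + b + 1 by omega]
    · right
      apply Finset.image_injective hinj
      rw [hm]
      simp only [Finset.image_insert, Finset.image_singleton]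
      rw [← ht]
      rw [show t + 1 + b = t + b + 1 by omega, show t + 2 + b = t + b + 2 by omega]
  · rintro ⟨m, hm⟩
    refine ⟨m + b, ?_⟩
    rcases hm with hm | hm
    · left
      rw [hm]
      simp only [Finset.image_insert, Finset.image_singleton]
      rw [show m + 1 + b = m + b + 1 by omega]
    · right
      rw [hm]
      simp only [Finset.image_insert, Finset.image_singleton]
      rw [show m + 1 + b = m + b + 1 by omega, show m + 2 + b = m + b + 2 by omega]

theorem Leib_im_union (F G : Finset Pt) : im (F ∪ G) = im F ∪ im G := by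
  unfold im
  exact Finset.image_union _ _

theorem Leib_lifts_union (X Y : Finset Val) (i : ℕ) : lifts (X ∪ Y) i = lifts X i ∪ lifts Y i := by
  unfold lifts
  rw [Finset.filter_union, Finset.image_union]

theorem Leib_lifts_empty (X : Finset Val) (i : ℕ) (h : ∀ v ∈ X, lab v ≠ i) : lifts X i = ∅ := by
  unfold lifts
  rw [Finset.filter_eq_empty_iff.mpr (fun v hv => h v hv), Finset.image_empty]

theorem Leib_LV_union {I J : Finset ℕ} (hd : Disjoint I J) {X Y : Finset Val}
    (hX : ∀ v ∈ X, lab v ∈ I) (hY : ∀ v ∈ Y, lab v ∈ J) :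
    LV (I ∪ J) (X ∪ Y) ↔ LV I X ∧ LV J Y := by
  have h1 : ∀ i ∈ I, lifts (X ∪ Y) i = lifts X i := by
    intro i hi
    rw [Leib_lifts_union, Leib_lifts_empty Y i, Finset.union_empty]
    intro v hv h
    exact Finset.disjoint_left.mp hd hi (h ▸ hY v hv)
  have h2 : ∀ i ∈ J, lifts (X ∪ Y) i = lifts Y i := by
    intro i hi
    rw [Leib_lifts_union, Leib_lifts_empty X i, Finset.empty_union]
    intro v hv h
    exact Finset.disjoint_left.mp hd (h ▸ hX v hv) hi
  constructor
  · rintro ⟨-, h⟩
    refine ⟨⟨hX, fun i hi => ?_⟩, ⟨hY, fun i hi => ?_⟩⟩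
    · rw [← h1 i hi]
      exact h i (Finset.mem_union_left _ hi)
    · rw [← h2 i hi]
      exact h i (Finset.mem_union_right _ hi)
  · rintro ⟨⟨-, hA⟩, ⟨-, hB⟩⟩
    refine ⟨fun v hv => ?_, fun i hi => ?_⟩
    · rcases Finset.mem_union.mp hv with hv | hv
      · exact Finset.mem_union_left _ (hX v hv)
      · exact Finset.mem_union_right _ (hY v hv)
    · rcases Finset.mem_union.mp hi with hi | hi
      · rw [h1 i hi]
        exact hA i hi
      · rw [h2 i hi]
        exact hB i hi

theorem Leib_im_sh (a b : ℕ) (G : Finset Pt) :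
    im (shF a b G) = (im G).image (fun v => mk (lift v + b) (lab v)) := by
  unfold im shF
  rw [Finset.image_image, Finset.image_image]
  rfl

theorem Leib_lifts_sh (b : ℕ) (X : Finset Val) (i : ℕ) :
    lifts (X.image (fun v => mk (lift v + b) (lab v))) i = (lifts X i).image (fun t => t + b) := by
  ext t
  unfold lifts
  simp only [Finset.mem_image, Finset.mem_filter]
  constructor
  · rintro ⟨v, ⟨⟨u, hu, rfl⟩, hv⟩, rfl⟩
    exact ⟨lift u, ⟨u, ⟨hu, by rwa [Leib_lab_mk] at hv⟩, rfl⟩, by rw [Leib_lift_mk]⟩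
  · rintro ⟨s, ⟨u, ⟨hu, hl⟩, rfl⟩, rfl⟩
    exact ⟨mk (lift u + b) (lab u), ⟨⟨u, hu, rfl⟩, by rwa [Leib_lab_mk]⟩, by rw [Leib_lift_mk]⟩

theorem Leib_LV_sh (J : Finset ℕ) (a b : ℕ) (G : Finset Pt) :
    LV J (im (shF a b G)) ↔ LV J (im G) := by
  rw [Leib_im_sh]
  unfold LV
  constructor
  · rintro ⟨h1, h2⟩
    refine ⟨fun v hv => ?_, fun i hi => ?_⟩
    · have := h1 _ (Finset.mem_image_of_mem _ hv)
      rwa [Leib_lab_mk] at this
    · have := h2 i hi
      rw [Leib_lifts_sh] at this
      exact (Leib_Ok_shift _ _).mp this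
  · rintro ⟨h1, h2⟩
    refine ⟨fun v hv => ?_, fun i hi => ?_⟩
    · obtain ⟨u, hu, rfl⟩ := Finset.mem_image.mp hv
      rw [Leib_lab_mk]
      exact h1 u hu
    · rw [Leib_lifts_sh]
      exact (Leib_Ok_shift _ _).mpr (h2 i hi)

theorem Leib_labs {A : Finset ℕ} {F : Finset Pt} (h : LV A (im F)) {G : Finset Pt} (hG : G ⊆ F) :
    ∀ v ∈ im G, lab v ∈ A := by
  intro v hv
  refine h.1 v ?_
  unfold im at hv ⊢
  exact Finset.image_subset_image hG hv

theorem Leib_labs_sh {A : Finset ℕ} {F : Finset Pt} (h : LV A (im F)) {G : Finset Pt} (hG : G ⊆ F)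
    (a b : ℕ) : ∀ v ∈ im (shF a b G), lab v ∈ A := by
  intro v hv
  rw [Leib_im_sh] at hv
  obtain ⟨u, hu, rfl⟩ := Finset.mem_image.mp hv
  rw [Leib_lab_mk]
  exact Leib_labs h hG u hu

theorem Leib_star_single (p : ℕ) (F G : Finset Pt) (c d : ℚ) :
    star p (Finsupp.single F c) (Finsupp.single G d) =
      Finsupp.single (F ∪ shF (3 * p) (2 * p) G) (c * d) := by
  unfold star
  rw [Finsupp.linearCombination_single, LinearMap.smul_apply, Finsupp.lmapDomain_apply,
    Finsupp.mapDomain_single, Finsupp.smul_single, smul_eq_mul]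

theorem Leib_bdA_single (A : Finset ℕ) (F : Finset Pt) :
    bdA A (Finsupp.single F 1) = bdF (Prod.fst : Pt → ℕ) (fun F => LV A (im F)) F := by
  unfold bdA bd
  rw [Finsupp.linearCombination_single, one_smul]

theorem Leib_cell (I J : Finset ℕ) (F G : Finset Pt) (hd : Disjoint I J) (hI : I.Nonempty)
    (hF : TV I F) (hG : TV J G) :
    bdA (I ∪ J) (star I.card (Finsupp.single F 1) (Finsupp.single G 1)) =
      star I.card (bdA I (Finsupp.single F 1)) (Finsupp.single G 1) +
        (-1 : ℚ) ^ F.card • star I.card (Finsupp.single F 1) (bdA J (Finsupp.single G 1)) := by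
  classical
  obtain ⟨hF1, -, -, hF4, -⟩ := hF
  obtain ⟨hG1, -, -, hG4, -⟩ := hG
  have hpos : 0 < I.card := hI.card_pos
  rw [Leib_star_single, mul_one, Leib_bdA_single, Leib_bdA_single, Leib_bdA_single]
  set p := I.card with hp
  set F' := shF (3 * p) (2 * p) G with hF'
  have hlabF : ∀ x ∈ F, lab x.2 ∈ I := fun x hx => hF4.1 _ (Finset.mem_image_of_mem _ hx)
  have hlabG : ∀ x ∈ G, lab x.2 ∈ J := fun x hx => hG4.1 _ (Finset.mem_image_of_mem _ hx)
  have hlabF' : ∀ x ∈ F', lab x.2 ∈ J := by
    intro x hx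
    rw [hF'] at hx
    unfold shF at hx
    obtain ⟨q, hq, rfl⟩ := Finset.mem_image.mp hx
    exact hlabG q hq
  have hslot : ∀ x ∈ F', 3 * p ≤ x.1 := by
    intro x hx
    rw [hF'] at hx
    unfold shF at hx
    obtain ⟨q, hq, rfl⟩ := Finset.mem_image.mp hx
    show 3 * p ≤ q.1 + 3 * p
    omega
  have hdis : Disjoint F F' := by
    rw [Finset.disjoint_left]
    intro x hx hx'
    exact Finset.disjoint_left.mp hd (hlabF x hx) (hlabF' x hx')
  have hFF' : LV J (im F') := (Leib_LV_sh J _ _ G).mpr hG4
  conv_lhs => unfold bdF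
  rw [Finset.sum_union hdis]
  congr 1
  · -- faces of F
    unfold bdF
    rw [map_sum, LinearMap.sum_apply]
    refine Finset.sum_congr rfl fun x hx => ?_
    have hx' : x ∉ F' := Finset.disjoint_left.mp hdis hx
    have he : (F ∪ F').erase x = F.erase x ∪ F' := by
      rw [Finset.erase_union_distrib, Finset.erase_eq_of_notMem hx']
    have hV : LV (I ∪ J) (im (F.erase x ∪ F')) ↔ LV I (im (F.erase x)) := by
      rw [Leib_im_union, Leib_LV_union hd (Leib_labs hF4 (Finset.erase_subset _ _))
        (Leib_labs_sh hG4 (Finset.Subset.refl _) _ _)]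
      exact ⟨fun h => h.1, fun h => ⟨h, hFF'⟩⟩
    have hs : sg (Prod.fst : Pt → ℕ) (F ∪ F') x = sg (Prod.fst : Pt → ℕ) F x := by
      unfold sg
      rw [Finset.filter_union]
      have : F'.filter (fun y => Prod.fst y < Prod.fst x) = ∅ := by
        rw [Finset.filter_eq_empty_iff]
        intro y hy
        have h1 := hslot y hy
        have h2 := hF1 x hx
        omega
      rw [this, Finset.union_empty]
    rw [he]
    by_cases hv : LV I (im (F.erase x))
    · rw [if_pos (hV.mpr hv), if_pos hv, Leib_star_single, mul_one, hs]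
    · rw [if_neg (fun h => hv (hV.mp h)), if_neg hv, map_zero, LinearMap.zero_apply]
  · -- faces of G
    unfold bdF
    rw [map_sum, Finset.smul_sum]
    conv_lhs => rw [hF']
    unfold shF
    rw [Finset.sum_image (fun x _ y _ h => Leib_shp_inj _ _ h)]
    refine Finset.sum_congr rfl fun q hq => ?_
    have hqF : shp (3 * p) (2 * p) q ∉ F := by
      intro h
      exact Finset.disjoint_left.mp hdis h (by
        rw [hF']; unfold shF; exact Finset.mem_image_of_mem _ hq)
    have he : (F ∪ G.image (shp (3 * p) (2 * p))).erase (shp (3 * p) (2 * p) q) =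
        F ∪ shF (3 * p) (2 * p) (G.erase q) := by
      rw [Finset.erase_union_distrib, Finset.erase_eq_of_notMem hqF]
      unfold shF
      rw [Finset.image_erase (Leib_shp_inj _ _)]
    have hV : LV (I ∪ J) (im (F ∪ shF (3 * p) (2 * p) (G.erase q))) ↔ LV J (im (G.erase q)) := by
      rw [Leib_im_union, Leib_LV_union hd (Leib_labs hF4 (Finset.Subset.refl _))
        (Leib_labs_sh hG4 (Finset.erase_subset _ _) _ _), Leib_LV_sh]
      exact ⟨fun h => h.2, fun h => ⟨hF4, h⟩⟩
    have hs : sg (Prod.fst : Pt → ℕ) (F ∪ G.image (shp (3 * p) (2 * p)))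
        (shp (3 * p) (2 * p) q) = (-1) ^ F.card * sg (Prod.fst : Pt → ℕ) G q := by
      unfold sg
      rw [Finset.filter_union, Finset.card_union_of_disjoint, pow_add]
      · congr 2
        · rw [Finset.filter_true_of_mem]
          intro y hy
          have h2 := hF1 y hy
          show y.1 < q.1 + 3 * p
          omega
        · rw [Finset.filter_image, Finset.card_image_of_injective _ (Leib_shp_inj _ _)]
          congr 1
          refine Finset.filter_congr fun y _ => ?_
          show y.1 + 3 * p < q.1 + 3 * p ↔ y.1 < q.1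
          omega
      · exact (Finset.disjoint_filter_filter hdis)
    rw [he]
    by_cases hv : LV J (im (G.erase q))
    · rw [if_pos (hV.mpr hv), if_pos hv, Leib_star_single, one_mul, hs, Finsupp.smul_single,
        smul_eq_mul]
    · rw [if_neg (fun h => hv (hV.mp h)), if_neg hv, map_zero, smul_zero]

theorem mod_Leib : StLeib := by
  intro I J a z w hd hI _ hz hw
  unfold supc sup at hz
  unfold sup at hw
  rw [Finsupp.supported_eq_span_single] at hz hw
  induction hz using Submodule.span_induction with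
  | mem z hz =>
    obtain ⟨F, hF, rfl⟩ := hz
    have hF1 : TV I F := hF.1
    have hF2 : F.card = a := hF.2
    induction hw using Submodule.span_induction with
    | mem w hw =>
      obtain ⟨G, hG, rfl⟩ := hw
      rw [← hF2]
      exact Leib_cell I J F G hd hI hF1 hG
    | zero => simp
    | add w w' _ _ h h' =>
      rw [map_add, map_add, h, h', map_add, map_add, map_add, smul_add]
      abel
    | smul c w _ h =>
      rw [map_smul, map_smul, h, map_smul, map_smul, map_smul, smul_add, smul_comm c]
  | zero => simp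
  | add z z' _ _ h h' =>
    rw [map_add, LinearMap.add_apply, map_add, h, h', map_add, map_add, LinearMap.add_apply,
      LinearMap.add_apply, smul_add]
    abel
  | smul c z _ h =>
    rw [map_smul, LinearMap.smul_apply, map_smul, h, map_smul, map_smul, LinearMap.smul_apply,
      LinearMap.smul_apply, smul_add, smul_comm c]

end Pool.Agent.Helper40.NF
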