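import Mathlib
import Pool.Agent.Helper40.NF.St

/-!
# Module Loc (MP_42cd19_co)
-/

namespace Pool.Agent.Helper40.NF

open Finset

theorem Loc_mem_lifts (F : Finset Pt) (j k : ℕ) :
    k ∈ lifts (im F) j ↔ ∃ q ∈ F, lab q.2 = j ∧ lift q.2 = k := by
  unfold lifts im
  simp only [mem_image, mem_filter]
  constructor
  · rintro ⟨v, ⟨⟨q, hq, rfl⟩, hj⟩, hk⟩
    exact ⟨q, hq, hj, hk⟩
  · rintro ⟨q, hq, hj, hk⟩
    exact ⟨q.2, ⟨⟨q, hq, rfl⟩, hj⟩, hk⟩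

theorem Loc_mem_image (F : Finset Pt) (p : Pt) (i k : ℕ) :
    k ∈ (im ((loc F i).erase p)).image lift ↔ ∃ q ∈ F, q ≠ p ∧ lab q.2 = i ∧ lift q.2 = k := by
  unfold im loc
  simp only [mem_image, mem_filter, mem_erase]
  constructor
  · rintro ⟨v, ⟨q, ⟨hqp, hq, hi⟩, rfl⟩, hk⟩
    exact ⟨q, hq, hqp, hi, hk⟩
  · rintro ⟨q, hq, hqp, hi, hk⟩
    exact ⟨q.2, ⟨q, ⟨hqp, hq, hi⟩, rfl⟩, hk⟩

theorem Loc_same (F : Finset Pt) (p : Pt) :
    lifts (im (F.erase p)) (lab p.2) = (im ((loc F (lab p.2)).erase p)).image lift := by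
  ext k
  rw [Loc_mem_lifts, Loc_mem_image]
  constructor
  · rintro ⟨q, hq, hj, hk⟩
    rw [mem_erase] at hq
    exact ⟨q, hq.2, hq.1, hj, hk⟩
  · rintro ⟨q, hq, hqp, hj, hk⟩
    exact ⟨q, mem_erase.2 ⟨hqp, hq⟩, hj, hk⟩

theorem Loc_other (F : Finset Pt) (p : Pt) (j : ℕ) (hj : j ≠ lab p.2) :
    lifts (im (F.erase p)) j = lifts (im F) j := by
  ext k
  rw [Loc_mem_lifts, Loc_mem_lifts]
  constructor
  · rintro ⟨q, hq, h1, h2⟩
    exact ⟨q, (mem_erase.1 hq).2, h1, h2⟩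
  · rintro ⟨q, hq, h1, h2⟩
    refine ⟨q, mem_erase.2 ⟨?_, hq⟩, h1, h2⟩
    rintro rfl
    exact hj h1.symm

theorem mod_Loc : StLoc := by
  intro A F hF p hp
  constructor
  · intro h
    rw [← Loc_same]
    refine h.2 _ (hF.1 _ ?_)
    exact mem_image_of_mem _ hp
  · intro h
    refine ⟨?_, ?_⟩
    · intro v hv
      refine hF.1 v ?_
      unfold im at hv ⊢
      obtain ⟨q, hq, rfl⟩ := mem_image.1 hv
      exact mem_image_of_mem _ (mem_erase.1 hq).2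
    · intro i hi
      by_cases hij : i = lab p.2
      · rw [hij, Loc_same]
        exact h
      · rw [Loc_other F p i hij]
        exact hF.2 i hi

end Pool.Agent.Helper40.NF
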