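import Mathlib
import Pool.Agent.Helper40.NF.St

/-! Module Pi: `prj` is a chain map, `pk` is a section. -/

namespace Pool.Agent.Helper40.NF

open Finset

section lin
variable {α : Type} [DecidableEq α] {M : Type*} [AddCommGroup M] [Module ℚ M]

theorem Pi_sup_eq (P : Finset α → Prop) : (sup P : Submodule ℚ (Ch α)) =
    Submodule.span ℚ ((fun F => Finsupp.single F (1 : ℚ)) '' {F | P F}) :=
  Finsupp.supported_eq_span_single ℚ {F | P F}

theorem Pi_lin {L1 L2 : Ch α →ₗ[ℚ] M} {P : Finset α → Prop}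
    (h : ∀ F, P F → L1 (Finsupp.single F 1) = L2 (Finsupp.single F 1)) {z : Ch α}
    (hz : z ∈ sup P) : L1 z = L2 z := by
  rw [Pi_sup_eq] at hz
  refine LinearMap.eqOn_span (f := L1) (g := L2) ?_ hz
  rintro _ ⟨F, hF, rfl⟩
  exact h F hF

theorem Pi_mem {L : Ch α →ₗ[ℚ] M} {P : Finset α → Prop} {S : Submodule ℚ M}
    (h : ∀ F, P F → L (Finsupp.single F 1) ∈ S) {z : Ch α} (hz : z ∈ sup P) : L z ∈ S := by
  rw [Pi_sup_eq] at hz
  have h1 : Submodule.span ℚ ((fun F => Finsupp.single F (1 : ℚ)) '' {F | P F}) ≤ S.comap L := by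
    rw [Submodule.span_le]
    rintro _ ⟨F, hF, rfl⟩
    exact h F hF
  exact h1 hz

end lin

theorem Pi_prj_single (F : Finset Pt) (r : ℚ) : prj (Finsupp.single F r) = r • prjF F := by
  rw [prj, Finsupp.linearCombination_single]

theorem Pi_prjF_pos {F : Finset Pt} (h : (im F).card = F.card) :
    prjF F = Finsupp.single (im F) 1 := if_pos h

theorem Pi_prjF_neg {F : Finset Pt} (h : ¬ (im F).card = F.card) : prjF F = 0 := if_neg h

theorem Pi_card_im_iff {F : Finset Pt} :
    (im F).card = F.card ↔ Set.InjOn Prod.snd (F : Set Pt) := card_image_iff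

theorem Pi_bdA_single (A : Finset ℕ) (F : Finset Pt) : bdA A (Finsupp.single F 1) =
    bdF (Prod.fst : Pt → ℕ) (fun F => LV A (im F)) F := by
  rw [bdA, bd, Finsupp.linearCombination_single, one_smul]

theorem Pi_bdG_single (A : Finset ℕ) (X : Finset Val) : bdG A (Finsupp.single X 1) =
    bdF (id : Val → Val) (LV A) X := by
  rw [bdG, bd, Finsupp.linearCombination_single, one_smul]

theorem Pi_prj_bdF (A : Finset ℕ) (F : Finset Pt) :
    prj (bdF (Prod.fst : Pt → ℕ) (fun F => LV A (im F)) F) =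
      ∑ p ∈ F, open Classical in if LV A (im (F.erase p)) then
        sg (Prod.fst : Pt → ℕ) F p • prjF (F.erase p) else 0 := by
  rw [bdF, map_sum]
  refine sum_congr rfl fun p _ => ?_
  split_ifs
  · rw [Pi_prj_single]
  · rw [map_zero]

theorem Pi_im_erase {F : Finset Pt} (h : Set.InjOn Prod.snd (F : Set Pt)) {p : Pt} (hp : p ∈ F) :
    im (F.erase p) = (im F).erase p.2 := by
  ext v
  simp only [im, mem_image, mem_erase]
  constructor
  · rintro ⟨q, ⟨h1, hq⟩, rfl⟩
    exact ⟨fun h2 => h1 (h hq hp h2), q, hq, rfl⟩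
  · rintro ⟨h1, q, hq, rfl⟩
    exact ⟨q, ⟨fun h2 => h1 (by rw [h2]), hq⟩, rfl⟩

theorem Pi_sg {F : Finset Pt} (hm : Mono F) (h : Set.InjOn Prod.snd (F : Set Pt)) {p : Pt}
    (hp : p ∈ F) : sg (Prod.fst : Pt → ℕ) F p = sg (id : Val → Val) (im F) p.2 := by
  have h0 : ∀ q ∈ F, q.2 < p.2 ↔ q.1 < p.1 := by
    intro q hq
    constructor
    · intro h1
      by_contra h2
      rcases lt_or_eq_of_le (not_lt.1 h2) with h3 | h3
      · exact absurd (hm.1 p hp q hq h3) (not_le.2 h1)
      · have := hm.2 p hp q hq h3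
        rw [this] at h1
        exact lt_irrefl _ h1
    · intro h1
      refine lt_of_le_of_ne (hm.1 q hq p hp h1) ?_
      intro h2
      have := h hq hp h2
      rw [this] at h1
      exact lt_irrefl _ h1
  have h1 : (im F).filter (fun y => (id : Val → Val) y < (id : Val → Val) p.2) =
      (F.filter (fun q => q.1 < p.1)).image Prod.snd := by
    unfold im
    rw [Finset.filter_image]
    congr 1
    apply Finset.filter_congr
    intro q hq
    exact h0 q hq
  unfold sg
  rw [h1, card_image_of_injOn]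
  exact h.mono (by
    intro q hq
    exact (mem_filter.1 hq).1)

theorem Pi_cell_inj (A : Finset ℕ) {F : Finset Pt} (hm : Mono F)
    (h : (im F).card = F.card) :
    prj (bdF (Prod.fst : Pt → ℕ) (fun F => LV A (im F)) F) = bdF (id : Val → Val) (LV A) (im F) := by
  classical
  have hinj := Pi_card_im_iff.1 h
  rw [Pi_prj_bdF, bdF]
  conv_rhs => rw [show im F = F.image Prod.snd from rfl]
  rw [sum_image hinj]
  refine sum_congr rfl fun p hp => ?_
  have h1 : (F.image Prod.snd).erase p.2 = im (F.erase p) := (Pi_im_erase hinj hp).symm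
  have h2 : sg (id : Val → Val) (F.image Prod.snd) p.2 = sg (Prod.fst : Pt → ℕ) F p :=
    (Pi_sg hm hinj hp).symm
  rw [h1, h2]
  have h3 : (im (F.erase p)).card = (F.erase p).card :=
    Pi_card_im_iff.2 (hinj.mono (by
      intro q hq
      exact mem_of_mem_erase hq))
  rw [Pi_prjF_pos h3]
  split_ifs
  · rw [Finsupp.smul_single, smul_eq_mul, mul_one]
  · rfl

theorem Pi_im_erase_eq {F : Finset Pt} {p q : Pt} (hq : q ∈ F) (hpq : p ≠ q)
    (h : p.2 = q.2) : im (F.erase p) = im F := by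
  ext v
  simp only [im, mem_image, mem_erase]
  constructor
  · rintro ⟨r, ⟨-, hr⟩, rfl⟩
    exact ⟨r, hr, rfl⟩
  · rintro ⟨r, hr, rfl⟩
    by_cases h1 : r = p
    · subst h1
      exact ⟨q, ⟨hpq.symm, hq⟩, h.symm⟩
    · exact ⟨r, ⟨h1, hr⟩, rfl⟩

theorem Pi_consec {F : Finset Pt} (hm : Mono F) {p q : Pt} (hp : p ∈ F) (hq : q ∈ F)
    (hlt : p.1 < q.1) (h : p.2 = q.2) (hinj : Set.InjOn Prod.snd ((F.erase p : Finset Pt) : Set Pt)) :
    sg (Prod.fst : Pt → ℕ) F q = - sg (Prod.fst : Pt → ℕ) F p := by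
  have hpq : p ≠ q := fun h1 => by
    rw [h1] at hlt
    exact lt_irrefl _ hlt
  have h1 : F.filter (fun y => y.1 < q.1) = insert p (F.filter (fun y => y.1 < p.1)) := by
    ext y
    simp only [mem_filter, mem_insert]
    constructor
    · rintro ⟨hy, h2⟩
      by_cases h3 : y = p
      · exact Or.inl h3
      · right
        refine ⟨hy, ?_⟩
        by_contra h4
        rcases lt_or_eq_of_le (not_lt.1 h4) with h5 | h5
        · have h6 : p.2 ≤ y.2 := hm.1 p hp y hy h5
          have h7 : y.2 ≤ q.2 := hm.1 y hy q hq h2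
          have h8 : y.2 = q.2 := le_antisymm h7 (by rw [← h]; exact h6)
          have h9 : y = q := hinj (mem_coe.2 (mem_erase.2 ⟨h3, hy⟩))
            (mem_coe.2 (mem_erase.2 ⟨hpq.symm, hq⟩)) h8
          rw [h9] at h2
          exact lt_irrefl _ h2
        · exact h3 (hm.2 p hp y hy h5).symm
    · rintro (rfl | ⟨hy, h2⟩)
      · exact ⟨hp, hlt⟩
      · exact ⟨hy, h2.trans hlt⟩
  have h2 : p ∉ F.filter (fun y => y.1 < p.1) := by simp
  unfold sg
  rw [h1, card_insert_of_notMem h2, pow_succ]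
  ring

theorem Pi_cell_zero_aux (A : Finset ℕ) {F : Finset Pt} (hm : Mono F) {p q : Pt} (hp : p ∈ F)
    (hq : q ∈ F) (hlt : p.1 < q.1) (h : p.2 = q.2)
    (hinj : Set.InjOn Prod.snd ((F.erase p : Finset Pt) : Set Pt)) :
    prj (bdF (Prod.fst : Pt → ℕ) (fun F => LV A (im F)) F) = 0 := by
  classical
  have hpq : p ≠ q := fun h1 => by
    rw [h1] at hlt
    exact lt_irrefl _ hlt
  rw [Pi_prj_bdF]
  have hsub : ({p, q} : Finset Pt) ⊆ F := by
    intro x hx
    rcases mem_insert.1 hx with rfl | hx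
    · exact hp
    · rw [mem_singleton.1 hx]
      exact hq
  rw [← sum_subset hsub, sum_pair hpq]
  · have e1 : im (F.erase p) = im F := Pi_im_erase_eq hq hpq h
    have e2 : im (F.erase q) = im F := Pi_im_erase_eq hp hpq.symm h.symm
    have h3 : (im (F.erase p)).card = (F.erase p).card := Pi_card_im_iff.2 hinj
    have h4 : (im (F.erase q)).card = (F.erase q).card := by
      rw [e2, ← e1, h3, card_erase_of_mem hp, card_erase_of_mem hq]
    rw [Pi_prjF_pos h3, Pi_prjF_pos h4, e1, e2, Pi_consec hm hp hq hlt h hinj]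
    split_ifs
    · rw [neg_smul, add_neg_cancel]
    · rw [add_zero]
  · intro x hx hx'
    have h1 : x ≠ p := fun h1 => hx' (by rw [h1]; simp)
    have h2 : x ≠ q := fun h1 => hx' (by rw [h1]; simp)
    have h3 : ¬ (im (F.erase x)).card = (F.erase x).card := by
      rw [Pi_card_im_iff]
      intro h4
      exact hpq (h4 (mem_coe.2 (mem_erase.2 ⟨h1.symm, hp⟩))
        (mem_coe.2 (mem_erase.2 ⟨h2.symm, hq⟩)) h)
    rw [Pi_prjF_neg h3, smul_zero, ite_self]

theorem Pi_cell_zero (A : Finset ℕ) {F : Finset Pt} (hm : Mono F)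
    (h : ¬ (im F).card = F.card) :
    prj (bdF (Prod.fst : Pt → ℕ) (fun F => LV A (im F)) F) = 0 := by
  classical
  by_cases hex : ∃ p ∈ F, (im (F.erase p)).card = (F.erase p).card
  · obtain ⟨p, hp, h1⟩ := hex
    have hinj := Pi_card_im_iff.1 h1
    obtain ⟨q, hq, hpq, h2⟩ : ∃ q ∈ F, p ≠ q ∧ p.2 = q.2 := by
      by_contra hcon
      push_neg at hcon
      apply h
      rw [Pi_card_im_iff]
      intro x hx y hy hxy
      by_contra hne
      by_cases hxp : x = p
      · subst hxp
        exact hcon y hy hne hxy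
      · by_cases hyp : y = p
        · subst hyp
          exact hcon x hx (fun h' => hne h'.symm) hxy.symm
        · exact hne (hinj (mem_coe.2 (mem_erase.2 ⟨hxp, hx⟩)) (mem_coe.2 (mem_erase.2 ⟨hyp, hy⟩))
            hxy)
    rcases lt_trichotomy p.1 q.1 with h3 | h3 | h3
    · exact Pi_cell_zero_aux A hm hp hq h3 h2 hinj
    · exact absurd (hm.2 p hp q hq h3) hpq
    · refine Pi_cell_zero_aux A hm hq hp h3 h2.symm ?_
      rw [← Pi_card_im_iff, Pi_im_erase_eq hp hpq.symm h2.symm, ← Pi_im_erase_eq hq hpq h2, h1,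
        card_erase_of_mem hp, card_erase_of_mem hq]
  · push_neg at hex
    rw [Pi_prj_bdF]
    refine sum_eq_zero fun p hp => ?_
    rw [Pi_prjF_neg (hex p hp), smul_zero, ite_self]

theorem Pi_im_pkF (X : Finset Val) : im (pkF X) = X := by
  unfold im pkF
  rw [image_image]
  exact image_id

theorem Pi_card_pkF (X : Finset Val) : (pkF X).card = X.card := by
  unfold pkF
  apply card_image_of_injective
  intro v w h
  have : ((X.filter (· < v)).card, v).2 = ((X.filter (· < w)).card, w).2 := by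
    rw [show ((X.filter (· < v)).card, v) = ((X.filter (· < w)).card, w) from h]
  exact this

theorem Pi_rank_lt {X : Finset Val} {v w : Val} (hv : v ∈ X) (h : v < w) :
    (X.filter (· < v)).card < (X.filter (· < w)).card := by
  apply card_lt_card
  rw [Finset.ssubset_iff_of_subset]
  · exact ⟨v, mem_filter.2 ⟨hv, h⟩, fun h1 => lt_irrefl _ (mem_filter.1 h1).2⟩
  · intro x hx
    rw [mem_filter] at hx ⊢
    exact ⟨hx.1, hx.2.trans h⟩

theorem Pi_MC {G : Finset Val → Prop} {N : ℕ} {X : Finset Val} (hX : G X) (hN : X.card ≤ N) :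
    MC G N (pkF X) := by
  refine ⟨?_, ?_, ?_, ?_⟩
  · intro p hp
    obtain ⟨v, hv, rfl⟩ := mem_image.1 hp
    refine lt_of_lt_of_le ?_ hN
    show (X.filter (· < v)).card < X.card
    apply card_lt_card
    rw [Finset.ssubset_iff_of_subset (filter_subset _ _)]
    exact ⟨v, hv, fun h => lt_irrefl _ (mem_filter.1 h).2⟩
  · intro p hp q hq h
    obtain ⟨v, hv, rfl⟩ := mem_image.1 hp
    obtain ⟨w, hw, rfl⟩ := mem_image.1 hq
    show v ≤ w
    by_contra h1
    have h2 := Pi_rank_lt hw (not_le.1 h1)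
    change (X.filter (· < v)).card < (X.filter (· < w)).card at h
    omega
  · intro p hp q hq h
    obtain ⟨v, hv, rfl⟩ := mem_image.1 hp
    obtain ⟨w, hw, rfl⟩ := mem_image.1 hq
    change (X.filter (· < v)).card = (X.filter (· < w)).card at h
    rcases lt_trichotomy v w with h1 | h1 | h1
    · have := Pi_rank_lt hv h1
      omega
    · rw [h1]
    · have := Pi_rank_lt hw h1
      omega
  · rw [Pi_im_pkF]
    exact hX

theorem Pi_pk_single (X : Finset Val) (r : ℚ) :
    pk (Finsupp.single X r) = Finsupp.single (pkF X) r := by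
  rw [pk, Finsupp.lmapDomain_apply, Finsupp.mapDomain_single]

theorem mod_Pi : StPi := by
  refine ⟨?_, ?_, ?_, ?_⟩
  · intro A K N z hz
    have h := Pi_lin (L1 := prj ∘ₗ bdA A) (L2 := bdG A ∘ₗ prj) (P := MC (GV A K) N) ?_ hz
    · exact h
    · intro F hF
      have hm : Mono F := ⟨hF.2.1, hF.2.2.1⟩
      rw [LinearMap.comp_apply, LinearMap.comp_apply, Pi_bdA_single, Pi_prj_single, one_smul]
      by_cases h : (im F).card = F.card
      · rw [Pi_cell_inj A hm h, Pi_prjF_pos h, Pi_bdG_single]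
      · rw [Pi_cell_zero A hm h, Pi_prjF_neg h, map_zero]
  · intro A K N a z hz
    refine Pi_mem (L := prj) (P := fun F => MC (GV A K) N F ∧ F.card = a)
      (S := supc (GV A K) a) ?_ hz
    rintro F ⟨hF, hF'⟩
    rw [Pi_prj_single, one_smul]
    by_cases h : (im F).card = F.card
    · rw [Pi_prjF_pos h]
      exact Finsupp.single_mem_supported ℚ 1 ⟨hF.2.2.2, h.trans hF'⟩
    · rw [Pi_prjF_neg h]
      exact Submodule.zero_mem _
  · intro y
    have h : (prj ∘ₗ pk) = (LinearMap.id : Ch Val →ₗ[ℚ] Ch Val) := by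
      refine Finsupp.lhom_ext fun X r => ?_
      rw [LinearMap.comp_apply, Pi_pk_single, Pi_prj_single, LinearMap.id_apply, Pi_prjF_pos,
        Pi_im_pkF, Finsupp.smul_single, smul_eq_mul, mul_one]
      rw [Pi_im_pkF, Pi_card_pkF]
    exact LinearMap.congr_fun h y
  · intro A K N a y haN hy
    refine Pi_mem (L := pk) (P := fun X => GV A K X ∧ X.card = a)
      (S := supc (MC (GV A K) N) a) ?_ hy
    rintro X ⟨hX, hX'⟩
    rw [Pi_pk_single]
    exact Finsupp.single_mem_supported ℚ 1 ⟨Pi_MC hX (by omega), (Pi_card_pkF X).trans hX'⟩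

end Pool.Agent.Helper40.NF
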