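import Mathlib
import Pool.Agent.Helper40.NF.St

/-!
# Module ProdH: value of `XiF` on a product
-/

set_option autoImplicit false

namespace Pool.Agent.Helper40.NF

open Finset

/-! ### Shifts -/

lemma ProdH_lab (a b : ℕ) (p : Pt) : lab (shp a b p).2 = lab p.2 := rfl

lemma ProdH_lift (a b : ℕ) (p : Pt) : lift (shp a b p).2 = lift p.2 + b := rfl

lemma ProdH_fst (a b : ℕ) (p : Pt) : (shp a b p).1 = p.1 + a := rfl

lemma ProdH_inj (a b : ℕ) : Function.Injective (shp a b) := by
  intro p q h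
  have h1 : p.1 + a = q.1 + a := congrArg Prod.fst h
  have h2 : lift (shp a b p).2 = lift (shp a b q).2 := by rw [h]
  have h3 : lab (shp a b p).2 = lab (shp a b q).2 := by rw [h]
  rw [ProdH_lift, ProdH_lift] at h2
  rw [ProdH_lab, ProdH_lab] at h3
  have h4 : lift p.2 = lift q.2 := by omega
  have h5 : ofLex p.2 = ofLex q.2 := Prod.ext h4 h3
  exact Prod.ext (by omega) (ofLex.injective h5)

lemma ProdH_Xl (u : ℕ → ℕ → ℚ) (a b : ℕ) (S : Finset Pt) :
    Xl u (shF a b S) = (-1) ^ b * Xl (csh u a) S := by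
  unfold Xl shF
  rw [Finset.sum_image (fun x _ y _ h => ProdH_inj a b h), Finset.mul_sum]
  refine Finset.sum_congr rfl fun p _ => ?_
  rw [Finset.sum_image (fun x _ y _ h => ProdH_inj a b h), Finset.mul_sum]
  refine Finset.sum_congr rfl fun q _ => ?_
  rw [ProdH_lift, ProdH_lift, ProdH_fst, ProdH_fst]
  by_cases h : lift q.2 = lift p.2 + 1
  · rw [if_pos h, if_pos (by omega), pow_add]
    simp only [csh]
    ring
  · rw [if_neg h, if_neg (by omega), mul_zero]

lemma ProdH_sg (a b : ℕ) (S : Finset Pt) (p : Pt) :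
    sg (Prod.fst : Pt → ℕ) (shF a b S) (shp a b p) = sg (Prod.fst : Pt → ℕ) S p := by
  unfold sg shF
  congr 1
  rw [Finset.filter_image, Finset.card_image_of_injective _ (ProdH_inj a b)]
  congr 1
  refine Finset.filter_congr fun y _ => ?_
  simp only [ProdH_fst]
  omega

lemma ProdH_Ok (b : ℕ) (T : Finset ℕ) : Ok (T.image (· + b)) ↔ Ok T := by
  have hinj : Function.Injective (fun x : ℕ => x + b) := fun x y h => by simpa using h
  constructor
  · rintro ⟨m, h⟩
    have hm : m ∈ T.image (· + b) := by rcases h with h | h <;> rw [h] <;> simp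
    obtain ⟨t, _, rfl⟩ := Finset.mem_image.1 hm
    refine ⟨t, ?_⟩
    rcases h with h | h
    · left
      apply Finset.image_injective hinj
      simp only [h, Finset.image_insert, Finset.image_singleton]
      rw [show t + b + 1 = t + 1 + b by omega]
    · right
      apply Finset.image_injective hinj
      simp only [h, Finset.image_insert, Finset.image_singleton]
      rw [show t + b + 1 = t + 1 + b by omega, show t + b + 2 = t + 2 + b by omega]
  · rintro ⟨m, h⟩
    refine ⟨m + b, ?_⟩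
    rcases h with h | h
    · left
      simp only [h, Finset.image_insert, Finset.image_singleton]
      rw [show m + b + 1 = m + 1 + b by omega]
    · right
      simp only [h, Finset.image_insert, Finset.image_singleton]
      rw [show m + b + 1 = m + 1 + b by omega, show m + b + 2 = m + 2 + b by omega]

lemma ProdH_im (a b : ℕ) (T : Finset Pt) :
    (im (shF a b T)).image lift = ((im T).image lift).image (· + b) := by
  unfold im shF
  rw [Finset.image_image, Finset.image_image, Finset.image_image, Finset.image_image]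
  rfl

lemma ProdH_lam (c : ℕ → ℕ → ℚ) (a b : ℕ) (S : Finset Pt) :
    lam c (shF a b S) = (-1) ^ b * lam (csh c a) S := by
  unfold lam dl
  rw [show shF a b S = S.image (shp a b) from rfl,
    Finset.sum_image (fun x _ y _ h => ProdH_inj a b h), Finset.mul_sum]
  refine Finset.sum_congr rfl fun p _ => ?_
  have he : (S.image (shp a b)).erase (shp a b p) = shF a b (S.erase p) := by
    unfold shF
    rw [Finset.image_erase (ProdH_inj a b)]
  rw [he, ProdH_im, ← show shF a b S = S.image (shp a b) from rfl, ProdH_sg, ProdH_Xl]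
  by_cases h : Ok ((im (S.erase p)).image lift)
  · rw [if_pos h, if_pos ((ProdH_Ok b _).2 h)]
    ring
  · rw [if_neg h, if_neg (fun h' => h ((ProdH_Ok b _).1 h')), mul_zero]

lemma ProdH_loc_sh (a b : ℕ) (G : Finset Pt) (j : ℕ) :
    loc (shF a b G) j = shF a b (loc G j) := by
  unfold loc shF
  rw [Finset.filter_image]
  rfl

lemma ProdH_card_sh (a b : ℕ) (G : Finset Pt) : (shF a b G).card = G.card :=
  Finset.card_image_of_injective _ (ProdH_inj a b)

/-- number of inversions between `S` and `T` -/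
noncomputable def ProdH_ex (S T : Finset Pt) : ℕ :=
  ∑ p ∈ S, ∑ q ∈ T, if p.1 < q.1 ∧ lab q.2 < lab p.2 then 1 else 0

lemma ProdH_shs (F : Finset Pt) : shs F = (-1) ^ ProdH_ex F F := by
  unfold shs ProdH_ex
  rw [Finset.card_filter, Finset.sum_product]

lemma ProdH_ex_sh (a b : ℕ) (G : Finset Pt) :
    ProdH_ex (shF a b G) (shF a b G) = ProdH_ex G G := by
  unfold ProdH_ex shF
  rw [Finset.sum_image (fun x _ y _ h => ProdH_inj a b h)]
  refine Finset.sum_congr rfl fun p _ => ?_
  rw [Finset.sum_image (fun x _ y _ h => ProdH_inj a b h)]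
  refine Finset.sum_congr rfl fun q _ => ?_
  simp only [ProdH_fst, ProdH_lab, Nat.add_lt_add_iff_right]

lemma ProdH_sum_lab {A : Finset ℕ} {F : Finset Pt} (h : ∀ p ∈ F, lab p.2 ∈ A) (f : ℕ → ℕ) :
    ∑ p ∈ F, f (lab p.2) = ∑ i ∈ A, (loc F i).card * f i := by
  rw [← Finset.sum_fiberwise_of_maps_to (g := fun p : Pt => lab p.2) h]
  refine Finset.sum_congr rfl fun i _ => ?_
  unfold loc
  rw [Finset.sum_congr rfl (g := fun _ => f i), Finset.sum_const, smul_eq_mul]
  intro p hp
  rw [(Finset.mem_filter.1 hp).2]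

lemma ProdH_ex_prod {I J : Finset ℕ} {F G : Finset Pt} (a b : ℕ)
    (hF : ∀ p ∈ F, lab p.2 ∈ I) (hG : ∀ p ∈ G, lab p.2 ∈ J) (hs : ∀ p ∈ F, p.1 < a) :
    ProdH_ex (F ∪ shF a b G) (F ∪ shF a b G) = ProdH_ex F F + ProdH_ex G G +
      ∑ i ∈ I, ∑ j ∈ J, if j < i then (loc F i).card * (loc G j).card else 0 := by
  have hd : Disjoint F (shF a b G) := by
    rw [Finset.disjoint_left]
    intro p hp hq
    obtain ⟨q, _, rfl⟩ := Finset.mem_image.1 hq
    have := hs _ hp
    rw [ProdH_fst] at this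
    omega
  have e1 : ProdH_ex (F ∪ shF a b G) (F ∪ shF a b G) =
      (ProdH_ex F F + ProdH_ex F (shF a b G)) +
      (ProdH_ex (shF a b G) F + ProdH_ex (shF a b G) (shF a b G)) := by
    unfold ProdH_ex
    rw [Finset.sum_union hd]
    simp only [Finset.sum_union hd, Finset.sum_add_distrib]
  have e2 : ProdH_ex (shF a b G) F = 0 := by
    unfold ProdH_ex
    refine Finset.sum_eq_zero fun p hp => Finset.sum_eq_zero fun q hq => ?_
    obtain ⟨p', _, rfl⟩ := Finset.mem_image.1 hp
    have := hs _ hq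
    rw [if_neg]
    rw [ProdH_fst]
    omega
  have e3 : ProdH_ex F (shF a b G) =
      ∑ i ∈ I, ∑ j ∈ J, if j < i then (loc F i).card * (loc G j).card else 0 := by
    have : ProdH_ex F (shF a b G) =
        ∑ p ∈ F, (fun i => ∑ q ∈ G, (fun j => if j < i then 1 else 0) (lab q.2)) (lab p.2) := by
      unfold ProdH_ex
      refine Finset.sum_congr rfl fun p hp => ?_
      unfold shF
      rw [Finset.sum_image (fun x _ y _ h => ProdH_inj a b h)]
      refine Finset.sum_congr rfl fun q _ => ?_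
      have := hs _ hp
      simp only [ProdH_fst, ProdH_lab]
      by_cases h : lab q.2 < lab p.2
      · rw [if_pos h, if_pos ⟨by omega, h⟩]
      · rw [if_neg h, if_neg (fun h' => h h'.2)]
    rw [this, ProdH_sum_lab hF
      (fun i => ∑ q ∈ G, (fun j => if j < i then 1 else 0) (lab q.2))]
    refine Finset.sum_congr rfl fun i _ => ?_
    simp only
    rw [ProdH_sum_lab hG (fun j => if j < i then 1 else 0), Finset.mul_sum]
    refine Finset.sum_congr rfl fun j _ => ?_
    split_ifs <;> ring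
  rw [e1, e2, e3, ProdH_ex_sh]
  ring

/-! ### Counting -/

lemma ProdH_card_loc {A : Finset ℕ} {F : Finset Pt} (h : ∀ p ∈ F, lab p.2 ∈ A) :
    ∑ i ∈ A, (loc F i).card = F.card := by
  unfold loc
  exact (Finset.card_eq_sum_card_fiberwise (f := fun p : Pt => lab p.2) (s := F) (t := A)
    (fun p hp => h p hp)).symm

lemma ProdH_not_two {B : Finset ℕ} {n : ℕ → ℕ} {k l : ℕ} (hk : k ∈ B) (hl : l ∈ B) (hkl : k ≠ l)
    (h1 : n k = 2) (h2 : n l = 2) (h3 : ∀ i ∈ B, i ≠ k → i ≠ l → n i = 3)
    (hs : ∑ i ∈ B, n i + 1 = 3 * B.card) : False := by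
  have hl' : l ∈ B.erase k := Finset.mem_erase.2 ⟨hkl.symm, hl⟩
  have e1 := Finset.add_sum_erase B n hk
  have e2 := Finset.add_sum_erase (B.erase k) n hl'
  have e3 : ∑ i ∈ (B.erase k).erase l, n i = ((B.erase k).erase l).card * 3 := by
    rw [Finset.sum_congr rfl (g := fun _ => 3), Finset.sum_const, smul_eq_mul]
    intro i hi
    have hi1 := Finset.mem_erase.1 hi
    have hi2 := Finset.mem_erase.1 hi1.2
    exact h3 i hi2.2 hi2.1 hi1.1
  have c1 := Finset.card_erase_of_mem hl'
  have c2 := Finset.card_erase_of_mem hk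
  have c3 : 0 < (B.erase k).card := Finset.card_pos.2 ⟨l, hl'⟩
  have c4 : 0 < B.card := Finset.card_pos.2 ⟨k, hk⟩
  omega

/-- the parity of the sign exponents -/
lemma ProdH_parity {I J : Finset ℕ} {n m : ℕ → ℕ} {k l : ℕ} (hk : k ∈ I) (hl : l ∈ J)
    (hd : Disjoint I J) (hn : n k = 2) (hn' : ∀ i ∈ I, i ≠ k → n i = 3)
    (hm : m l = 2) (hm' : ∀ j ∈ J, j ≠ l → m j = 3) :
    ((∑ j ∈ J.filter (· < k), m j) + (∑ i ∈ I.filter (· < l), n i) +
      (∑ i ∈ I, ∑ j ∈ J, if j < i then n i * m j else 0) + I.card + inv I J) % 2 =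
      if l < k then 0 else 1 := by
  have hkl : k ≠ l := fun h => Finset.disjoint_left.1 hd hk (h ▸ hl)
  have hIl : ∀ i ∈ I, i ≠ l := fun i hi h => Finset.disjoint_left.1 hd hi (h ▸ hl)
  set P : ℕ := ∑ i ∈ I.erase k, ∑ j ∈ J.erase l, if j < i then 1 else 0 with hP
  set Q : ℕ := ∑ i ∈ I.erase k, if l < i then 1 else 0 with hQ
  set R : ℕ := ∑ j ∈ J.erase l, if j < k then 1 else 0 with hR
  set T : ℕ := ∑ i ∈ I.erase k, if i < l then 1 else 0 with hT
  set δ : ℕ := if l < k then 1 else 0 with hδ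
  have hQT : Q + T + 1 = I.card := by
    rw [hQ, hT, ← Finset.sum_add_distrib, Finset.sum_congr rfl (g := fun _ => 1)]
    · rw [Finset.sum_const, smul_eq_mul, mul_one, Finset.card_erase_of_mem hk]
      have : 0 < I.card := Finset.card_pos.2 ⟨k, hk⟩
      omega
    · intro i hi
      have h1 := hIl i (Finset.mem_erase.1 hi).2
      rcases lt_or_gt_of_ne h1 with h | h
      · rw [if_neg (by omega), if_pos h]
      · rw [if_pos h, if_neg (by omega)]
  have e1 : ∑ j ∈ J.filter (· < k), m j = 2 * δ + 3 * R := by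
    rw [Finset.sum_filter, ← Finset.add_sum_erase J _ hl, hR, hδ, Finset.mul_sum]
    congr 1
    · rw [hm]; split_ifs <;> rfl
    · refine Finset.sum_congr rfl fun j hj => ?_
      have hj' := Finset.mem_erase.1 hj
      rw [hm' j hj'.2 hj'.1]
      split_ifs <;> rfl
  have e2 : ∑ i ∈ I.filter (· < l), n i = 2 * (if k < l then 1 else 0) + 3 * T := by
    rw [Finset.sum_filter, ← Finset.add_sum_erase I _ hk, hT, Finset.mul_sum]
    congr 1
    · rw [hn]; split_ifs <;> rfl
    · refine Finset.sum_congr rfl fun j hj => ?_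
      have hj' := Finset.mem_erase.1 hj
      rw [hn' j hj'.2 hj'.1]
      split_ifs <;> rfl
  have e3 : (∑ i ∈ I, ∑ j ∈ J, if j < i then n i * m j else 0) =
      (4 * δ + 6 * R) + (6 * Q + 9 * P) := by
    rw [← Finset.add_sum_erase I _ hk]
    congr 1
    · rw [← Finset.add_sum_erase J _ hl, hR, hδ, Finset.mul_sum]
      congr 1
      · rw [hm, hn]; split_ifs <;> rfl
      · refine Finset.sum_congr rfl fun j hj => ?_
        have hj' := Finset.mem_erase.1 hj
        rw [hm' j hj'.2 hj'.1, hn]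
        split_ifs <;> rfl
    · rw [hQ, hP, Finset.mul_sum, Finset.mul_sum, ← Finset.sum_add_distrib]
      refine Finset.sum_congr rfl fun i hi => ?_
      have hi' := Finset.mem_erase.1 hi
      rw [← Finset.add_sum_erase J _ hl, Finset.mul_sum]
      congr 1
      · rw [hm, hn' i hi'.2 hi'.1]; split_ifs <;> rfl
      · refine Finset.sum_congr rfl fun j hj => ?_
        have hj' := Finset.mem_erase.1 hj
        rw [hm' j hj'.2 hj'.1, hn' i hi'.2 hi'.1]
        split_ifs <;> rfl
  have e4 : inv I J = (δ + R) + (Q + P) := by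
    unfold inv
    rw [Finset.card_filter, Finset.sum_product, ← Finset.add_sum_erase I _ hk]
    congr 1
    · rw [← Finset.add_sum_erase J _ hl]
    · rw [hQ, hP, ← Finset.sum_add_distrib]
      refine Finset.sum_congr rfl fun i hi => ?_
      rw [← Finset.add_sum_erase J _ hl]
  rw [e1, e2, e3, e4, ← hQT]
  rcases lt_or_gt_of_ne hkl with h | h
  · have hδ0 : δ = 0 := by rw [hδ, if_neg (by omega)]
    rw [if_pos h, if_neg (by omega), hδ0]
    omega
  · have hδ1 : δ = 1 := by rw [hδ, if_pos h]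
    rw [if_neg (by omega), if_pos h, hδ1]
    omega

/-- the sign of the term `(k, l)` -/
lemma ProdH_sign {I J : Finset ℕ} {F G : Finset Pt} (a b : ℕ) {k l : ℕ}
    (hd : Disjoint I J) (hk : k ∈ I) (hl : l ∈ J)
    (hF : ∀ p ∈ F, lab p.2 ∈ I) (hG : ∀ p ∈ G, lab p.2 ∈ J) (hs : ∀ p ∈ F, p.1 < a)
    (hSF : Sing I F k) (hSG : Sing J G l)
    (hlI : ∀ i ∈ I, loc (F ∪ shF a b G) i = loc F i)
    (hlJ : ∀ j ∈ J, (loc (F ∪ shF a b G) j).card = (loc G j).card) :
    ep (I ∪ J) (F ∪ shF a b G) k * ep (I ∪ J) (F ∪ shF a b G) l * shs (F ∪ shF a b G) *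
      (if l < k then 1 else -1) =
      (-1) ^ (I.card + inv I J) * (ep I F k * shs F * (ep J G l * shs G)) := by
  have hfd : ∀ x : ℕ, Disjoint (I.filter (· < x)) (J.filter (· < x)) := fun x =>
    Finset.disjoint_filter_filter hd
  have h1 : ep (I ∪ J) (F ∪ shF a b G) k =
      ep I F k * (-1) ^ (∑ j ∈ J.filter (· < k), (loc G j).card) := by
    unfold ep
    rw [Finset.filter_union, Finset.sum_union (hfd k), pow_add]
    congr 2
    · exact Finset.sum_congr rfl fun i hi => by rw [hlI i (Finset.mem_filter.1 hi).1]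
    · exact Finset.sum_congr rfl fun i hi => by rw [hlJ i (Finset.mem_filter.1 hi).1]
  have h2 : ep (I ∪ J) (F ∪ shF a b G) l =
      ep J G l * (-1) ^ (∑ i ∈ I.filter (· < l), (loc F i).card) := by
    unfold ep
    rw [Finset.filter_union, Finset.sum_union (hfd l), pow_add, mul_comm]
    congr 2
    · exact Finset.sum_congr rfl fun i hi => by rw [hlJ i (Finset.mem_filter.1 hi).1]
    · exact Finset.sum_congr rfl fun i hi => by rw [hlI i (Finset.mem_filter.1 hi).1]
  have h3 : shs (F ∪ shF a b G) = shs F * shs G *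
      (-1) ^ (∑ i ∈ I, ∑ j ∈ J, if j < i then (loc F i).card * (loc G j).card else 0) := by
    rw [ProdH_shs, ProdH_shs, ProdH_shs, ProdH_ex_prod a b hF hG hs, pow_add, pow_add]
  have h4 := ProdH_parity (n := fun i => (loc F i).card) (m := fun j => (loc G j).card) hk hl hd
    hSF.1 hSF.2 hSG.1 hSG.2
  set E1 := ∑ j ∈ J.filter (· < k), (loc G j).card
  set E2 := ∑ i ∈ I.filter (· < l), (loc F i).card
  set E3 := ∑ i ∈ I, ∑ j ∈ J, if j < i then (loc F i).card * (loc G j).card else 0
  have h5 : (-1 : ℚ) ^ E1 * (-1) ^ E2 * (-1) ^ E3 * (if l < k then 1 else -1) =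
      (-1) ^ (I.card + inv I J) := by
    have h6 : (-1 : ℚ) ^ E1 * (-1) ^ E2 * (-1) ^ E3 * (-1) ^ (I.card + inv I J) =
        (if l < k then 1 else -1) := by
      rw [← pow_add, ← pow_add, ← pow_add, ← add_assoc, neg_one_pow_eq_pow_mod_two, h4]
      split_ifs <;> norm_num
    have h7 : ((-1 : ℚ) ^ (I.card + inv I J)) * (-1) ^ (I.card + inv I J) = 1 := by
      rw [← mul_pow]; norm_num
    have h8 : (if l < k then (1 : ℚ) else -1) * (if l < k then (1 : ℚ) else -1) = 1 := by
      split_ifs <;> norm_num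
    calc _ = ((-1 : ℚ) ^ E1 * (-1) ^ E2 * (-1) ^ E3 * (-1) ^ (I.card + inv I J)) *
          (if l < k then 1 else -1) * (-1) ^ (I.card + inv I J) := by
            linear_combination (-((-1 : ℚ) ^ E1 * (-1) ^ E2 * (-1) ^ E3 *
              (if l < k then 1 else -1))) * h7
      _ = _ := by rw [h6, h8, one_mul]
  rw [h1, h2, h3, ← h5]
  ring

theorem mod_ProdH : StProdH := by
  classical
  intro c I J F G hd hI hJ hTF hcF hTG hcG
  have hI1 : 0 < I.card := Finset.card_pos.2 hI
  have hJ1 : 0 < J.card := Finset.card_pos.2 hJ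
  have hlabF : ∀ p ∈ F, lab p.2 ∈ I := fun p hp =>
    hTF.2.2.2.1.1 p.2 (Finset.mem_image_of_mem _ hp)
  have hlabG : ∀ p ∈ G, lab p.2 ∈ J := fun p hp =>
    hTG.2.2.2.1.1 p.2 (Finset.mem_image_of_mem _ hp)
  have hs : ∀ p ∈ F, p.1 < 3 * I.card := fun p hp => by
    have := hTF.1 p hp
    omega
  have hsumF : ∑ i ∈ I, (loc F i).card + 1 = 3 * I.card := by
    rw [ProdH_card_loc hlabF]; exact hcF
  have hsumG : ∑ j ∈ J, (loc G j).card + 1 = 3 * J.card := by
    rw [ProdH_card_loc hlabG]; exact hcG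
  set a := 3 * I.card with ha
  set b := 2 * I.card with hb
  have hb1 : (-1 : ℚ) ^ b = 1 := by rw [hb, pow_mul]; norm_num
  set H := F ∪ shF a b G with hH
  have hlI : ∀ i ∈ I, loc H i = loc F i := by
    intro i hi
    unfold loc
    rw [hH, Finset.filter_union]
    have : (shF a b G).filter (fun p => lab p.2 = i) = ∅ := by
      rw [Finset.filter_eq_empty_iff]
      intro p hp h
      obtain ⟨q, hq, rfl⟩ := Finset.mem_image.1 hp
      rw [ProdH_lab] at h
      exact Finset.disjoint_left.1 hd hi (h ▸ hlabG q hq)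
    rw [this, Finset.union_empty]
  have hlJ : ∀ j ∈ J, loc H j = shF a b (loc G j) := by
    intro j hj
    rw [← ProdH_loc_sh]
    unfold loc
    rw [hH, Finset.filter_union]
    have : F.filter (fun p => lab p.2 = j) = ∅ := by
      rw [Finset.filter_eq_empty_iff]
      intro p hp h
      exact Finset.disjoint_left.1 hd (h ▸ hlabF p hp) hj
    rw [this, Finset.empty_union]
  have hlJc : ∀ j ∈ J, (loc H j).card = (loc G j).card := fun j hj => by
    rw [hlJ j hj, ProdH_card_sh]
  -- the terms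
  set f : ℕ → ℕ → ℚ := fun k l => if k < l ∧ Doub (I ∪ J) H k l then
    -(ep (I ∪ J) H k * ep (I ∪ J) H l * shs H *
      (Xl c (loc H k) * El (loc H l) - El (loc H k) * Xl c (loc H l)) *
      ∏ i ∈ ((I ∪ J).erase k).erase l, lam c (loc H i)) else 0 with hf
  have hX : XiF c (I ∪ J) H = ∑ k ∈ I ∪ J, ∑ l ∈ I ∪ J, f k l := by
    unfold XiF
    refine Finset.sum_congr rfl fun k _ => Finset.sum_congr rfl fun l _ => ?_
    simp only [hf]
  have hII : ∀ k ∈ I, ∀ l ∈ I, f k l = 0 := by
    intro k hk l hl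
    simp only [hf]
    rw [if_neg]
    rintro ⟨h1, h2, h3, h4⟩
    refine ProdH_not_two (n := fun i => (loc F i).card) hk hl h1.ne ?_ ?_ ?_ hsumF
    · rw [← hlI k hk]; exact h2
    · rw [← hlI l hl]; exact h3
    · intro i hi h5 h6
      rw [← hlI i hi]; exact h4 i (Finset.mem_union_left _ hi) h5 h6
  have hJJ : ∀ k ∈ J, ∀ l ∈ J, f k l = 0 := by
    intro k hk l hl
    simp only [hf]
    rw [if_neg]
    rintro ⟨h1, h2, h3, h4⟩
    refine ProdH_not_two (n := fun i => (loc G i).card) hk hl h1.ne ?_ ?_ ?_ hsumG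
    · rw [← hlJc k hk]; exact h2
    · rw [← hlJc l hl]; exact h3
    · intro i hi h5 h6
      rw [← hlJc i hi]; exact h4 i (Finset.mem_union_right _ hi) h5 h6
  have hsum : XiF c (I ∪ J) H = ∑ k ∈ I, ∑ l ∈ J, (f k l + f l k) := by
    rw [hX, Finset.sum_union hd]
    have e1 : ∑ k ∈ I, ∑ l ∈ I ∪ J, f k l = ∑ k ∈ I, ∑ l ∈ J, f k l := by
      refine Finset.sum_congr rfl fun k hk => ?_
      rw [Finset.sum_union hd, Finset.sum_eq_zero (fun l hl => hII k hk l hl), zero_add]
    have e2 : ∑ k ∈ J, ∑ l ∈ I ∪ J, f k l = ∑ k ∈ J, ∑ l ∈ I, f k l := by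
      refine Finset.sum_congr rfl fun k hk => ?_
      rw [Finset.sum_union hd, Finset.sum_eq_zero (s := J) (fun l hl => hJJ k hk l hl), add_zero]
    rw [e1, e2, Finset.sum_comm (s := J) (t := I), ← Finset.sum_add_distrib]
    refine Finset.sum_congr rfl fun k _ => ?_
    rw [← Finset.sum_add_distrib]
  rw [hsum]
  unfold HF
  rw [Finset.sum_mul_sum, Finset.sum_mul_sum, ← Finset.sum_sub_distrib, Finset.mul_sum]
  refine Finset.sum_congr rfl fun k hk => ?_
  rw [← Finset.sum_sub_distrib, Finset.mul_sum]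
  refine Finset.sum_congr rfl fun l hl => ?_
  have hkl : k ≠ l := fun h => Finset.disjoint_left.1 hd hk (h ▸ hl)
  by_cases hS : Sing I F k ∧ Sing J G l
  · obtain ⟨hSF, hSG⟩ := hS
    rw [if_pos hSF, if_pos hSG, if_pos hSF, if_pos hSG]
    have hD : Doub (I ∪ J) H k l := by
      refine ⟨by rw [hlI k hk]; exact hSF.1, by rw [hlJc l hl]; exact hSG.1, ?_⟩
      intro i hi h1 h2
      rcases Finset.mem_union.1 hi with hi | hi
      · rw [hlI i hi]; exact hSF.2 i hi h1
      · rw [hlJc i hi]; exact hSG.2 i hi h2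
    have hD' : Doub (I ∪ J) H l k := ⟨hD.2.1, hD.1, fun i hi h1 h2 => hD.2.2 i hi h2 h1⟩
    have hprod : ∏ i ∈ ((I ∪ J).erase k).erase l, lam c (loc H i) =
        (∏ i ∈ I.erase k, lam c (loc F i)) * ∏ j ∈ J.erase l, lam (csh c a) (loc G j) := by
      have hset : ((I ∪ J).erase k).erase l = I.erase k ∪ J.erase l := by
        ext x
        simp only [Finset.mem_erase, Finset.mem_union]
        constructor
        · rintro ⟨h1, h2, h3 | h3⟩
          · exact Or.inl ⟨h2, h3⟩
          · exact Or.inr ⟨h1, h3⟩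
        · rintro (⟨h1, h2⟩ | ⟨h1, h2⟩)
          · exact ⟨fun h => Finset.disjoint_left.1 hd h2 (h ▸ hl), h1, Or.inl h2⟩
          · exact ⟨h1, fun h => Finset.disjoint_left.1 hd hk (h ▸ h2), Or.inr h2⟩
      rw [hset, Finset.prod_union (Finset.disjoint_of_subset_left (Finset.erase_subset _ _)
        (Finset.disjoint_of_subset_right (Finset.erase_subset _ _) hd))]
      congr 1
      · refine Finset.prod_congr rfl fun i hi => ?_
        rw [hlI i (Finset.mem_erase.1 hi).2]
      · refine Finset.prod_congr rfl fun i hi => ?_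
        rw [hlJ i (Finset.mem_erase.1 hi).2, ProdH_lam, hb1, one_mul]
    have hXl : Xl c (loc H l) = Xl (csh c a) (loc G l) := by
      rw [hlJ l hl, ProdH_Xl, hb1, one_mul]
    have hEl : El (loc H l) = Xl one2 (loc G l) := by
      unfold El
      rw [hlJ l hl, ProdH_Xl, hb1, one_mul]
      rfl
    have hXk : Xl c (loc H k) = Xl c (loc F k) := by rw [hlI k hk]
    have hEk : El (loc H k) = Xl one2 (loc F k) := by rw [hlI k hk]; rfl
    have hsg := ProdH_sign a b hd hk hl hlabF hlabG hs hSF hSG hlI hlJc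
    rw [← hH] at hsg
    have hcomm : ((I ∪ J).erase l).erase k = ((I ∪ J).erase k).erase l := Finset.erase_right_comm
    rcases lt_or_gt_of_ne hkl with h | h
    · have e1 : f l k = 0 := by
        simp only [hf]
        rw [if_neg (by omega)]
      have e2 : f k l = -(ep (I ∪ J) H k * ep (I ∪ J) H l * shs H *
          (Xl c (loc H k) * El (loc H l) - El (loc H k) * Xl c (loc H l)) *
          ∏ i ∈ ((I ∪ J).erase k).erase l, lam c (loc H i)) := by
        simp only [hf]
        rw [if_pos ⟨h, hD⟩]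
      rw [if_neg (by omega)] at hsg
      rw [e1, e2, hprod, hXl, hEl, hXk, hEk]
      linear_combination ((Xl c (loc F k) * Xl one2 (loc G l) -
        Xl one2 (loc F k) * Xl (csh c a) (loc G l)) *
        ((∏ i ∈ I.erase k, lam c (loc F i)) * ∏ j ∈ J.erase l, lam (csh c a) (loc G j))) * hsg
    · have e1 : f k l = 0 := by
        simp only [hf]
        rw [if_neg (by omega)]
      have e2 : f l k = -(ep (I ∪ J) H l * ep (I ∪ J) H k * shs H *
          (Xl c (loc H l) * El (loc H k) - El (loc H l) * Xl c (loc H k)) *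
          ∏ i ∈ ((I ∪ J).erase l).erase k, lam c (loc H i)) := by
        simp only [hf]
        rw [if_pos ⟨h, hD'⟩]
      rw [if_pos h] at hsg
      rw [e1, e2, hcomm, hprod, hXl, hEl, hXk, hEk]
      linear_combination ((Xl c (loc F k) * Xl one2 (loc G l) -
        Xl one2 (loc F k) * Xl (csh c a) (loc G l)) *
        ((∏ i ∈ I.erase k, lam c (loc F i)) * ∏ j ∈ J.erase l, lam (csh c a) (loc G j))) * hsg
  · have hnD : ¬ Doub (I ∪ J) H k l := by
      rintro ⟨h1, h2, h3⟩
      apply hS
      refine ⟨⟨by rw [← hlI k hk]; exact h1, ?_⟩, ⟨by rw [← hlJc l hl]; exact h2, ?_⟩⟩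
      · intro i hi h4
        rw [← hlI i hi]
        exact h3 i (Finset.mem_union_left _ hi) h4
          (fun h => Finset.disjoint_left.1 hd hi (h ▸ hl))
      · intro i hi h4
        rw [← hlJc i hi]
        exact h3 i (Finset.mem_union_right _ hi)
          (fun h => Finset.disjoint_left.1 hd hk (h ▸ hi)) h4
    have hnD' : ¬ Doub (I ∪ J) H l k := fun h => hnD ⟨h.2.1, h.1, fun i hi h1 h2 =>
      h.2.2 i hi h2 h1⟩
    have e1 : f k l = 0 := by
      simp only [hf]
      rw [if_neg (fun h => hnD h.2)]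
    have e2 : f l k = 0 := by
      simp only [hf]
      rw [if_neg (fun h => hnD' h.2)]
    rw [e1, e2]
    by_cases h1 : Sing I F k
    · have h2 : ¬ Sing J G l := fun h => hS ⟨h1, h⟩
      rw [if_neg h2, if_neg h2]
      ring
    · rw [if_neg h1, if_neg h1]
      ring

end Pool.Agent.Helper40.NF
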