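import Mathlib
import Pool.Agent.Helper40.NF.St

/-! Module Rel (MP_42cd19_co): relabelling. -/

namespace Pool.Agent.Helper40.NF

open Finset

theorem Rel_lift_mk (k i : ℕ) : lift (mk k i) = k := rfl
theorem Rel_lab_mk (k i : ℕ) : lab (mk k i) = i := rfl
theorem Rel_eta (v : Val) : mk (lift v) (lab v) = v := rfl

theorem Rel_shp (f : ℕ → ℕ) (a b : ℕ) (p : Pt) : rlp f (shp a b p) = shp a b (rlp f p) := rfl

theorem Rel_shF (f : ℕ → ℕ) (a b : ℕ) (G : Finset Pt) :
    rlF f (shF a b G) = shF a b (rlF f G) := by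
  unfold rlF shF
  rw [Finset.image_image, Finset.image_image]
  rfl

theorem Rel_union (f : ℕ → ℕ) (F G : Finset Pt) : rlF f (F ∪ G) = rlF f F ∪ rlF f G :=
  Finset.image_union _ _

theorem Rel_single (f : ℕ → ℕ) (F : Finset Pt) (a : ℚ) :
    rlC f (Finsupp.single F a) = Finsupp.single (rlF f F) a := by
  unfold rlC
  rw [Finsupp.lmapDomain_apply, Finsupp.mapDomain_single]

theorem Rel_star_single (p : ℕ) (F G : Finset Pt) (a b : ℚ) :
    star p (Finsupp.single F a) (Finsupp.single G b) =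
      Finsupp.single (F ∪ shF (3 * p) (2 * p) G) (a * b) := by
  unfold star
  rw [Finsupp.linearCombination_single, LinearMap.smul_apply, Finsupp.lmapDomain_apply,
    Finsupp.mapDomain_single, Finsupp.smul_single, smul_eq_mul]

theorem Rel_star (f : ℕ → ℕ) (p : ℕ) (z w : Ch Pt) :
    rlC f (star p z w) = star p (rlC f z) (rlC f w) := by
  induction z using Finsupp.induction_linear with
  | zero => simp
  | add z z' h h' => rw [map_add, LinearMap.add_apply, map_add, h, h', map_add, map_add,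
      LinearMap.add_apply]
  | single F a =>
    induction w using Finsupp.induction_linear with
    | zero => simp
    | add w w' h h' => rw [map_add, map_add, h, h', map_add, map_add]
    | single G b =>
      rw [Rel_star_single, Rel_single, Rel_single, Rel_single, Rel_star_single, Rel_union,
        Rel_shF]

/-- relabelling of values -/
def Rel_rv (f : ℕ → ℕ) (v : Val) : Val := mk (lift v) (f (lab v))

theorem Rel_im (f : ℕ → ℕ) (F : Finset Pt) : im (rlF f F) = (im F).image (Rel_rv f) := by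
  unfold im rlF
  rw [Finset.image_image, Finset.image_image]
  rfl

theorem Rel_lifts {f : ℕ → ℕ} {B : Finset ℕ} (hf : Set.InjOn f (B : Set ℕ)) (Z : Finset Val)
    (hZ : ∀ v ∈ Z, lab v ∈ B) {i : ℕ} (hi : i ∈ B) :
    lifts (Z.image (Rel_rv f)) (f i) = lifts Z i := by
  unfold lifts
  ext k
  simp only [Finset.mem_image, Finset.mem_filter]
  constructor
  · rintro ⟨v, ⟨⟨w, hw, rfl⟩, h2⟩, rfl⟩
    exact ⟨w, ⟨hw, hf (hZ w hw) hi h2⟩, rfl⟩
  · rintro ⟨v, ⟨hv, rfl⟩, rfl⟩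
    exact ⟨Rel_rv f v, ⟨⟨v, hv, rfl⟩, rfl⟩, rfl⟩

theorem Rel_LV {f : ℕ → ℕ} {B : Finset ℕ} (hf : Set.InjOn f (B : Set ℕ)) (Z : Finset Val)
    (hZ : ∀ v ∈ Z, lab v ∈ B) : LV (B.image f) (Z.image (Rel_rv f)) ↔ LV B Z := by
  unfold LV
  constructor
  · rintro ⟨_, h2⟩
    refine ⟨hZ, fun i hi => ?_⟩
    rw [← Rel_lifts hf Z hZ hi]
    exact h2 _ (Finset.mem_image_of_mem _ hi)
  · rintro ⟨_, h2⟩
    refine ⟨fun v hv => ?_, fun j hj => ?_⟩
    · obtain ⟨w, hw, rfl⟩ := Finset.mem_image.1 hv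
      exact Finset.mem_image_of_mem _ (hZ w hw)
    · obtain ⟨i, hi, rfl⟩ := Finset.mem_image.1 hj
      rw [Rel_lifts hf Z hZ hi]
      exact h2 i hi

theorem Rel_injOn {f : ℕ → ℕ} {B : Finset ℕ} (hf : Set.InjOn f (B : Set ℕ)) (F : Finset Pt)
    (hF : ∀ p ∈ F, lab p.2 ∈ B) : Set.InjOn (rlp f) (F : Set Pt) := by
  intro p hp q hq hpq
  have h1 : (rlp f p).1 = (rlp f q).1 := congrArg (fun r : Pt => r.1) hpq
  have h2 : lift (rlp f p).2 = lift (rlp f q).2 := congrArg (fun r : Pt => lift r.2) hpq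
  have h3 : lab (rlp f p).2 = lab (rlp f q).2 := congrArg (fun r : Pt => lab r.2) hpq
  change p.1 = q.1 at h1
  change lift p.2 = lift q.2 at h2
  change f (lab p.2) = f (lab q.2) at h3
  have h4 := hf (hF p hp) (hF q hq) h3
  refine Prod.ext h1 ?_
  rw [← Rel_eta p.2, ← Rel_eta q.2, h2, h4]

theorem Rel_le {f : ℕ → ℕ} {B : Finset ℕ} (hf : StrictMonoOn f (B : Set ℕ)) {v w : Val}
    (hv : lab v ∈ B) (hw : lab w ∈ B) (h : v ≤ w) : Rel_rv f v ≤ Rel_rv f w := by
  rw [← Rel_eta v, ← Rel_eta w] at h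
  unfold mk at h
  rw [Prod.Lex.toLex_le_toLex] at h
  unfold Rel_rv mk
  rw [Prod.Lex.toLex_le_toLex]
  rcases h with h | ⟨h, h'⟩
  · exact Or.inl h
  · exact Or.inr ⟨h, hf.monotoneOn hv hw h'⟩

theorem Rel_TV {f : ℕ → ℕ} {B : Finset ℕ} (hf : StrictMonoOn f (B : Set ℕ)) {F : Finset Pt}
    (h : TV B F) : TV (B.image f) (rlF f F) := by
  unfold TV at *
  rw [Finset.card_image_of_injOn hf.injOn]
  obtain ⟨h1, h2, h3, h4, h5⟩ := h
  have hlab : ∀ p ∈ F, lab p.2 ∈ B := fun p hp => h4.1 p.2 (Finset.mem_image_of_mem _ hp)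
  refine ⟨?_, ?_, ?_, ?_, ?_⟩
  · intro p hp
    obtain ⟨q, hq, rfl⟩ := Finset.mem_image.1 hp
    exact h1 q hq
  · intro p hp q hq hpq
    obtain ⟨p', hp', rfl⟩ := Finset.mem_image.1 hp
    obtain ⟨q', hq', rfl⟩ := Finset.mem_image.1 hq
    exact Rel_le hf (hlab p' hp') (hlab q' hq') (h2 p' hp' q' hq' hpq)
  · intro p hp q hq hpq
    obtain ⟨p', hp', rfl⟩ := Finset.mem_image.1 hp
    obtain ⟨q', hq', rfl⟩ := Finset.mem_image.1 hq
    rw [h3 p' hp' q' hq' hpq]
  · rw [Rel_im]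
    refine (Rel_LV hf.injOn _ fun v hv => ?_).2 h4
    exact h4.1 v hv
  · intro v hv
    rw [Rel_im] at hv
    obtain ⟨w, hw, rfl⟩ := Finset.mem_image.1 hv
    exact h5 w hw

theorem Rel_lab {B : Finset ℕ} {F : Finset Pt} (h : TV B F) : ∀ p ∈ F, lab p.2 ∈ B := by
  obtain ⟨_, _, _, h4, _⟩ := h
  exact fun p hp => h4.1 p.2 (Finset.mem_image_of_mem _ hp)

theorem Rel_sg {f : ℕ → ℕ} {B : Finset ℕ} (hf : Set.InjOn f (B : Set ℕ)) {F : Finset Pt}
    (hF : ∀ p ∈ F, lab p.2 ∈ B) (p : Pt) :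
    sg (Prod.fst : Pt → ℕ) (rlF f F) (rlp f p) = sg (Prod.fst : Pt → ℕ) F p := by
  unfold sg
  congr 1
  have h1 : (rlF f F).filter (fun y => y.1 < (rlp f p).1) =
      (F.filter (fun y => y.1 < p.1)).image (rlp f) := by
    unfold rlF
    rw [Finset.filter_image]
    rfl
  rw [h1, Finset.card_image_of_injOn]
  exact (Rel_injOn hf F hF).mono (Finset.coe_subset.2 (Finset.filter_subset _ _))

theorem Rel_erase {f : ℕ → ℕ} {B : Finset ℕ} (hf : Set.InjOn f (B : Set ℕ)) {F : Finset Pt}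
    (hF : ∀ p ∈ F, lab p.2 ∈ B) {p : Pt} (hp : p ∈ F) :
    (rlF f F).erase (rlp f p) = rlF f (F.erase p) := by
  ext q
  unfold rlF
  simp only [Finset.mem_erase, Finset.mem_image]
  constructor
  · rintro ⟨h1, r, hr, rfl⟩
    exact ⟨r, ⟨fun h => h1 (by rw [h]), hr⟩, rfl⟩
  · rintro ⟨r, ⟨h1, hr⟩, rfl⟩
    exact ⟨fun h => h1 (Rel_injOn hf F hF hr hp h), r, hr, rfl⟩

theorem Rel_bdF {f : ℕ → ℕ} {B : Finset ℕ} (hf : StrictMonoOn f (B : Set ℕ)) {F : Finset Pt}
    (h : TV B F) :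
    rlC f (bdF (Prod.fst : Pt → ℕ) (fun F => LV B (im F)) F) =
      bdF (Prod.fst : Pt → ℕ) (fun F => LV (B.image f) (im F)) (rlF f F) := by
  classical
  have hF := Rel_lab h
  unfold bdF
  rw [map_sum]
  rw [show rlF f F = F.image (rlp f) from rfl, Finset.sum_image (Rel_injOn hf.injOn F hF)]
  refine Finset.sum_congr rfl fun p hp => ?_
  rw [show F.image (rlp f) = rlF f F from rfl, Rel_erase hf.injOn hF hp, Rel_sg hf.injOn hF p]
  have h1 : LV (B.image f) (im (rlF f (F.erase p))) ↔ LV B (im (F.erase p)) := by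
    rw [Rel_im]
    refine Rel_LV hf.injOn _ fun v hv => ?_
    obtain ⟨q, hq, rfl⟩ := Finset.mem_image.1 hv
    exact hF q (Finset.mem_of_mem_erase hq)
  by_cases h2 : LV B (im (F.erase p))
  · rw [if_pos h2, if_pos (h1.2 h2), Rel_single]
  · rw [if_neg h2, if_neg (fun h3 => h2 (h1.1 h3)), map_zero]

theorem mod_Rel : StRel := by
  refine ⟨fun f B hf => ⟨fun z hz => ?_, fun a z hz => ?_⟩, Rel_star⟩
  · unfold sup at hz
    rw [Finsupp.supported_eq_span_single] at hz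
    induction hz using Submodule.span_induction with
    | mem x hx =>
      obtain ⟨F, hF, rfl⟩ := hx
      unfold bdA bd
      rw [Finsupp.linearCombination_single, one_smul, Rel_single,
        Finsupp.linearCombination_single, one_smul]
      exact Rel_bdF hf hF
    | zero => simp
    | add x y _ _ hx hy => rw [map_add, map_add, hx, hy, map_add, map_add]
    | smul a x _ hx => rw [map_smul, map_smul, hx, map_smul, map_smul]
  · unfold supc sup at *
    rw [Finsupp.mem_supported] at *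
    intro G hG
    unfold rlC at hG
    rw [Finsupp.lmapDomain_apply] at hG
    obtain ⟨F, hF, rfl⟩ := Finset.mem_image.1 (Finsupp.mapDomain_support hG)
    obtain ⟨h1, h2⟩ := hz hF
    refine ⟨Rel_TV hf h1, ?_⟩
    rw [← h2]
    exact Finset.card_image_of_injOn (Rel_injOn hf.injOn F (Rel_lab h1))

end Pool.Agent.Helper40.NF
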