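import Mathlib
import Pool.Agent.Helper40.NF.St

/-! Module RelH: `HF` is invariant under increasing relabellings. -/

namespace Pool.Agent.Helper40.NF

open Finset

theorem RelH_eta (v : Val) : mk (lift v) (lab v) = v := rfl

@[simp] theorem RelH_lift_mk (k i : ℕ) : lift (mk k i) = k := rfl
@[simp] theorem RelH_lab_mk (k i : ℕ) : lab (mk k i) = i := rfl

section
variable {f : ℕ → ℕ} {B : Finset ℕ}

theorem RelH_inj (hf : StrictMonoOn f (B : Set ℕ)) {p q : Pt} (hp : lab p.2 ∈ B)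
    (hq : lab q.2 ∈ B) (h : rlp f p = rlp f q) : p = q := by
  have h1 : (rlp f p).1 = (rlp f q).1 := by rw [h]
  have h3 : lift (rlp f p).2 = lift (rlp f q).2 := by rw [h]
  have h4 : lab (rlp f p).2 = lab (rlp f q).2 := by rw [h]
  change p.1 = q.1 at h1
  change lift p.2 = lift q.2 at h3
  change f (lab p.2) = f (lab q.2) at h4
  have h5 : lab p.2 = lab q.2 := hf.injOn hp hq h4
  refine Prod.ext h1 ?_
  rw [← RelH_eta p.2, ← RelH_eta q.2, h3, h5]

theorem RelH_injOn (hf : StrictMonoOn f (B : Set ℕ)) {S : Finset Pt}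
    (hS : ∀ p ∈ S, lab p.2 ∈ B) : Set.InjOn (rlp f) (S : Set Pt) :=
  fun p hp q hq h => RelH_inj hf (hS p hp) (hS q hq) h

theorem RelH_card (hf : StrictMonoOn f (B : Set ℕ)) {S : Finset Pt}
    (hS : ∀ p ∈ S, lab p.2 ∈ B) : (rlF f S).card = S.card :=
  card_image_of_injOn (RelH_injOn hf hS)

theorem RelH_loc (hf : StrictMonoOn f (B : Set ℕ)) {F : Finset Pt}
    (hF : ∀ p ∈ F, lab p.2 ∈ B) {i : ℕ} (hi : i ∈ B) :
    loc (rlF f F) (f i) = rlF f (loc F i) := by
  unfold loc rlF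
  rw [Finset.filter_image]
  congr 1
  apply Finset.filter_congr
  intro p hp
  show f (lab p.2) = f i ↔ lab p.2 = i
  exact ⟨fun h => hf.injOn (hF p hp) hi h, fun h => by rw [h]⟩

theorem RelH_Xl (hf : StrictMonoOn f (B : Set ℕ)) (u : ℕ → ℕ → ℚ) {S : Finset Pt}
    (hS : ∀ p ∈ S, lab p.2 ∈ B) : Xl u (rlF f S) = Xl u S := by
  unfold Xl rlF
  rw [sum_image (RelH_injOn hf hS)]
  refine sum_congr rfl fun p _ => ?_
  rw [sum_image (RelH_injOn hf hS)]
  rfl

theorem RelH_erase (hf : StrictMonoOn f (B : Set ℕ)) {S : Finset Pt}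
    (hS : ∀ p ∈ S, lab p.2 ∈ B) {p : Pt} (hp : p ∈ S) :
    (rlF f S).erase (rlp f p) = rlF f (S.erase p) := by
  unfold rlF
  ext q
  simp only [mem_erase, mem_image]
  constructor
  · rintro ⟨h1, r, hr, rfl⟩
    exact ⟨r, ⟨fun h => h1 (by rw [h]), hr⟩, rfl⟩
  · rintro ⟨r, ⟨h1, hr⟩, rfl⟩
    exact ⟨fun h => h1 (RelH_inj hf (hS r hr) (hS p hp) h), r, hr, rfl⟩

theorem RelH_lifts (S : Finset Pt) : (im (rlF f S)).image lift = (im S).image lift := by
  unfold im rlF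
  rw [image_image, image_image, image_image]
  rfl

theorem RelH_sg (hf : StrictMonoOn f (B : Set ℕ)) {S : Finset Pt}
    (hS : ∀ p ∈ S, lab p.2 ∈ B) (p : Pt) :
    sg (Prod.fst : Pt → ℕ) (rlF f S) (rlp f p) = sg (Prod.fst : Pt → ℕ) S p := by
  unfold sg rlF
  rw [Finset.filter_image, card_image_of_injOn]
  · rfl
  · exact (RelH_injOn hf hS).mono (by
      intro q hq
      exact (mem_filter.1 hq).1)

theorem RelH_lam (hf : StrictMonoOn f (B : Set ℕ)) (c : ℕ → ℕ → ℚ) {S : Finset Pt}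
    (hS : ∀ p ∈ S, lab p.2 ∈ B) : lam c (rlF f S) = lam c S := by
  unfold lam dl
  conv_lhs => rw [show rlF f S = S.image (rlp f) from rfl]
  rw [sum_image (RelH_injOn hf hS)]
  refine sum_congr rfl fun p hp => ?_
  have h1 : (S.image (rlp f)).erase (rlp f p) = rlF f (S.erase p) := RelH_erase hf hS hp
  have h2 : sg (Prod.fst : Pt → ℕ) (S.image (rlp f)) (rlp f p) = sg (Prod.fst : Pt → ℕ) S p :=
    RelH_sg hf hS p
  rw [h1, h2, RelH_lifts, RelH_Xl hf c (fun q hq => hS q (mem_of_mem_erase hq))]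

theorem RelH_shs (hf : StrictMonoOn f (B : Set ℕ)) {F : Finset Pt}
    (hF : ∀ p ∈ F, lab p.2 ∈ B) : shs (rlF f F) = shs F := by
  unfold shs
  congr 1
  symm
  apply card_bij (fun pq _ => (rlp f pq.1, rlp f pq.2))
  · rintro ⟨p, q⟩ hpq
    simp only [mem_filter, mem_product] at hpq ⊢
    refine ⟨⟨mem_image_of_mem _ hpq.1.1, mem_image_of_mem _ hpq.1.2⟩, hpq.2.1, ?_⟩
    exact hf (hF q hpq.1.2) (hF p hpq.1.1) hpq.2.2
  · rintro ⟨p, q⟩ hpq ⟨p', q'⟩ hpq' h
    simp only [mem_filter, mem_product] at hpq hpq'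
    have h1 : rlp f p = rlp f p' := congrArg Prod.fst h
    have h2 : rlp f q = rlp f q' := congrArg Prod.snd h
    rw [RelH_inj hf (hF p hpq.1.1) (hF p' hpq'.1.1) h1,
      RelH_inj hf (hF q hpq.1.2) (hF q' hpq'.1.2) h2]
  · rintro ⟨p, q⟩ hpq
    simp only [mem_filter, mem_product] at hpq
    obtain ⟨⟨hp, hq⟩, h1, h2⟩ := hpq
    obtain ⟨p', hp', rfl⟩ := mem_image.1 hp
    obtain ⟨q', hq', rfl⟩ := mem_image.1 hq
    refine ⟨(p', q'), ?_, rfl⟩
    simp only [mem_filter, mem_product]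
    exact ⟨⟨hp', hq'⟩, h1, (hf.lt_iff_lt (hF q' hq') (hF p' hp')).1 h2⟩

theorem RelH_ep (hf : StrictMonoOn f (B : Set ℕ)) {F : Finset Pt}
    (hF : ∀ p ∈ F, lab p.2 ∈ B) {k : ℕ} (hk : k ∈ B) :
    ep (B.image f) (rlF f F) (f k) = ep B F k := by
  unfold ep
  congr 1
  have h1 : (B.image f).filter (· < f k) = (B.filter (· < k)).image f := by
    rw [Finset.filter_image]
    congr 1
    apply Finset.filter_congr
    intro j hj
    exact hf.lt_iff_lt hj hk
  rw [h1, sum_image]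
  · refine sum_congr rfl fun j hj => ?_
    have hj' : j ∈ B := (mem_filter.1 hj).1
    rw [RelH_loc hf hF hj', RelH_card hf]
    intro p hp
    exact hF p (mem_filter.1 hp).1
  · intro i hi j hj h
    exact hf.injOn (mem_filter.1 hi).1 (mem_filter.1 hj).1 h

theorem RelH_loc_card (hf : StrictMonoOn f (B : Set ℕ)) {F : Finset Pt}
    (hF : ∀ p ∈ F, lab p.2 ∈ B) {i : ℕ} (hi : i ∈ B) :
    (loc (rlF f F) (f i)).card = (loc F i).card := by
  rw [RelH_loc hf hF hi, RelH_card hf]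
  intro p hp
  exact hF p (mem_filter.1 hp).1

theorem RelH_Sing (hf : StrictMonoOn f (B : Set ℕ)) {F : Finset Pt}
    (hF : ∀ p ∈ F, lab p.2 ∈ B) {k : ℕ} (hk : k ∈ B) :
    Sing (B.image f) (rlF f F) (f k) ↔ Sing B F k := by
  unfold Sing
  rw [RelH_loc_card hf hF hk]
  refine and_congr_right fun _ => ?_
  constructor
  · intro h i hi hik
    rw [← RelH_loc_card hf hF hi]
    exact h (f i) (mem_image_of_mem f hi) (fun h' => hik (hf.injOn hi hk h'))
  · intro h i hi hik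
    obtain ⟨j, hj, rfl⟩ := mem_image.1 hi
    rw [RelH_loc_card hf hF hj]
    exact h j hj (fun h' => hik (by rw [h']))

end

theorem mod_RelH : StRelH := by
  intro u c f B F hf hF
  have hloc : ∀ i, ∀ p ∈ loc F i, lab p.2 ∈ B := fun i p hp => hF p (mem_filter.1 hp).1
  unfold HF
  rw [sum_image (fun i hi j hj h => hf.injOn hi hj h)]
  refine sum_congr rfl fun k hk => ?_
  have h1 : (B.image f).erase (f k) = (B.erase k).image f := by
    ext i
    simp only [mem_erase, mem_image]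
    constructor
    · rintro ⟨h1, j, hj, rfl⟩
      exact ⟨j, ⟨fun h => h1 (by rw [h]), hj⟩, rfl⟩
    · rintro ⟨j, ⟨h1, hj⟩, rfl⟩
      exact ⟨fun h => h1 (hf.injOn hj hk h), j, hj, rfl⟩
  by_cases hs : Sing B F k
  · rw [if_pos ((RelH_Sing hf hF hk).2 hs), if_pos hs, RelH_ep hf hF hk, RelH_shs hf hF,
      RelH_loc hf hF hk, RelH_Xl hf u (hloc k), h1, prod_image]
    · congr 1
      refine prod_congr rfl fun i hi => ?_
      rw [RelH_loc hf hF (mem_of_mem_erase hi), RelH_lam hf c (hloc i)]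
    · intro i hi j hj h
      exact hf.injOn (mem_of_mem_erase hi) (mem_of_mem_erase hj) h
  · rw [if_neg (fun h => hs ((RelH_Sing hf hF hk).1 h)), if_neg hs]

end Pool.Agent.Helper40.NF
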