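import Mathlib
import Pool.Agent.Helper40.NF.St

/-!
# Module Sign
-/

namespace Pool.Agent.Helper40.NF

open Finset

theorem Sign_ep {A : Finset ℕ} {F : Finset Pt} (hA : ∀ p ∈ F, lab p.2 ∈ A) (i : ℕ) :
    ∑ j ∈ A.filter (· < i), (loc F j).card = (F.filter (fun q => lab q.2 < i)).card := by
  rw [card_eq_sum_card_fiberwise (f := fun q : Pt => lab q.2) (t := A.filter (· < i))]
  · refine sum_congr rfl fun j hj => ?_
    congr 1
    ext q
    simp only [loc, mem_filter] at hj ⊢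
    constructor
    · rintro ⟨h1, h2⟩
      exact ⟨⟨h1, h2 ▸ hj.2⟩, h2⟩
    · rintro ⟨⟨h1, -⟩, h2⟩
      exact ⟨h1, h2⟩
  · intro q hq
    simp only [coe_filter, Set.mem_ofPred_eq] at hq ⊢
    exact ⟨hA q hq.1, hq.2⟩

theorem Sign_pairs (F : Finset Pt) (p : Pt) (hp : p ∈ F) :
    ((F ×ˢ F).filter (fun pq : Pt × Pt => pq.1.1 < pq.2.1 ∧ lab pq.2.2 < lab pq.1.2)).card =
    (((F.erase p) ×ˢ (F.erase p)).filter
      (fun pq : Pt × Pt => pq.1.1 < pq.2.1 ∧ lab pq.2.2 < lab pq.1.2)).card +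
    (((F.erase p).filter (fun q => p.1 < q.1 ∧ lab q.2 < lab p.2)).card +
      ((F.erase p).filter (fun q => q.1 < p.1 ∧ lab p.2 < lab q.2)).card) := by
  simp only [card_filter, sum_product]
  rw [← add_sum_erase F _ hp]
  have h1 : ∀ x : Pt, ∑ y ∈ F, (if x.1 < y.1 ∧ lab y.2 < lab x.2 then 1 else 0) =
      (if x.1 < p.1 ∧ lab p.2 < lab x.2 then 1 else 0) +
      ∑ y ∈ F.erase p, (if x.1 < y.1 ∧ lab y.2 < lab x.2 then 1 else 0) := fun x =>
    (add_sum_erase F _ hp).symm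
  rw [h1 p, if_neg (by simp), zero_add, sum_congr rfl fun x _ => h1 x, sum_add_distrib]
  ring

theorem mod_Sign : StSign := by
  intro A F hA hinj p hp
  have hne : ∀ q ∈ F.erase p, q.1 ≠ p.1 := fun q hq h =>
    (mem_erase.1 hq).1 (hinj (mem_erase.1 hq).2 hp h)
  obtain ⟨a, ha⟩ : ∃ a, a = ((F.erase p).filter (fun q => p.1 < q.1 ∧ lab q.2 < lab p.2)).card :=
    ⟨_, rfl⟩
  obtain ⟨b, hb⟩ : ∃ b, b = ((F.erase p).filter (fun q => q.1 < p.1 ∧ lab p.2 < lab q.2)).card :=
    ⟨_, rfl⟩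
  obtain ⟨c, hc⟩ : ∃ c, c = ((F.erase p).filter (fun q => q.1 < p.1 ∧ lab q.2 < lab p.2)).card :=
    ⟨_, rfl⟩
  obtain ⟨d, hd⟩ : ∃ d, d = ((F.erase p).filter (fun q => q.1 < p.1 ∧ lab q.2 = lab p.2)).card :=
    ⟨_, rfl⟩
  have hN := Sign_pairs F p hp
  rw [← ha, ← hb] at hN
  have hE : ∑ j ∈ A.filter (· < lab p.2), (loc F j).card = a + c := by
    rw [Sign_ep hA, ha, hc, card_filter, card_filter, card_filter, ← add_sum_erase F _ hp,
      if_neg (by simp), zero_add, ← sum_add_distrib]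
    refine sum_congr rfl fun q hq => ?_
    have := hne q hq
    by_cases h1 : p.1 < q.1
    · by_cases h2 : lab q.2 < lab p.2
      · simp [h1, h2, h1.le]
      · simp [h2]
    · have h3 : q.1 < p.1 := by omega
      by_cases h2 : lab q.2 < lab p.2
      · simp [h1, h2, h3]
      · simp [h2]
  have hn : (F.filter (fun y => y.1 < p.1)).card = b + c + d := by
    rw [hb, hc, hd, card_filter, card_filter, card_filter, card_filter, ← add_sum_erase F _ hp,
      if_neg (by simp), zero_add, ← sum_add_distrib, ← sum_add_distrib]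
    refine sum_congr rfl fun q hq => ?_
    by_cases h1 : q.1 < p.1
    · rcases lt_trichotomy (lab q.2) (lab p.2) with h2 | h2 | h2
      · simp [h1, h2, h2.ne, h2.le]
      · simp [h1, h2]
      · simp [h1, h2, h2.ne', h2.le]
    · simp [h1]
  have hl : ((loc F (lab p.2)).filter (fun y => y.1 < p.1)).card = d := by
    rw [hd, loc, filter_filter, card_filter, card_filter, ← add_sum_erase F _ hp,
      if_neg (by simp), zero_add]
    refine sum_congr rfl fun q _ => ?_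
    simp only [and_comm]
  unfold sg shs ep
  rw [hN, hE, hn, hl]
  have h2 : ((-1 : ℚ) ^ a) * (-1) ^ a = 1 := by
    rw [← mul_pow]
    norm_num
  rw [pow_add, pow_add, pow_add, pow_add, pow_add]
  linear_combination (-((-1 : ℚ) ^ b * (-1) ^ c * (-1) ^ d * (-1) ^
    (((F.erase p) ×ˢ (F.erase p)).filter
      (fun pq : Pt × Pt => pq.1.1 < pq.2.1 ∧ lab pq.2.2 < lab pq.1.2)).card)) * h2

end Pool.Agent.Helper40.NF
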