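import Mathlib
import Pool.Agent.Helper40.NF.St

/-!
# Module Star
-/

namespace Pool.Agent.Helper40.NF

open Finset

theorem Star_single (p : ℕ) (F G : Finset Pt) (x y : ℚ) :
    star p (Finsupp.single F x) (Finsupp.single G y) =
      Finsupp.single (F ∪ shF (3 * p) (2 * p) G) (x * y) := by
  rw [star, Finsupp.linearCombination_single, LinearMap.smul_apply, Finsupp.lmapDomain_apply,
    Finsupp.mapDomain_single, Finsupp.smul_single, smul_eq_mul]

theorem Star_mem {S T U : Finset Pt → Prop} {p : ℕ}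
    (h : ∀ F G, S F → T G → U (F ∪ shF (3 * p) (2 * p) G)) {z w : Ch Pt} (hz : z ∈ sup S)
    (hw : w ∈ sup T) : star p z w ∈ sup U := by
  rw [sup, Finsupp.mem_supported] at hz hw
  rw [← Finsupp.sum_single z, ← Finsupp.sum_single w, Finsupp.sum, Finsupp.sum, map_sum]
  refine Submodule.sum_mem _ fun G hG => ?_
  rw [map_sum, LinearMap.sum_apply]
  refine Submodule.sum_mem _ fun F hF => ?_
  rw [Star_single]
  exact Finsupp.single_mem_supported ℚ _ (h F G (hz hF) (hw hG))

theorem Star_mem_shF {a b : ℕ} {G : Finset Pt} {q : Pt} :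
    q ∈ shF a b G ↔ ∃ p ∈ G, (p.1 + a, mk (lift p.2 + b) (lab p.2)) = q := by
  rw [shF, mem_image]
  rfl

theorem Star_lift_mk (k i : ℕ) : lift (mk k i) = k := rfl
theorem Star_lab_mk (k i : ℕ) : lab (mk k i) = i := rfl

theorem Star_le_iff (v w : Val) : v ≤ w ↔ lift v < lift w ∨ (lift v = lift w ∧ lab v ≤ lab w) :=
  Prod.Lex.le_iff

theorem Star_val_ext {v w : Val} (h1 : lift v = lift w) (h2 : lab v = lab w) : v = w :=
  ofLex.injective (Prod.ext h1 h2)

theorem Star_shp_inj (a b : ℕ) : Function.Injective (shp a b) := by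
  intro p q h
  have h1 := congrArg Prod.fst h
  have h2 := congrArg (fun r : Pt => lift r.2) h
  have h3 := congrArg (fun r : Pt => lab r.2) h
  simp only [shp, Star_lift_mk, Star_lab_mk] at h1 h2 h3
  exact Prod.ext (by omega) (Star_val_ext (by omega) h3)

theorem Star_im_union (F G : Finset Pt) : im (F ∪ G) = im F ∪ im G := image_union _ _

theorem Star_ok_shift {T : Finset ℕ} (h : Ok T) (b : ℕ) : Ok (T.image (· + b)) := by
  obtain ⟨m, rfl | rfl⟩ := h
  · refine ⟨m + b, Or.inl ?_⟩
    rw [image_insert, image_singleton, show m + 1 + b = m + b + 1 by ring]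
  · refine ⟨m + b, Or.inr ?_⟩
    rw [image_insert, image_insert, image_singleton, show m + 1 + b = m + b + 1 by ring,
      show m + 2 + b = m + b + 2 by ring]

theorem Star_lifts_shF (a b : ℕ) (G : Finset Pt) (i : ℕ) :
    lifts (im (shF a b G)) i = (lifts (im G) i).image (· + b) := by
  ext k
  simp only [lifts, im, mem_image, mem_filter, Star_mem_shF]
  constructor
  · rintro ⟨v, ⟨⟨q, ⟨p, hp, rfl⟩, rfl⟩, hl⟩, rfl⟩
    exact ⟨lift p.2, ⟨p.2, ⟨⟨p, hp, rfl⟩, hl⟩, rfl⟩, rfl⟩
  · rintro ⟨_, ⟨_, ⟨⟨p, hp, rfl⟩, hl⟩, rfl⟩, rfl⟩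
    exact ⟨_, ⟨⟨_, ⟨p, hp, rfl⟩, rfl⟩, hl⟩, rfl⟩

theorem Star_lifts_union (X Y : Finset Val) (i : ℕ) :
    lifts (X ∪ Y) i = lifts X i ∪ lifts Y i := by
  rw [lifts, lifts, lifts, filter_union, image_union]

theorem Star_lifts_empty {A : Finset ℕ} {X : Finset Val} (h : ∀ v ∈ X, lab v ∈ A) {i : ℕ}
    (hi : i ∉ A) : lifts X i = ∅ := by
  rw [lifts, filter_eq_empty_iff.2, image_empty]
  intro v hv hl
  exact hi (hl ▸ h v hv)

theorem Star_TV {I J : Finset ℕ} {F G : Finset Pt} (hd : Disjoint I J) (hI : I.Nonempty)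
    (hJ : J.Nonempty) (hF : TV I F) (hG : TV J G) :
    TV (I ∪ J) (F ∪ shF (3 * I.card) (2 * I.card) G) ∧
      (F ∪ shF (3 * I.card) (2 * I.card) G).card = F.card + G.card := by
  obtain ⟨f1, f2, f3, ⟨f4, f5⟩, f6⟩ := hF
  obtain ⟨g1, g2, g3, ⟨g4, g5⟩, g6⟩ := hG
  have hI' := hI.card_pos
  have hJ' := hJ.card_pos
  have f7 : ∀ p ∈ F, lift p.2 < 2 * I.card := fun p hp => f6 _ (mem_image_of_mem _ hp)
  have g7 : ∀ p ∈ G, lift p.2 < 2 * J.card := fun p hp => g6 _ (mem_image_of_mem _ hp)
  have gl : ∀ v ∈ im (shF (3 * I.card) (2 * I.card) G), lab v ∈ J := by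
    intro v hv
    obtain ⟨q, hq, rfl⟩ := mem_image.1 hv
    obtain ⟨p, hp, rfl⟩ := Star_mem_shF.1 hq
    exact g4 p.2 (mem_image_of_mem Prod.snd hp)
  refine ⟨⟨?_, ?_, ?_, ⟨?_, ?_⟩, ?_⟩, ?_⟩
  · intro p hp
    rw [card_union_of_disjoint hd]
    rcases mem_union.1 hp with hp | hp
    · have := f1 p hp
      omega
    · obtain ⟨q, hq, rfl⟩ := Star_mem_shF.1 hp
      have := g1 q hq
      change q.1 + 3 * I.card < _
      omega
  · intro p hp q hq hpq
    rcases mem_union.1 hp with hp | hp <;> rcases mem_union.1 hq with hq | hq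
    · exact f2 p hp q hq hpq
    · obtain ⟨q', hq', rfl⟩ := Star_mem_shF.1 hq
      rw [Star_le_iff]
      left
      have := f7 p hp
      change lift p.2 < lift q'.2 + 2 * I.card
      omega
    · obtain ⟨p', hp', rfl⟩ := Star_mem_shF.1 hp
      have := f1 q hq
      change p'.1 + 3 * I.card < q.1 at hpq
      omega
    · obtain ⟨p', hp', rfl⟩ := Star_mem_shF.1 hp
      obtain ⟨q', hq', rfl⟩ := Star_mem_shF.1 hq
      change p'.1 + 3 * I.card < q'.1 + 3 * I.card at hpq
      have h1 := g2 p' hp' q' hq' (by omega)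
      rw [Star_le_iff] at h1 ⊢
      simp only [Star_lift_mk, Star_lab_mk]
      omega
  · intro p hp q hq hpq
    rcases mem_union.1 hp with hp | hp <;> rcases mem_union.1 hq with hq | hq
    · exact f3 p hp q hq hpq
    · obtain ⟨q', hq', rfl⟩ := Star_mem_shF.1 hq
      have := f1 p hp
      change p.1 = q'.1 + 3 * I.card at hpq
      omega
    · obtain ⟨p', hp', rfl⟩ := Star_mem_shF.1 hp
      have := f1 q hq
      change p'.1 + 3 * I.card = q.1 at hpq
      omega
    · obtain ⟨p', hp', rfl⟩ := Star_mem_shF.1 hp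
      obtain ⟨q', hq', rfl⟩ := Star_mem_shF.1 hq
      change p'.1 + 3 * I.card = q'.1 + 3 * I.card at hpq
      rw [g3 p' hp' q' hq' (by omega)]
  · intro v hv
    rw [Star_im_union, mem_union] at hv
    rcases hv with hv | hv
    · exact mem_union_left _ (f4 v hv)
    · exact mem_union_right _ (gl v hv)
  · intro i hi
    rw [Star_im_union, Star_lifts_union]
    rcases mem_union.1 hi with hi | hi
    · rw [Star_lifts_empty gl (disjoint_left.1 hd hi), union_empty]
      exact f5 i hi
    · rw [Star_lifts_empty f4 (disjoint_right.1 hd hi), empty_union, Star_lifts_shF]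
      exact Star_ok_shift (g5 i hi) _
  · intro v hv
    rw [Star_im_union, mem_union] at hv
    rw [card_union_of_disjoint hd]
    rcases hv with hv | hv
    · have := f6 v hv
      omega
    · obtain ⟨q, hq, rfl⟩ := mem_image.1 hv
      obtain ⟨p, hp, rfl⟩ := Star_mem_shF.1 hq
      have := g7 p hp
      change lift p.2 + 2 * I.card < _
      omega
  · rw [card_union_of_disjoint, shF, card_image_of_injective _ (Star_shp_inj _ _)]
    rw [disjoint_left]
    intro p hp hp'
    obtain ⟨q, hq, rfl⟩ := Star_mem_shF.1 hp'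
    have := f1 _ hp
    change q.1 + 3 * I.card < _ at this
    omega

theorem Star_shF_union (a b : ℕ) (F G : Finset Pt) :
    shF a b (F ∪ G) = shF a b F ∪ shF a b G := image_union _ _

theorem Star_shF_shF (a b a' b' : ℕ) (G : Finset Pt) :
    shF a b (shF a' b' G) = shF (a' + a) (b' + b) G := by
  rw [shF, shF, shF, image_image]
  congr 1
  funext p
  simp only [Function.comp, shp, Star_lift_mk, Star_lab_mk, add_assoc]

theorem mod_Star : StStar := by
  constructor
  · intro I J a b z w hd hI hJ hz hw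
    refine Star_mem (S := fun F => TV I F ∧ F.card = a) (T := fun F => TV J F ∧ F.card = b) ?_ hz hw
    rintro F G ⟨hF, rfl⟩ ⟨hG, rfl⟩
    exact Star_TV hd hI hJ hF hG
  · intro p q z w u
    induction z using Finsupp.induction_linear with
    | zero => simp
    | add z z' h h' => simp only [map_add, LinearMap.add_apply, h, h']
    | single F x =>
      induction w using Finsupp.induction_linear with
      | zero => simp
      | add w w' h h' => simp only [map_add, LinearMap.add_apply, h, h']
      | single G y =>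
        induction u using Finsupp.induction_linear with
        | zero => simp
        | add u u' h h' => simp only [map_add, h, h']
        | single H t =>
          rw [Star_single, Star_single, Star_single, Star_single, Star_shF_union, Star_shF_shF,
            mul_assoc, union_assoc, show 3 * q + 3 * p = 3 * (p + q) by ring,
            show 2 * q + 2 * p = 2 * (p + q) by ring]

end Pool.Agent.Helper40.NF
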