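import Mathlib
import Pool.Agent.Helper40.NF.St

/-!
# Module Sup (MP_42cd19_co)
-/

namespace Pool.Agent.Helper40.NF

open Finset

theorem Sup_bd_apply {α β : Type} [DecidableEq α] [LinearOrder β] (key : α → β)
    (V : Finset α → Prop) (z : Ch α) :
    bd key V z = ∑ F ∈ z.support, z F • bdF key V F := by
  unfold bd
  rw [Finsupp.linearCombination_apply, Finsupp.sum]

theorem Sup_bdF_mem {α β : Type} [DecidableEq α] [LinearOrder β] (key : α → β)
    (V P : Finset α → Prop) (hP : ∀ F, P F → ∀ p ∈ F, V (F.erase p) → P (F.erase p))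
    (a : ℕ) (F : Finset α) (hF : P F) (hc : F.card = a + 1) :
    bdF key V F ∈ supc P a := by
  unfold bdF
  refine Submodule.sum_mem _ fun x hx => ?_
  split_ifs with hV
  · refine Finsupp.single_mem_supported ℚ _ ?_
    refine ⟨hP F hF x hx hV, ?_⟩
    rw [Finset.card_erase_of_mem hx, hc]
    rfl
  · exact Submodule.zero_mem _

theorem mod_Sup : StSup := by
  intro α β _ _ key V P hP
  constructor
  · intro a z hz
    rw [Sup_bd_apply]
    refine Submodule.sum_mem _ fun F hF => Submodule.smul_mem _ _ ?_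
    have h := (Finsupp.mem_supported ℚ z).1 hz
    obtain ⟨h1, h2⟩ := h (Finset.mem_coe.2 hF)
    exact Sup_bdF_mem key V P hP a F h1 h2
  · intro z hz
    rw [Sup_bd_apply]
    refine Finset.sum_eq_zero fun F hF => ?_
    have h := (Finsupp.mem_supported ℚ z).1 hz
    obtain ⟨h1, h2⟩ := h (Finset.mem_coe.2 hF)
    have h3 : F = ∅ := Finset.card_eq_zero.1 h2
    rw [h3]
    unfold bdF
    rw [Finset.sum_empty, smul_zero]

end Pool.Agent.Helper40.NF
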