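import Mathlib
import Pool.Agent.Helper40.NF.St

/-!
# Module Supp: a nonzero value of `HF` gives a monochromatic non-nested matching
-/

namespace Pool.Agent.Helper40.NF

open Finset
open Pool.Agent.Helper89.NM (HasM IsM)

/-- a nonzero `Xl` gives an edge with nonzero weight -/
theorem Supp_Xl {u : ℕ → ℕ → ℚ} {S : Finset Pt} (h : Xl u S ≠ 0) :
    ∃ p ∈ S, ∃ q ∈ S, lift q.2 = lift p.2 + 1 ∧ u p.1 q.1 ≠ 0 := by
  unfold Xl at h
  obtain ⟨p, hp, h1⟩ := Finset.exists_ne_zero_of_sum_ne_zero h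
  obtain ⟨q, hq, h2⟩ := Finset.exists_ne_zero_of_sum_ne_zero h1
  by_cases hl : lift q.2 = lift p.2 + 1
  · rw [if_pos hl] at h2
    exact ⟨p, hp, q, hq, hl, right_ne_zero_of_mul h2⟩
  · rw [if_neg hl] at h2
    exact absurd rfl h2

/-- a nonzero `lam` gives an edge with nonzero weight -/
theorem Supp_lam {u : ℕ → ℕ → ℚ} {S : Finset Pt} (h : lam u S ≠ 0) :
    ∃ p ∈ S, ∃ q ∈ S, lift q.2 = lift p.2 + 1 ∧ u p.1 q.1 ≠ 0 := by
  unfold lam dl at h
  obtain ⟨r, hr, h1⟩ := Finset.exists_ne_zero_of_sum_ne_zero h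
  split_ifs at h1 with hc
  · obtain ⟨p, hp, q, hq, h2, h3⟩ := Supp_Xl (right_ne_zero_of_mul h1)
    exact ⟨p, Finset.mem_of_mem_erase hp, q, Finset.mem_of_mem_erase hq, h2, h3⟩
  · exact absurd rfl h1

/-- if all edges have weight one then `lam` is the boundary of `El` -/
theorem Supp_lam_one {u : ℕ → ℕ → ℚ} {S : Finset Pt}
    (h : ∀ p ∈ S, ∀ q ∈ S, lift q.2 = lift p.2 + 1 → u p.1 q.1 = 1) : lam u S = dl El S := by
  unfold lam dl
  refine Finset.sum_congr rfl fun r hr => ?_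
  split_ifs with hc
  · congr 1
    unfold El Xl
    refine Finset.sum_congr rfl fun p hp => Finset.sum_congr rfl fun q hq => ?_
    split_ifs with hl
    · rw [h p (Finset.mem_of_mem_erase hp) q (Finset.mem_of_mem_erase hq) hl]
      rfl
    · rfl
  · rfl

/-- an edge of label `i` with weight `γ` -/
def Supp_E (u : ℕ → ℕ → ℚ) (γ : ℚ) (F : Finset Pt) (i : ℕ) (e : Pt × Pt) : Prop :=
  e.1 ∈ F ∧ e.2 ∈ F ∧ lab e.1.2 = i ∧ lab e.2.2 = i ∧ lift e.2.2 = lift e.1.2 + 1 ∧
    u e.1.1 e.2.1 = γ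

theorem Supp_val_lt {v w : Val} : v < w ↔ lift v < lift w ∨ (lift v = lift w ∧ lab v < lab w) := by
  show toLex (ofLex v) < toLex (ofLex w) ↔ _
  rw [Prod.Lex.toLex_lt_toLex]
  rfl

theorem Supp_val_ext {v w : Val} (h1 : lift v = lift w) (h2 : lab v = lab w) : v = w := by
  have : ofLex v = ofLex w := Prod.ext h1 h2
  exact this

/-- the value order determines the slot order -/
theorem Supp_slot {G : Finset Val → Prop} {N : ℕ} {F : Finset Pt} (hF : MC G N F) {p q : Pt}
    (hp : p ∈ F) (hq : q ∈ F) (h : p.2 < q.2) : p.1 < q.1 := by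
  rcases lt_trichotomy p.1 q.1 with h1 | h1 | h1
  · exact h1
  · have := hF.2.2.1 p hp q hq h1
    rw [this] at h
    exact absurd h (lt_irrefl _)
  · exact absurd h (not_lt.2 (hF.2.1 q hq p hp h1))

/-- a system of edges gives a matching -/
theorem Supp_match {c : ℕ → ℕ → ℚ} {γ : ℚ} {m a : ℕ} {F : Finset Pt} (hm : 1 ≤ m)
    (hF : TV (range m) F) (h : ∀ i ∈ range m, ∃ e, Supp_E (csh c a) γ F i e) :
    HasM c γ a m := by
  have hF' : MC (GV (range m) (2 * (range m).card)) (3 * (range m).card - 1) F := hF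
  rw [card_range] at hF'
  choose! e he using h
  have hlt : ∀ i ∈ range m, (e i).1.1 < (e i).2.1 := by
    intro i hi
    obtain ⟨h1, h2, h3, h4, h5, h6⟩ := he i hi
    refine Supp_slot hF' h1 h2 ?_
    rw [Supp_val_lt]
    left
    omega
  -- comparison of two different labels
  have hcmp : ∀ i ∈ range m, ∀ j ∈ range m, i ≠ j →
      ((e i).1.1 < (e j).1.1 ∧ (e i).2.1 < (e j).2.1) ∨
      ((e j).1.1 < (e i).1.1 ∧ (e j).2.1 < (e i).2.1) := by
    intro i hi j hj hij
    obtain ⟨h1, h2, h3, h4, h5, h6⟩ := he i hi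
    obtain ⟨k1, k2, k3, k4, k5, k6⟩ := he j hj
    rcases lt_trichotomy (e i).1.2 (e j).1.2 with h | h | h
    · left
      refine ⟨Supp_slot hF' h1 k1 h, Supp_slot hF' h2 k2 ?_⟩
      rw [Supp_val_lt] at h ⊢
      rw [h3, k3] at h
      rw [h4, k4]
      omega
    · rw [h, k3] at h3
      exact absurd h3.symm hij
    · right
      refine ⟨Supp_slot hF' k1 h1 h, Supp_slot hF' k2 h2 ?_⟩
      rw [Supp_val_lt] at h ⊢
      rw [h3, k3] at h
      rw [h4, k4]
      omega
  have hne : ∀ i ∈ range m, ∀ j ∈ range m, i ≠ j → (e i).1.1 ≠ (e j).2.1 := by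
    intro i hi j hj hij heq
    obtain ⟨h1, h2, h3, h4, h5, h6⟩ := he i hi
    obtain ⟨k1, k2, k3, k4, k5, k6⟩ := he j hj
    have := hF'.2.2.1 _ h1 _ k2 heq
    rw [this, k4] at h3
    exact hij h3.symm
  set f : ℕ → ℕ × ℕ := fun i => ((e i).1.1 + a, (e i).2.1 + a) with hf
  have hinj : Set.InjOn f (range m : Set ℕ) := by
    intro i hi j hj hij
    by_contra hne'
    rcases hcmp i hi j hj hne' with h | h
    · have : (e i).1.1 + a = (e j).1.1 + a := congrArg Prod.fst hij
      omega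
    · have : (e i).1.1 + a = (e j).1.1 + a := congrArg Prod.fst hij
      omega
  refine ⟨(range m).image f, ?_, ?_, ?_, ?_, ?_, ?_, ?_⟩
  · rw [card_image_of_injOn hinj, card_range]
  · intro x hx
    obtain ⟨i, hi, rfl⟩ := mem_image.1 hx
    simp only [hf]
    omega
  · intro x hx
    obtain ⟨i, hi, rfl⟩ := mem_image.1 hx
    have := hlt i hi
    simp only [hf]
    omega
  · intro x hx
    obtain ⟨i, hi, rfl⟩ := mem_image.1 hx
    have := hF'.1 _ (he i hi).2.1
    simp only [hf]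
    omega
  · intro x hx
    obtain ⟨i, hi, rfl⟩ := mem_image.1 hx
    exact (he i hi).2.2.2.2.2
  · intro x hx y hy hxy
    obtain ⟨i, hi, rfl⟩ := mem_image.1 hx
    obtain ⟨j, hj, rfl⟩ := mem_image.1 hy
    have hij : i ≠ j := fun h => hxy (by rw [h])
    have h1 := hcmp i hi j hj hij
    have h2 := hne i hi j hj hij
    have h3 := hne j hj i hi hij.symm
    simp only [hf]
    omega
  · intro x hx y hy
    obtain ⟨i, hi, rfl⟩ := mem_image.1 hx
    obtain ⟨j, hj, rfl⟩ := mem_image.1 hy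
    by_cases hij : i = j
    · subst hij
      simp only [hf]
      omega
    · have h1 := hcmp i hi j hj hij
      simp only [hf]
      omega

theorem Supp_mem_loc {F : Finset Pt} {i : ℕ} {p : Pt} (h : p ∈ loc F i) : p ∈ F ∧ lab p.2 = i :=
  mem_filter.1 h

theorem mod_Supp (hL : StLocal) : StSupp := by
  intro c hc m a F hm hF
  have hF' : MC (GV (range m) (2 * (range m).card)) (3 * (range m).card - 1) F := hF
  have hc' : ∀ i j, csh c a i j = 0 ∨ csh c a i j = 1 := fun i j => hc _ _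
  constructor
  · intro h
    unfold HF at h
    obtain ⟨k, hk, h1⟩ := Finset.exists_ne_zero_of_sum_ne_zero h
    split_ifs at h1 with hs
    · have h2 : Xl (csh c a) (loc F k) ≠ 0 := by
        intro h0
        rw [h0] at h1
        simp at h1
      have h3 : ∀ i ∈ (range m).erase k, lam (csh c a) (loc F i) ≠ 0 := by
        intro i hi h0
        apply h1
        rw [Finset.prod_eq_zero hi h0, mul_zero]
      refine Supp_match hm hF fun i hi => ?_
      have h4 : ∃ p ∈ loc F i, ∃ q ∈ loc F i, lift q.2 = lift p.2 + 1 ∧ csh c a p.1 q.1 ≠ 0 := by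
        by_cases hik : i = k
        · rw [hik]
          exact Supp_Xl h2
        · exact Supp_lam (h3 i (Finset.mem_erase.2 ⟨hik, hi⟩))
      obtain ⟨p, hp, q, hq, h5, h6⟩ := h4
      obtain ⟨hp1, hp2⟩ := Supp_mem_loc hp
      obtain ⟨hq1, hq2⟩ := Supp_mem_loc hq
      exact ⟨(p, q), hp1, hq1, hp2, hq2, h5, (hc' _ _).resolve_left h6⟩
    · exact absurd rfl h1
  · intro h
    unfold HF at h
    obtain ⟨k, hk, h1⟩ := Finset.exists_ne_zero_of_sum_ne_zero h
    split_ifs at h1 with hs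
    · have h2 : Xl (fun i j => 1 - csh c a i j) (loc F k) ≠ 0 := by
        intro h0
        rw [h0] at h1
        simp at h1
      have h3 : ∀ i ∈ (range m).erase k, lam (csh c a) (loc F i) ≠ 0 := by
        intro i hi h0
        apply h1
        rw [Finset.prod_eq_zero hi h0, mul_zero]
      refine Supp_match hm hF fun i hi => ?_
      have h4 : ∃ p ∈ loc F i, ∃ q ∈ loc F i, lift q.2 = lift p.2 + 1 ∧ csh c a p.1 q.1 ≠ 1 := by
        by_cases hik : i = k
        · rw [hik]
          obtain ⟨p, hp, q, hq, h5, h6⟩ := Supp_Xl h2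
          refine ⟨p, hp, q, hq, h5, fun h7 => h6 ?_⟩
          show 1 - csh c a p.1 q.1 = 0
          rw [h7, sub_self]
        · by_contra hno
          push Not at hno
          refine h3 i (Finset.mem_erase.2 ⟨hik, hi⟩) ?_
          rw [Supp_lam_one hno]
          exact hL.1 _ (hL.2.2.2.1 _ _ _ _ hF' i hi) (hs.2 i hi hik)
      obtain ⟨p, hp, q, hq, h5, h6⟩ := h4
      obtain ⟨hp1, hp2⟩ := Supp_mem_loc hp
      obtain ⟨hq1, hq2⟩ := Supp_mem_loc hq
      exact ⟨(p, q), hp1, hq1, hp2, hq2, h5, (hc' _ _).resolve_right h6⟩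
    · exact absurd rfl h1

end Pool.Agent.Helper40.NF
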