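import Mathlib
import Pool.Agent.Helper40.NF.St
import Pool.Agent.Helper40.NF.M_BB
import Pool.Agent.Helper40.NF.M_Sup
import Pool.Agent.Helper40.NF.M_Conv
import Pool.Agent.Helper40.NF.M_Loc
import Pool.Agent.Helper40.NF.M_Eta
import Pool.Agent.Helper40.NF.M_Grid
import Pool.Agent.Helper40.NF.M_Pi
import Pool.Agent.Helper40.NF.M_Hs
import Pool.Agent.Helper40.NF.M_Hj
import Pool.Agent.Helper40.NF.M_K
import Pool.Agent.Helper40.NF.M_Acy
import Pool.Agent.Helper40.NF.M_Sign
import Pool.Agent.Helper40.NF.M_Local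
import Pool.Agent.Helper40.NF.M_Aug
import Pool.Agent.Helper40.NF.M_Fun
import Pool.Agent.Helper40.NF.M_ProdH
import Pool.Agent.Helper40.NF.M_RelH
import Pool.Agent.Helper40.NF.M_Supp
import Pool.Agent.Helper40.NF.M_Star
import Pool.Agent.Helper40.NF.M_Leib
import Pool.Agent.Helper40.NF.M_Cyc
import Pool.Agent.Helper40.NF.M_Rel
import Pool.Agent.Helper40.NF.M_En
import Pool.Agent.Helper40.NF.M_FamEq
import Pool.Agent.Helper40.NF.M_Aug2
import Pool.Agent.Helper40.NF.M_Fam
import Pool.Agent.Helper40.NF.M_Final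

/-!
# Assembly of all modules
-/

namespace Pool.Agent.Helper40.NF

theorem chainNumbers : Pool.Agent.Helper89.NM.ChainNumbers := by
  have hBB := mod_BB
  have hS := mod_Sup
  have hC := mod_Conv
  have hLoc := mod_Loc
  have hE := mod_Eta
  have hGrid := mod_Grid hBB hS hC hE
  have hPi := mod_Pi
  have hHs := mod_Hs
  have hHj := mod_Hj
  have hK := mod_K hPi hHs hHj hBB hS hC
  have hSign := mod_Sign
  have hL := mod_Local
  have hAug := mod_Aug hSign hLoc hL
  have hAcy := mod_Acy hGrid hPi hK hAug hBB hS hC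
  have hFun := mod_Fun hSign hLoc hL
  have hPH := mod_ProdH
  have hRH := mod_RelH
  have hSu := mod_Supp hL
  have hSt := mod_Star
  have hLeib := mod_Leib
  have hCy := mod_Cyc hSt hLeib hS hC
  have hR := mod_Rel
  have hEn := mod_En
  have hFE := mod_FamEq hR hEn hS hC
  have hA2 := mod_Aug2
  have hF := mod_Fam hAcy hCy hFE hA2 hEn hC
  exact mod_Final hF hFun hPH hRH hSu hEn hR

/-- the upper bound for all `n` -/
theorem arrows (n : ℕ) (hn : 1 ≤ n) : Pool.Agent.Helper21.NN.Arrows (3 * n - 1) n :=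
  Pool.Agent.Helper89.NM.arrows_of_chainNumbers chainNumbers n hn

end Pool.Agent.Helper40.NF
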