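import Mathlib
import Pool.Agent.Helper40.NF.St

/-!
# Assembly: the chain numbers exist
-/

namespace Pool.Agent.Helper40.NF

open Finset
open Pool.Agent.Helper89.NM (HasM ChainNumbers)

lemma Final_ev (φ : Finset Pt → ℚ) (z : Ch Pt) : ev φ z = z.sum (fun F c => c * φ F) := by
  simp [ev, Finsupp.linearCombination_apply]

lemma Final_ev_map (φ : Finset Pt → ℚ) (g : Finset Pt → Finset Pt) (z : Ch Pt) :
    ev φ (Finsupp.mapDomain g z) = ev (fun F => φ (g F)) z := by
  rw [Final_ev, Final_ev, Finsupp.sum_mapDomain_index]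
  · intro; simp
  · intros; ring

lemma Final_ev_congr (φ ψ : Finset Pt → ℚ) (z : Ch Pt) (h : ∀ F ∈ z.support, φ F = ψ F) :
    ev φ z = ev ψ z := by
  rw [Final_ev, Final_ev]
  exact Finsupp.sum_congr (fun F hF => by rw [h F hF])

lemma Final_mem {P : Finset Pt → Prop} {a : ℕ} {z : Ch Pt} (h : z ∈ supc P a) {F : Finset Pt}
    (hF : F ∈ z.support) : P F ∧ F.card = a := by
  have h2 : (z.support : Set (Finset Pt)) ⊆ {F | P F ∧ F.card = a} :=
    (Finsupp.mem_supported ℚ z).1 h
  exact h2 hF

lemma Final_Xl_add (u v : ℕ → ℕ → ℚ) (S : Finset Pt) :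
    Xl (fun i j => u i j + v i j) S = Xl u S + Xl v S := by
  simp only [Xl, ← Finset.sum_add_distrib]
  refine Finset.sum_congr rfl (fun p _ => Finset.sum_congr rfl (fun q _ => ?_))
  split_ifs <;> ring

lemma Final_HF_add (u v c : ℕ → ℕ → ℚ) (A : Finset ℕ) (F : Finset Pt) :
    HF (fun i j => u i j + v i j) c A F = HF u c A F + HF v c A F := by
  simp only [HF, ← Finset.sum_add_distrib]
  refine Finset.sum_congr rfl (fun k _ => ?_)
  split_ifs
  · rw [Final_Xl_add]; ring
  · ring

lemma Final_HF_base (u c : ℕ → ℕ → ℚ) : HF u c (range 1) base = u 0 1 := by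
  have hne : ((0, mk 0 0) : Pt) ≠ (1, mk 1 0) := by
    intro h; have := congrArg Prod.fst h; simp at this
  have hloc : loc base 0 = base := by
    apply Finset.filter_true_of_mem
    intro p hp
    simp only [base, Finset.mem_insert, Finset.mem_singleton] at hp
    rcases hp with rfl | rfl <;> rfl
  have hcard : base.card = 2 := Finset.card_pair hne
  have hsing : Sing (range 1) base 0 := by
    refine ⟨by rw [hloc, hcard], ?_⟩
    intro i hi hne
    simp at hi
    exact absurd hi hne
  have hshs : shs base = 1 := by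
    unfold shs
    rw [Finset.filter_false_of_mem]
    · simp
    · rintro ⟨p, q⟩ hpq
      simp only [Finset.mem_product, base, Finset.mem_insert, Finset.mem_singleton] at hpq
      rcases hpq with ⟨rfl | rfl, rfl | rfl⟩ <;> simp [mk, lab]
  have hep : ep (range 1) base 0 = 1 := by
    simp [ep]
  have hXl : Xl u base = u 0 1 := by
    unfold Xl base
    rw [Finset.sum_pair hne, Finset.sum_pair hne, Finset.sum_pair hne]
    simp [mk, lift]
  have hr : (range 1 : Finset ℕ) = {0} := Finset.range_one
  unfold HF
  rw [Finset.sum_eq_single 0]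
  · rw [if_pos hsing, hep, hshs, hloc, hXl, hr]
    simp
  · intro b hb hb0
    rw [hr, Finset.mem_singleton] at hb
    exact absurd hb hb0
  · intro h
    simp at h

/-- grouping the proper nonempty subsets by cardinality -/
lemma Final_group (m : ℕ) (f : ℕ → ℚ) :
    ∑ I ∈ spl (range m), f I.card = ∑ i ∈ Finset.Ico 1 m, (m.choose i : ℚ) * f i := by
  have h1 : ∑ I ∈ spl (range m), f I.card =
      ∑ I ∈ (range m).powerset, (fun k => if k ≠ 0 ∧ k ≠ m then f k else 0) I.card := by
    rw [spl, Finset.sum_filter]
    refine Finset.sum_congr rfl (fun I hI => ?_)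
    have hI' : I ⊆ range m := Finset.mem_powerset.1 hI
    have e1 : (I ≠ ∅ ∧ I ≠ range m) ↔ (I.card ≠ 0 ∧ I.card ≠ m) := by
      constructor
      · rintro ⟨h1, h2⟩
        refine ⟨by simpa using h1, fun h3 => h2 ?_⟩
        exact Finset.eq_of_subset_of_card_le hI' (by simp [h3])
      · rintro ⟨h1, h2⟩
        refine ⟨by rintro rfl; simp at h1, ?_⟩
        rintro rfl
        simp at h2
    by_cases h : I ≠ ∅ ∧ I ≠ range m
    · rw [if_pos h]; simp only [if_pos (e1.1 h)]
    · rw [if_neg h]; simp only [if_neg (fun h2 => h (e1.2 h2))]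
  rw [h1, Finset.sum_powerset_apply_card (fun k => if k ≠ 0 ∧ k ≠ m then f k else 0),
    Finset.card_range]
  have h2 : Finset.Ico 1 m ⊆ range (m + 1) := by
    intro i hi
    rw [Finset.mem_Ico] at hi
    rw [Finset.mem_range]; omega
  rw [← Finset.sum_subset h2]
  · refine Finset.sum_congr rfl (fun i hi => ?_)
    rw [Finset.mem_Ico] at hi
    rw [if_pos (by omega), nsmul_eq_mul]
  · intro i hi hi2
    rw [Finset.mem_range] at hi
    rw [Finset.mem_Ico] at hi2
    rw [if_neg (by omega)]
    simp

lemma Final_star (φ : Finset Pt → ℚ) (p : ℕ) (z w : Ch Pt) :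
    ev φ (star p z w) =
      z.sum (fun F a => w.sum (fun G b => a * b * φ (F ∪ shF (3 * p) (2 * p) G))) := by
  have h1 : star p z w = z.sum (fun F a => a • Finsupp.mapDomain (fun G => F ∪ shF (3 * p) (2 * p) G) w) := by
    simp only [star, Finsupp.linearCombination_apply, Finsupp.sum, LinearMap.sum_apply,
      LinearMap.smul_apply, Finsupp.lmapDomain_apply]
  rw [h1, Finsupp.sum, map_sum]
  refine Finset.sum_congr rfl (fun F _ => ?_)
  rw [map_smul, Final_ev_map, Final_ev, smul_eq_mul]
  simp only [Finsupp.sum]
  rw [Finset.mul_sum]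
  refine Finset.sum_congr rfl (fun G _ => ?_)
  ring

lemma Final_csh (c : ℕ → ℕ → ℚ) (a b : ℕ) : csh (csh c a) b = csh c (a + b) := by
  funext i j
  simp only [csh]
  congr 1 <;> ring

theorem mod_Final (hF : StFam) (hFun : StFun) (hPH : StProdH) (hRH : StRelH) (hSu : StSupp)
    (hE : StEn) (hR : StRel) : ChainNumbers := by
  intro c hc
  obtain ⟨cc, hc1, hcc⟩ := hF
  -- value on the family
  have hfam : ∀ (u c' : ℕ → ℕ → ℚ) (I : Finset ℕ), 1 ≤ I.card →
      ev (HF u c' I) (fam cc I) = ev (HF u c' (range I.card)) (cc I.card) := by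
    intro u c' I hI
    have hm := (hE.1 I).1
    have hi := (hE.1 I).2
    have h1 : fam cc I = Finsupp.mapDomain (rlF (en I)) (cc I.card) := rfl
    rw [h1, Final_ev_map]
    apply Final_ev_congr
    intro F hF
    have hF2 := Final_mem (hcc _ hI).1 hF
    have hlab : ∀ p ∈ F, lab p.2 ∈ range I.card := by
      intro p hp
      exact hF2.1.2.2.2.1.1 _ (Finset.mem_image_of_mem _ hp)
    have := hRH u c' (en I) (range I.card) F (by exact_mod_cast hm) hlab
    rw [hi] at this
    exact this
  have hfs : ∀ (I : Finset ℕ), 1 ≤ I.card → fam cc I ∈ supc (TV I) (3 * I.card - 1) := by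
    intro I hI
    have hm := (hE.1 I).1
    have hi := (hE.1 I).2
    have := (hR.1 (en I) (range I.card) (by exact_mod_cast hm)).2 (3 * I.card - 1) (cc I.card)
      (hcc _ hI).1
    rw [hi] at this
    exact this
  refine ⟨fun m a => ev (HF (csh c a) (csh c a) (range m)) (cc m),
    fun m a => ev (HF (fun i j => 1 - csh c a i j) (csh c a) (range m)) (cc m), ?_, ?_, ?_, ?_⟩
  · intro a
    constructor
    · show ev (HF (csh c a) (csh c a) (range 1)) (cc 1) = _
      rw [hc1, Final_ev, Finsupp.sum_single_index (by simp), Final_HF_base]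
      simp [csh, Nat.add_comm]
    · show ev (HF (fun i j => 1 - csh c a i j) (csh c a) (range 1)) (cc 1) = _
      rw [hc1, Final_ev, Finsupp.sum_single_index (by simp), Final_HF_base]
      simp [csh, Nat.add_comm]
  · intro m a hm
    -- the sum is the constant weight functional
    have hxy : ∀ m a, ev (HF (csh c a) (csh c a) (range m)) (cc m) +
        ev (HF (fun i j => 1 - csh c a i j) (csh c a) (range m)) (cc m) =
        ev (HF one2 (csh c a) (range m)) (cc m) := by
      intro m a
      have e : (one2 : ℕ → ℕ → ℚ) = fun i j => csh c a i j + (1 - csh c a i j) := by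
        funext i j; simp [one2]
      rw [e, Final_ev, Final_ev, Final_ev, ← Finsupp.sum_add]
      refine Finsupp.sum_congr (fun F _ => ?_)
      rw [Final_HF_add]; ring
    show ((m : ℚ) - 1) * (ev (HF (csh c a) (csh c a) (range m)) (cc m) +
        ev (HF (fun i j => 1 - csh c a i j) (csh c a) (range m)) (cc m)) = _
    rw [hxy]
    have h1 : ((m : ℚ) - 1) * ev (HF one2 (csh c a) (range m)) (cc m) =
        ev (XiF (csh c a) (range m)) (bdA (range m) (cc m)) := by
      have e1 : ev (XiF (csh c a) (range m)) (bdA (range m) (cc m)) =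
          (cc m).sum (fun F b => b * ev (XiF (csh c a) (range m))
            (bdA (range m) (Finsupp.single F 1))) := by
        conv_lhs => rw [← Finsupp.sum_single (cc m)]
        rw [Finsupp.sum, map_sum, map_sum]
        refine Finset.sum_congr rfl (fun F _ => ?_)
        have : (Finsupp.single F (cc m F) : Ch Pt) = (cc m F) • Finsupp.single F 1 := by simp
        rw [this, map_smul, map_smul, smul_eq_mul]
      rw [e1, Final_ev, Finsupp.sum, Finset.mul_sum]
      refine Finset.sum_congr rfl (fun F hF => ?_)
      have hF2 := Final_mem (hcc m hm).1 hF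
      have := hFun (csh c a) (range m) _ _ F hF2.1 (by rw [hF2.2, Finset.card_range]; omega)
      show _ = cc m F * ev (XiF (csh c a) (range m)) (bdA (range m) (Finsupp.single F 1))
      rw [this, Finset.card_range]
      ring
    rw [h1, (hcc m hm).2, rhs, map_sum]
    have h2 : ∀ I ∈ spl (range m), ev (XiF (csh c a) (range m))
        (((-1 : ℚ) ^ (I.card + inv I (range m \ I))) •
          star I.card (fam cc I) (fam cc (range m \ I))) =
        (fun i : ℕ => ev (HF (csh c a) (csh c a) (range i)) (cc i) *
          ev (HF one2 (csh c (a + 3 * i)) (range (m - i))) (cc (m - i)) -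
          ev (HF one2 (csh c a) (range i)) (cc i) *
          ev (HF (csh c (a + 3 * i)) (csh c (a + 3 * i)) (range (m - i))) (cc (m - i))) I.card := by
      intro I hI
      rw [spl, Finset.mem_filter, Finset.mem_powerset] at hI
      obtain ⟨hsub, hne, hne2⟩ := hI
      set J := range m \ I with hJ
      have hd : Disjoint I J := Finset.disjoint_sdiff
      have hIJ : I ∪ J = range m := Finset.union_sdiff_of_subset hsub
      have hInon : I.Nonempty := Finset.nonempty_iff_ne_empty.2 hne
      have hJnon : J.Nonempty := by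
        rw [Finset.nonempty_iff_ne_empty]
        intro h0
        apply hne2
        rw [← hIJ, h0, Finset.union_empty]
      have hJc : J.card = m - I.card := by
        rw [hJ, Finset.card_sdiff_of_subset hsub, Finset.card_range]
      have hI1 : 1 ≤ I.card := hInon.card_pos
      have hJ1 : 1 ≤ J.card := hJnon.card_pos
      rw [map_smul, Final_star]
      have e1 : (fam cc I).sum (fun F x => (fam cc J).sum (fun G y =>
          x * y * XiF (csh c a) (range m) (F ∪ shF (3 * I.card) (2 * I.card) G))) =
          (-1) ^ (I.card + inv I J) *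
          (ev (HF (csh c a) (csh c a) I) (fam cc I) *
            ev (HF one2 (csh c (a + 3 * I.card)) J) (fam cc J) -
            ev (HF one2 (csh c a) I) (fam cc I) *
            ev (HF (csh c (a + 3 * I.card)) (csh c (a + 3 * I.card)) J) (fam cc J)) := by
        have e2 : ∀ F ∈ (fam cc I).support, ∀ G ∈ (fam cc J).support,
            XiF (csh c a) (range m) (F ∪ shF (3 * I.card) (2 * I.card) G) =
            (-1) ^ (I.card + inv I J) *
            (HF (csh c a) (csh c a) I F * HF one2 (csh c (a + 3 * I.card)) J G -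
             HF one2 (csh c a) I F * HF (csh c (a + 3 * I.card)) (csh c (a + 3 * I.card)) J G) := by
          intro F hF G hG
          have hF2 := Final_mem (hfs I hI1) hF
          have hG2 := Final_mem (hfs J hJ1) hG
          have := hPH (csh c a) I J F G hd hInon hJnon hF2.1 (by rw [hF2.2]; omega) hG2.1
            (by rw [hG2.2]; omega)
          rw [hIJ, Final_csh] at this
          exact this
        rw [Final_ev, Final_ev, Final_ev, Final_ev]
        simp only [Finsupp.sum]
        rw [Finset.sum_mul_sum, Finset.sum_mul_sum, ← Finset.sum_sub_distrib, Finset.mul_sum]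
        refine Finset.sum_congr rfl (fun F hF => ?_)
        rw [← Finset.sum_sub_distrib, Finset.mul_sum]
        refine Finset.sum_congr rfl (fun G hG => ?_)
        rw [e2 F hF G hG]
        ring
      rw [e1, hfam _ _ I hI1, hfam _ _ J hJ1, hfam _ _ I hI1, hfam _ _ J hJ1, hJc]
      have e3 : ((-1 : ℚ) ^ (I.card + inv I J)) * ((-1 : ℚ) ^ (I.card + inv I J)) = 1 := by
        rw [← mul_pow]; simp
      rw [smul_eq_mul, ← mul_assoc, e3, one_mul]
    rw [Finset.sum_congr rfl h2, Final_group m (fun i : ℕ => ev (HF (csh c a) (csh c a) (range i)) (cc i) *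
          ev (HF one2 (csh c (a + 3 * i)) (range (m - i))) (cc (m - i)) -
          ev (HF one2 (csh c a) (range i)) (cc i) *
          ev (HF (csh c (a + 3 * i)) (csh c (a + 3 * i)) (range (m - i))) (cc (m - i)))]
    refine Finset.sum_congr rfl (fun i _ => ?_)
    rw [← hxy i a, ← hxy (m - i) (a + 3 * i)]
    ring
  · intro m a hm hne
    have : ∃ F ∈ (cc m).support, HF (csh c a) (csh c a) (range m) F ≠ 0 := by
      by_contra hcon
      push Not at hcon
      apply hne
      show ev (HF (csh c a) (csh c a) (range m)) (cc m) = 0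
      rw [Final_ev, Finsupp.sum]
      exact Finset.sum_eq_zero (fun F hF => by rw [hcon F hF, mul_zero])
    obtain ⟨F, hF, hne2⟩ := this
    exact (hSu c hc m a F hm (Final_mem (hcc m hm).1 hF).1).1 hne2
  · intro m a hm hne
    have : ∃ F ∈ (cc m).support, HF (fun i j => 1 - csh c a i j) (csh c a) (range m) F ≠ 0 := by
      by_contra hcon
      push Not at hcon
      apply hne
      show ev (HF (fun i j => 1 - csh c a i j) (csh c a) (range m)) (cc m) = 0
      rw [Final_ev, Finsupp.sum]
      exact Finset.sum_eq_zero (fun F hF => by rw [hcon F hF, mul_zero])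
    obtain ⟨F, hF, hne2⟩ := this
    exact (hSu c hc m a F hm (Final_mem (hcc m hm).1 hF).1).2 hne2

end Pool.Agent.Helper40.NF
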