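import Pool.Agent.Helper52.NF.St2

/-!
# Project NF, module GRD: the greedy choice
-/

set_option autoImplicit false

namespace Pool.Agent.Helper40.NF

open Pool.Agent.Helper52.NF Finset

open Classical in
theorem hGRD : StGRD := by
  intro A B _ I T
  induction T using Finset.strongInduction with
  | H T ih =>
  intro hL
  by_cases hT : T.Nonempty
  swap
  · rw [Finset.not_nonempty_iff_eq_empty] at hT
    subst hT
    refine ⟨∅, ∅, le_rfl, fun h => h, ?_, ?_⟩
    · intro f hf
      exact absurd hf (Finset.notMem_empty _)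
    · intro K ρ _
      simp
  obtain ⟨f, hf, hsd⟩ := hL T le_rfl hT
  obtain ⟨Xf, hXf⟩ : ∃ Xf : Finset B,
      Xf = Finset.univ.filter (fun z : B => 4 ≤ (Dz I T z).card ∧ I f z) := ⟨_, rfl⟩
  obtain ⟨O, hO⟩ : ∃ O : Finset A, O = T.filter (fun g => g ≠ f ∧ (∃ z, I f z ∧ I g z) ∧
      ∀ z, I f z → I g z → (Dz I T z).card < 4) := ⟨_, rfl⟩
  rw [← hXf, ← hO] at hsd
  obtain ⟨T', hT'⟩ : ∃ T' : Finset A,
      T' = T.filter (fun g => g ≠ f ∧ ∀ z, ¬ (I f z ∧ I g z)) := ⟨_, rfl⟩
  have hsub : T' ⊆ T := by
    rw [hT']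
    exact Finset.filter_subset _ _
  have hfT' : f ∉ T' := by
    rw [hT', Finset.mem_filter]
    rintro ⟨_, h, _⟩
    exact h rfl
  have hss : T' ⊂ T := by
    refine Finset.ssubset_iff_subset_ne.2 ⟨hsub, ?_⟩
    rintro h
    rw [h] at hfT'
    exact hfT' hf
  obtain ⟨F, X, hF, _, hd, hc⟩ := ih T' hss (fun T'' h => hL T'' (h.trans hsub))
  have hfF : f ∉ F := fun h => hfT' (hF h)
  refine ⟨insert f F, X ∪ Xf, ?_, fun _ => Finset.insert_nonempty _ _, ?_, ?_⟩
  · intro g hg
    rcases Finset.mem_insert.1 hg with rfl | hg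
    · exact hf
    · exact hsub (hF hg)
  · intro g hg g' hg' hne z
    have key : ∀ h ∈ F, ¬ (I f z ∧ I h z) := by
      intro h hh
      have h1 := hF hh
      rw [hT', Finset.mem_filter] at h1
      exact h1.2.2 z
    rcases Finset.mem_insert.1 hg with hg1 | hg1 <;> rcases Finset.mem_insert.1 hg' with hg2 | hg2
    · exact absurd (hg1.trans hg2.symm) hne
    · rw [hg1]
      exact key g' hg2
    · rw [hg2]
      exact fun h => key g hg1 ⟨h.2, h.1⟩
    · exact hd g hg1 g' hg2 hne z
  · intro K ρ hρ
    have h1 := hc K ρ (fun z hz => hρ z (Finset.mem_union_left _ hz))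
    have h2 : T.image ρ ⊆ (T'.image ρ ∪ {ρ f}) ∪ O.image ρ := by
      intro k hk
      obtain ⟨g, hg, rfl⟩ := Finset.mem_image.1 hk
      by_cases hgf : g = f
      · rw [hgf]
        exact Finset.mem_union_left _ (Finset.mem_union_right _ (Finset.mem_singleton_self _))
      by_cases hz : ∀ z, ¬ (I f z ∧ I g z)
      · refine Finset.mem_union_left _ (Finset.mem_union_left _ (Finset.mem_image_of_mem _ ?_))
        rw [hT', Finset.mem_filter]
        exact ⟨hg, hgf, hz⟩
      · push Not at hz
        by_cases hb : ∀ z, I f z → I g z → (Dz I T z).card < 4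
        · refine Finset.mem_union_right _ (Finset.mem_image_of_mem _ ?_)
          rw [hO, Finset.mem_filter]
          exact ⟨hg, hgf, hz, hb⟩
        · push Not at hb
          obtain ⟨z, hz1, hz2, hz3⟩ := hb
          have hzX : z ∈ X ∪ Xf := by
            refine Finset.mem_union_right _ ?_
            rw [hXf, Finset.mem_filter]
            exact ⟨Finset.mem_univ _, hz3, hz1⟩
          rw [hρ z hzX g f hz2 hz1]
          exact Finset.mem_union_left _ (Finset.mem_union_right _ (Finset.mem_singleton_self _))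
    have h3 := Finset.card_le_card h2
    have h4 := Finset.card_union_le (T'.image ρ ∪ {ρ f}) (O.image ρ)
    have h5 := Finset.card_union_le (T'.image ρ) {ρ f}
    have h6 : (O.image ρ).card ≤ O.card := Finset.card_image_le
    have h7 := Finset.card_union_le X Xf
    rw [Finset.card_singleton] at h5
    rw [Finset.card_insert_of_notMem hfF]
    omega

end Pool.Agent.Helper40.NF
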