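import Mathlib
import Pool.Agent.Helper40.NF.St

/-!
# Module Local (MP_42cd19_co)
-/

namespace Pool.Agent.Helper40.NF

open Finset

/-- lifts of a cell -/
def Local_T (S : Finset Pt) : Finset ℕ := (im S).image lift

theorem Local_mem_T (S : Finset Pt) (k : ℕ) : k ∈ Local_T S ↔ ∃ q ∈ S, lift q.2 = k := by
  unfold Local_T im
  simp only [mem_image]
  constructor
  · rintro ⟨v, ⟨q, hq, rfl⟩, hk⟩
    exact ⟨q, hq, hk⟩
  · rintro ⟨q, hq, hk⟩
    exact ⟨q.2, ⟨q, hq, rfl⟩, hk⟩

theorem Local_T_mono {S S' : Finset Pt} (h : S ⊆ S') : Local_T S ⊆ Local_T S' := by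
  intro k hk
  rw [Local_mem_T] at hk ⊢
  obtain ⟨q, hq, h1⟩ := hk
  exact ⟨q, h hq, h1⟩

theorem Local_Ok_card {T : Finset ℕ} (h : Ok T) : 2 ≤ T.card := by
  obtain ⟨m, rfl | rfl⟩ := h
  · rw [card_pair (by omega)]
  · rw [card_insert_of_notMem (by simp), card_pair (by omega)]
    omega

theorem Local_T_card (S : Finset Pt) : (Local_T S).card ≤ S.card := by
  unfold Local_T im
  exact (card_image_le).trans card_image_le

theorem Local_Ok_conv {X Y Z : Finset ℕ} (hYZ : Y ⊆ Z) (hZX : Z ⊆ X) (hY : Ok Y) (hX : Ok X) :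
    Ok Z := by
  obtain ⟨m, hm⟩ := hX
  have hc : X.card ≤ 3 := by
    rcases hm with rfl | rfl
    · rw [card_pair (by omega)]; omega
    · rw [card_insert_of_notMem (by simp), card_pair (by omega)]
  have h1 := Local_Ok_card hY
  have h2 := card_le_card hYZ
  have h3 := card_le_card hZX
  by_cases h4 : Z.card = Y.card
  · rw [eq_of_subset_of_card_le hYZ h4.le] at hY
    exact hY
  · have h5 : Z = X := eq_of_subset_of_card_le hZX (by omega)
    rw [h5]
    exact ⟨m, hm⟩

theorem Local_sg_erase_lt (S : Finset Pt) (p q : Pt) (hp : p ∈ S) (h : p.1 < q.1) :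
    sg (Prod.fst : Pt → ℕ) (S.erase p) q = -sg (Prod.fst : Pt → ℕ) S q := by
  unfold sg
  have h1 : (S.erase p).filter (fun y => y.1 < q.1) = (S.filter (fun y => y.1 < q.1)).erase p := by
    ext y
    simp only [mem_filter, mem_erase]
    tauto
  have h2 : p ∈ S.filter (fun y => y.1 < q.1) := mem_filter.2 ⟨hp, h⟩
  rw [h1, card_erase_of_mem h2]
  have h3 : 0 < (S.filter (fun y => y.1 < q.1)).card := card_pos.2 ⟨p, h2⟩
  obtain ⟨k, hk⟩ := Nat.exists_eq_succ_of_ne_zero h3.ne'
  rw [hk, Nat.succ_sub_one, pow_succ]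
  ring

theorem Local_sg_erase_gt (S : Finset Pt) (p q : Pt) (h : ¬ p.1 < q.1) :
    sg (Prod.fst : Pt → ℕ) (S.erase p) q = sg (Prod.fst : Pt → ℕ) S q := by
  unfold sg
  have h1 : (S.erase p).filter (fun y => y.1 < q.1) = S.filter (fun y => y.1 < q.1) := by
    ext y
    simp only [mem_filter, mem_erase]
    constructor
    · rintro ⟨⟨_, h2⟩, h3⟩
      exact ⟨h2, h3⟩
    · rintro ⟨h2, h3⟩
      refine ⟨⟨?_, h2⟩, h3⟩
      rintro rfl
      exact h h3
  rw [h1]

theorem Local_sg_anti (S : Finset Pt) (hinj : ∀ p ∈ S, ∀ q ∈ S, p.1 = q.1 → p = q)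
    (p q : Pt) (hp : p ∈ S) (hq : q ∈ S) (hpq : q ≠ p) :
    sg (Prod.fst : Pt → ℕ) S p * sg (Prod.fst : Pt → ℕ) (S.erase p) q =
      -(sg (Prod.fst : Pt → ℕ) S q * sg (Prod.fst : Pt → ℕ) (S.erase q) p) := by
  rcases lt_trichotomy p.1 q.1 with h | h | h
  · rw [Local_sg_erase_lt S p q hp h, Local_sg_erase_gt S q p (not_lt.2 h.le)]
    ring
  · exact absurd (hinj p hp q hq h).symm hpq
  · rw [Local_sg_erase_gt S p q (not_lt.2 h.le), Local_sg_erase_lt S q p hq h]
    ring

open Classical in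
theorem Local_dl_dl (φ : Finset Pt → ℚ) (S : Finset Pt)
    (hinj : ∀ p ∈ S, ∀ q ∈ S, p.1 = q.1 → p = q) (hOk : Ok (Local_T S)) :
    dl (dl φ) S = 0 := by
  have h1 : dl (dl φ) S = ∑ p ∈ S, ∑ q ∈ S, if q ≠ p ∧ Ok (Local_T ((S.erase p).erase q)) then
      sg (Prod.fst : Pt → ℕ) S p * sg (Prod.fst : Pt → ℕ) (S.erase p) q *
        φ ((S.erase p).erase q) else 0 := by
    unfold dl
    refine Finset.sum_congr rfl fun p hp => ?_
    have h2 : ∑ q ∈ S, (if q ≠ p ∧ Ok (Local_T ((S.erase p).erase q)) then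
        sg (Prod.fst : Pt → ℕ) S p * sg (Prod.fst : Pt → ℕ) (S.erase p) q *
        φ ((S.erase p).erase q) else 0) = ∑ q ∈ S.erase p,
        (if Ok (Local_T ((S.erase p).erase q)) then
        sg (Prod.fst : Pt → ℕ) S p * sg (Prod.fst : Pt → ℕ) (S.erase p) q *
        φ ((S.erase p).erase q) else 0) := by
      symm
      refine Finset.sum_subset_zero_on_sdiff (erase_subset p S) ?_ ?_
      · intro q hq
        have hqp : q = p := by
          by_contra hne
          exact (mem_sdiff.1 hq).2 (mem_erase.2 ⟨hne, (mem_sdiff.1 hq).1⟩)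
        rw [if_neg (fun h => h.1 hqp)]
      · intro q hq
        have hqp : q ≠ p := (mem_erase.1 hq).1
        simp only [ne_eq, hqp, not_false_eq_true, true_and]
    rw [h2]
    by_cases hOkp : Ok ((im (S.erase p)).image lift)
    · rw [if_pos hOkp, Finset.mul_sum]
      refine Finset.sum_congr rfl fun q _ => ?_
      by_cases hq : Ok (Local_T ((S.erase p).erase q))
      · have hq' : Ok ((im ((S.erase p).erase q)).image lift) := hq
        rw [if_pos hq', if_pos hq, mul_assoc]
      · have hq' : ¬ Ok ((im ((S.erase p).erase q)).image lift) := hq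
        rw [if_neg hq', if_neg hq, mul_zero]
    · rw [if_neg hOkp]
      symm
      refine Finset.sum_eq_zero fun q _ => ?_
      rw [if_neg]
      intro hq
      exact hOkp (Local_Ok_conv (Local_T_mono (erase_subset _ _)) (Local_T_mono (erase_subset _ _))
        hq hOk)
  have h3 : ∑ p ∈ S, ∑ q ∈ S, (if q ≠ p ∧ Ok (Local_T ((S.erase p).erase q)) then
      sg (Prod.fst : Pt → ℕ) S p * sg (Prod.fst : Pt → ℕ) (S.erase p) q *
        φ ((S.erase p).erase q) else 0) =
      - ∑ p ∈ S, ∑ q ∈ S, (if q ≠ p ∧ Ok (Local_T ((S.erase p).erase q)) then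
      sg (Prod.fst : Pt → ℕ) S p * sg (Prod.fst : Pt → ℕ) (S.erase p) q *
        φ ((S.erase p).erase q) else 0) := by
    conv_lhs => rw [Finset.sum_comm]
    rw [← Finset.sum_neg_distrib]
    refine Finset.sum_congr rfl fun p hp => ?_
    rw [← Finset.sum_neg_distrib]
    refine Finset.sum_congr rfl fun q hq => ?_
    have he : (S.erase q).erase p = (S.erase p).erase q := erase_right_comm
    rw [he]
    by_cases hc : q ≠ p ∧ Ok (Local_T ((S.erase p).erase q))
    · rw [if_pos hc, if_pos ⟨hc.1.symm, hc.2⟩, Local_sg_anti S hinj q p hq hp hc.1.symm]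
      ring
    · rw [if_neg hc, if_neg (fun h => hc ⟨h.1.symm, h.2⟩), neg_zero]
  rw [h1]
  linarith

/-- a cell with a least slot -/
theorem Local_min (S : Finset Pt) (hinj : ∀ p ∈ S, ∀ q ∈ S, p.1 = q.1 → p = q)
    (hne : S.Nonempty) : ∃ p ∈ S, ∀ q ∈ S.erase p, p.1 < q.1 := by
  obtain ⟨p, hp, h⟩ := exists_min_image S Prod.fst hne
  refine ⟨p, hp, fun q hq => ?_⟩
  have h1 := h q (mem_erase.1 hq).2
  rcases h1.lt_or_eq with h2 | h2
  · exact h2
  · exact absurd (hinj p hp q (mem_erase.1 hq).2 h2).symm (mem_erase.1 hq).1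

/-- local edge value -/
def Local_e (x y : ℕ) : ℚ := if y = x + 1 then (-1) ^ x else 0

theorem Local_El_pair (p q : Pt) (hpq : p ≠ q) (h : lift p.2 ≤ lift q.2) :
    El {p, q} = Local_e (lift p.2) (lift q.2) := by
  unfold El Xl one2 Local_e
  rw [sum_pair hpq, sum_pair hpq, sum_pair hpq]
  rw [if_neg (by omega : ¬ lift p.2 = lift p.2 + 1), if_neg (by omega : ¬ lift q.2 = lift q.2 + 1),
    if_neg (by omega : ¬ lift p.2 = lift q.2 + 1)]
  split_ifs <;> ring

theorem Local_Ok_pair (x y : ℕ) (h : x ≤ y) : Ok {x, y} ↔ y = x + 1 := by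
  constructor
  · intro hO
    have hc := Local_Ok_card hO
    obtain ⟨m, hm | hm⟩ := hO
    · have h1 : x ∈ ({m, m + 1} : Finset ℕ) := by rw [← hm]; simp
      have h2 : y ∈ ({m, m + 1} : Finset ℕ) := by rw [← hm]; simp
      have hne : x ≠ y := by
        rintro rfl
        simp at hc
      simp only [mem_insert, mem_singleton] at h1 h2
      omega
    · exfalso
      have h3 : ({x, y} : Finset ℕ).card ≤ 2 := card_le_two
      rw [hm, card_insert_of_notMem (by simp), card_pair (by omega)] at h3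
      omega
  · rintro rfl
    exact ⟨x, Or.inl rfl⟩

theorem Local_T_pair (p q : Pt) : (im {p, q}).image lift = {lift p.2, lift q.2} := by
  unfold im
  rw [image_insert, image_singleton, image_insert, image_singleton]

open Classical in
theorem Local_term (s : ℚ) (p q : Pt) (hpq : p ≠ q) (h : lift p.2 ≤ lift q.2) :
    (if Ok ((im {p, q}).image lift) then s * El {p, q} else 0) =
      s * Local_e (lift p.2) (lift q.2) := by
  rw [Local_T_pair, Local_El_pair p q hpq h]
  by_cases hO : Ok {lift p.2, lift q.2}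
  · rw [if_pos hO]
  · rw [if_neg hO]
    unfold Local_e
    rw [if_neg (fun h1 => hO ((Local_Ok_pair _ _ h).2 h1)), mul_zero]

theorem Local_lift_le (i : ℕ) (p q : Pt) (hp : lab p.2 = i) (hq : lab q.2 = i)
    (h : p.2 ≤ q.2) : lift p.2 ≤ lift q.2 := by
  rw [Prod.Lex.le_iff] at h
  unfold lift
  rcases h with h | h
  · exact h.le
  · exact h.1.le

theorem Local_one (S : Finset Pt) (hS : LC S) (hc : S.card = 3) : dl El S = 0 := by
  obtain ⟨⟨hm, hinj⟩, ⟨i, hi⟩, hOk⟩ := hS
  obtain ⟨p, hp, hpmin⟩ := Local_min S hinj (card_pos.1 (by omega))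
  have hc1 : (S.erase p).card = 2 := by rw [card_erase_of_mem hp, hc]
  have hinj1 : ∀ x ∈ S.erase p, ∀ y ∈ S.erase p, x.1 = y.1 → x = y :=
    fun x hx y hy h => hinj x (mem_erase.1 hx).2 y (mem_erase.1 hy).2 h
  obtain ⟨q, hq, hqmin⟩ := Local_min (S.erase p) hinj1 (card_pos.1 (by omega))
  have hc2 : ((S.erase p).erase q).card = 1 := by rw [card_erase_of_mem hq, hc1]
  obtain ⟨r, hr⟩ := card_eq_one.1 hc2
  have hr1 : r ∈ (S.erase p).erase q := by rw [hr]; simp
  have hr2 : r ∈ S.erase p := (mem_erase.1 hr1).2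
  have hrS : r ∈ S := (mem_erase.1 hr2).2
  have hqS : q ∈ S := (mem_erase.1 hq).2
  have hpq : p.1 < q.1 := hpmin q hq
  have hpr : p.1 < r.1 := hpmin r hr2
  have hqr : q.1 < r.1 := hqmin r hr1
  have npq : p ≠ q := fun h => by rw [h] at hpq; exact lt_irrefl _ hpq
  have npr : p ≠ r := fun h => by rw [h] at hpr; exact lt_irrefl _ hpr
  have nqr : q ≠ r := fun h => by rw [h] at hqr; exact lt_irrefl _ hqr
  have e1 : S.erase p = {q, r} := by
    rw [← insert_erase hq, hr]
  have eS : S = {p, q, r} := by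
    rw [← insert_erase hp, e1]
  have e2 : S.erase q = {p, r} := by
    rw [eS]
    ext x
    simp only [mem_erase, mem_insert, mem_singleton]
    constructor
    · rintro ⟨h1, h2 | h2 | h2⟩
      · exact Or.inl h2
      · exact absurd h2 h1
      · exact Or.inr h2
    · rintro (h2 | h2)
      · rw [h2]; exact ⟨npq, Or.inl rfl⟩
      · rw [h2]; exact ⟨nqr.symm, Or.inr (Or.inr rfl)⟩
  have e3 : S.erase r = {p, q} := by
    rw [eS]
    ext x
    simp only [mem_erase, mem_insert, mem_singleton]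
    constructor
    · rintro ⟨h1, h2 | h2 | h2⟩
      · exact Or.inl h2
      · exact Or.inr h2
      · exact absurd h2 h1
    · rintro (h2 | h2)
      · rw [h2]; exact ⟨npr, Or.inl rfl⟩
      · rw [h2]; exact ⟨nqr, Or.inr (Or.inl rfl)⟩
  have s1 : sg (Prod.fst : Pt → ℕ) S p = 1 := by
    unfold sg
    have : S.filter (fun y => y.1 < p.1) = ∅ := by
      rw [filter_eq_empty_iff]
      intro y hy h
      by_cases hyp : y = p
      · rw [hyp] at h; exact lt_irrefl _ h
      · exact lt_asymm h (hpmin y (mem_erase.2 ⟨hyp, hy⟩))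
    rw [this, card_empty, pow_zero]
  have s2 : sg (Prod.fst : Pt → ℕ) S q = -1 := by
    have h := Local_sg_erase_lt S p q hp hpq
    have h1 : sg (Prod.fst : Pt → ℕ) (S.erase p) q = 1 := by
      unfold sg
      have : (S.erase p).filter (fun y => y.1 < q.1) = ∅ := by
        rw [filter_eq_empty_iff]
        intro y hy h
        by_cases hyq : y = q
        · rw [hyq] at h; exact lt_irrefl _ h
        · exact lt_asymm h (hqmin y (mem_erase.2 ⟨hyq, hy⟩))
      rw [this, card_empty, pow_zero]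
    rw [h1] at h
    linarith
  have s3 : sg (Prod.fst : Pt → ℕ) S r = 1 := by
    have h := Local_sg_erase_lt S p r hp hpr
    have h2 := Local_sg_erase_lt (S.erase p) q r hq hqr
    have h1 : sg (Prod.fst : Pt → ℕ) ((S.erase p).erase q) r = 1 := by
      unfold sg
      have : ((S.erase p).erase q).filter (fun y => y.1 < r.1) = ∅ := by
        rw [hr, filter_singleton, if_neg (lt_irrefl _)]
      rw [this, card_empty, pow_zero]
    rw [h1] at h2
    linarith
  have lpq : lift p.2 ≤ lift q.2 := Local_lift_le i p q (hi p hp) (hi q hqS) (hm p hp q hqS hpq)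
  have lqr : lift q.2 ≤ lift r.2 := Local_lift_le i q r (hi q hqS) (hi r hrS) (hm q hqS r hrS hqr)
  have hval : dl El S = Local_e (lift q.2) (lift r.2) - Local_e (lift p.2) (lift r.2) +
      Local_e (lift p.2) (lift q.2) := by
    unfold dl
    have hsum : ∀ f : Pt → ℚ, ∑ x ∈ S, f x = f p + (f q + f r) := by
      intro f
      rw [eS, sum_insert (by simp [npq, npr]), sum_pair nqr]
    rw [hsum, e1, e2, e3, s1, s2, s3, Local_term _ _ _ nqr lqr,
      Local_term _ _ _ npr (lpq.trans lqr), Local_term _ _ _ npq lpq]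
    ring
  rw [hval]
  have hT : (im S).image lift = {lift p.2, lift q.2, lift r.2} := by
    rw [eS]
    unfold im
    simp only [image_insert, image_singleton]
  rw [hT] at hOk
  generalize lift p.2 = a at *
  generalize lift q.2 = b at *
  generalize lift r.2 = d at *
  have hcase : (b = a ∧ d = a + 1) ∨ (b = a + 1 ∧ d = a + 1) ∨ (b = a + 1 ∧ d = a + 2) := by
    have hcard := Local_Ok_card hOk
    obtain ⟨m, hm1 | hm1⟩ := hOk
    · have h1 : a ∈ ({m, m + 1} : Finset ℕ) := by rw [← hm1]; simp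
      have h2 : b ∈ ({m, m + 1} : Finset ℕ) := by rw [← hm1]; simp
      have h3 : d ∈ ({m, m + 1} : Finset ℕ) := by rw [← hm1]; simp
      have hne : a ≠ d := by
        intro h
        have hb : b = a := by omega
        rw [← h, hb] at hcard
        simp at hcard
      simp only [mem_insert, mem_singleton] at h1 h2 h3
      omega
    · have h1 : m ∈ ({a, b, d} : Finset ℕ) := by rw [hm1]; simp
      have h2 : m + 1 ∈ ({a, b, d} : Finset ℕ) := by rw [hm1]; simp
      have h3 : m + 2 ∈ ({a, b, d} : Finset ℕ) := by rw [hm1]; simp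
      simp only [mem_insert, mem_singleton] at h1 h2 h3
      omega
  unfold Local_e
  rcases hcase with ⟨rfl, rfl⟩ | ⟨rfl, rfl⟩ | ⟨rfl, rfl⟩
  · simp
  · simp
  · have h1 : ¬ (a + 2 = a + 1) := by omega
    have h2 : a + 2 = a + 1 + 1 := by omega
    rw [if_pos h2, if_neg h1, if_pos rfl, pow_succ]
    ring

theorem Local_loc (A : Finset ℕ) (K N : ℕ) (F : Finset Pt) (hF : MC (GV A K) N F) (i : ℕ)
    (hi : i ∈ A) : LC (loc F i) := by
  obtain ⟨_, h2, h3, h4, _⟩ := hF
  have hsub : loc F i ⊆ F := filter_subset _ _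
  refine ⟨⟨fun p hp q hq h => h2 p (hsub hp) q (hsub hq) h,
    fun p hp q hq h => h3 p (hsub hp) q (hsub hq) h⟩, ⟨i, fun p hp => ?_⟩, ?_⟩
  · unfold loc at hp
    exact (mem_filter.1 hp).2
  · have h5 := h4.2 i hi
    have h6 : (im (loc F i)).image lift = lifts (im F) i := by
      unfold lifts im loc
      ext k
      simp only [mem_image, mem_filter]
      constructor
      · rintro ⟨v, ⟨q, ⟨hq, hqi⟩, rfl⟩, hk⟩
        exact ⟨q.2, ⟨⟨q, hq, rfl⟩, hqi⟩, hk⟩
      · rintro ⟨v, ⟨⟨q, hq, rfl⟩, hqi⟩, hk⟩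
        exact ⟨q.2, ⟨q, ⟨hq, hqi⟩, rfl⟩, hk⟩
    rw [h6]
    exact h5

theorem mod_Local : StLocal := by
  refine ⟨Local_one, ?_, ?_, Local_loc, ?_⟩
  · intro c S hS _
    exact Local_dl_dl _ S hS.1.2 hS.2.2
  · intro S hS
    exact (Local_Ok_card hS.2.2).trans (Local_T_card S)
  · intro A K N F hF
    unfold loc
    refine card_eq_sum_card_fiberwise fun p hp => ?_
    refine hF.2.2.2.1.1 p.2 ?_
    exact mem_image_of_mem _ hp

end Pool.Agent.Helper40.NF
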